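import Pool.Agent.Lib.MP_a17b09_nt.SPH.StmtsH99
import Pool.Agent.Lib.MP_a17b09_nt.SP.PairP11
import Pool.Agent.Lib.MP_a17b09_nt.SP.SqP11
import Pool.Agent.Lib.MP_a17b09_nt.SP.EndP27
import Pool.Agent.Lib.MP_a17b09_nt.CH.MeanU70

/-!
Project SPH, module H6: from the twisted sums to the final statement, for any polynomial without
integral zeros.
-/

set_option autoImplicit false

open Filter Topology Finset

namespace Pool.Agent.Lib.MP_a17b09_nt.SPH

open Pool.Agent.Lib.MP_a17b09_nt.CH Pool.Agent.Lib.MP_a17b09_nt.SP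
open Pool.Agent.Lib.MP_a17b09_nt.CH.EndS
open Pool.Agent.Lib.MP_a17b09_nt.SP.EndP27

namespace FinA11

/-- the divisors as a finite set -/
theorem ncard_eq {a b c : ℤ} {t : ℕ} (hf : fv a b c t ≠ 0) (α β : ℝ) (P : ℕ → Prop)
    [DecidablePred P] :
    Set.ncard {d : ℕ | (d : ℤ) ∣ a * (t : ℤ) ^ 2 + b * t + c ∧ α * t ≤ d ∧ d ≤ β * t ∧ P d} =
      ((nearG a b c α β t).filter P).card := by
  rw [← Set.ncard_coe_finset]
  congr 1
  ext d
  simp only [Set.mem_ofPred_eq, Finset.coe_filter, nearG, Finset.mem_filter, Nat.mem_divisors]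
  have h1 : (d : ℤ) ∣ a * (t : ℤ) ^ 2 + b * t + c ↔ d ∣ (fv a b c t).natAbs := by
    rw [← Int.natCast_dvd_natCast, Int.dvd_natAbs]
    rfl
  rw [h1]
  constructor
  · rintro ⟨h2, h3, h4, h5⟩
    exact ⟨⟨⟨h2, Int.natAbs_ne_zero.2 hf⟩, h3, h4⟩, h5⟩
  · rintro ⟨⟨⟨h2, -⟩, h3, h4⟩, h5⟩
    exact ⟨h2, h3, h4, h5⟩

variable {a b c : ℤ} {α β : ℝ} {h t₀ : ℕ}

theorem count_eq (hf : ∀ t : ℕ, fv a b c t ≠ 0) (P : ℕ → ℕ → Prop)
    [∀ t, DecidablePred (P t)] (N : ℕ) :
    pairCount a b c h t₀ α β P N =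
      ∑ t ∈ (Finset.Icc 1 N).filter (fun t => t ≡ t₀ [MOD h]),
        ((nearG a b c α β t).filter (P t)).card := by
  unfold pairCount
  exact Finset.sum_congr rfl fun t _ => ncard_eq (hf t) α β (P t)

theorem count_true (hf : ∀ t : ℕ, fv a b c t ≠ 0) (N : ℕ) :
    pairCount a b c h t₀ α β (fun _ _ => True) N = CST a b c α β h t₀ 1 0 0 N := by
  rw [count_eq hf]
  unfold CST
  refine Finset.sum_congr rfl fun t _ => ?_
  congr 1
  ext d
  simp [Nat.modEq_one]

theorem count_le (hf : ∀ t : ℕ, fv a b c t ≠ 0) (P : ℕ → ℕ → Prop) (N : ℕ) :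
    pairCount a b c h t₀ α β P N ≤
      ∑ t ∈ (Finset.Icc 1 N).filter (fun t => t ≡ t₀ [MOD h]), (nearG a b c α β t).card := by
  classical
  rw [count_eq hf]
  exact Finset.sum_le_sum fun t _ => Finset.card_filter_le _ _

/-- the number of all pairs is `O(N)` -/
def OnP (a b c : ℤ) (h t₀ : ℕ) (α β : ℝ) : Prop := ∃ C : ℝ, ∀ N : ℕ,
  ((∑ t ∈ (Finset.Icc 1 N).filter (fun t => t ≡ t₀ [MOD h]),
    (nearG a b c α β t).card : ℕ) : ℝ) ≤ C * N

theorem om_slot (hf : ∀ t : ℕ, fv a b c t ≠ 0) {t d : ℕ}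
    (hd : d ∣ (fv a b c t).natAbs) (j : ℕ) :
    Om a b c (t + j * d) = Omn d + Omn (eslot a b c t d (some j)) := by
  have hpos : ∀ s : ℕ, (fv a b c s).natAbs ≠ 0 := fun s => Int.natAbs_ne_zero.2 (hf s)
  have hd0 : d ≠ 0 := fun h0 => hpos t (Nat.eq_zero_of_zero_dvd (h0 ▸ hd))
  have h1 : d ∣ (fv a b c (t + j * d)).natAbs := by
    rw [← Int.natCast_dvd] at hd ⊢
    have h2 : fv a b c (t + j * d) = fv a b c t +
        (d : ℤ) * (a * (2 * t * j + j ^ 2 * d) + b * j) := by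
      rw [fv, fv]
      push_cast
      ring
    rw [h2]
    exact dvd_add hd (dvd_mul_right _ _)
  have h2 : (fv a b c (t + j * d)).natAbs = d * ((fv a b c (t + j * d)).natAbs / d) :=
    (Nat.mul_div_cancel' h1).symm
  have h3 : (fv a b c (t + j * d)).natAbs / d ≠ 0 := by
    intro h0
    rw [h0, mul_zero] at h2
    exact hpos _ h2
  show ArithmeticFunction.cardFactors (fv a b c (t + j * d)).natAbs = _
  conv_lhs => rw [h2]
  rw [ArithmeticFunction.cardFactors_mul hd0 h3]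
  rfl

/-- the limit for the sum over the divisors -/
theorem lim_card (hf : ∀ t : ℕ, fv a b c t ≠ 0) {κ : ℝ}
    (hκ : Tendsto (fun N : ℕ => (pairCount a b c h t₀ α β (fun _ _ => True) N : ℝ) / N) atTop
      (𝓝 κ)) :
    Tendsto (fun M : ℕ => ((∑ t ∈ (Finset.Icc 1 M).filter (fun t => t ≡ t₀ [MOD h]),
      (nearG a b c α β t).card : ℕ) : ℝ) / M) atTop (𝓝 κ) := by
  refine hκ.congr fun M => ?_
  rw [count_eq hf (fun _ _ => True) M]
  simp only [Finset.filter_true]

/-- the law of two slots -/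
theorem pair_law (hf : ∀ t : ℕ, fv a b c t ≠ 0) (hO : OnP a b c h t₀ α β) {κ : ℝ}
    (hκ : Tendsto (fun N : ℕ => (pairCount a b c h t₀ α β (fun _ _ => True) N : ℝ) / N) atTop
      (𝓝 κ)) (hT : TwNull a b c h t₀ α β) {k : ℕ} (hk : 0 < k) (o1 o2 : Option ℕ) (ho : o1 ≠ o2)
    (r s : ℕ) (E : LMean) :
    E.E (fun N : ℕ => |(pairCount a b c h t₀ α β (fun t d => Omn (eslot a b c t d o1) ≡ r [MOD k] ∧
      Omn (eslot a b c t d o2) ≡ s [MOD k]) N : ℝ) / N - κ / k ^ 2|) = 0 := by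
  have h1 := PairP11.main E k hk (fun M => (Finset.Icc 1 M).filter (fun t => t ≡ t₀ [MOD h]))
    (nearG a b c α β) (fun t d => Omn (eslot a b c t d o1)) (fun t d => Omn (eslot a b c t d o2))
    hO κ (lim_card hf hκ) (fun z1 z2 h1 h2 h3 => hT z1 z2 k hk h1 h2 h3 o1 o2 ho E) r s
  have e1 : (fun N : ℕ => |(pairCount a b c h t₀ α β (fun t d => Omn (eslot a b c t d o1) ≡ r [MOD k] ∧
      Omn (eslot a b c t d o2) ≡ s [MOD k]) N : ℝ) / N - κ / k ^ 2|) = fun M : ℕ =>
      |((∑ t ∈ (Finset.Icc 1 M).filter (fun t => t ≡ t₀ [MOD h]), ((nearG a b c α β t).filter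
        (fun d => Omn (eslot a b c t d o1) ≡ r [MOD k] ∧
          Omn (eslot a b c t d o2) ≡ s [MOD k])).card : ℕ) : ℝ) / M - κ / k ^ 2| := by
    funext N
    rw [count_eq hf (fun t d => Omn (eslot a b c t d o1) ≡ r [MOD k] ∧
      Omn (eslot a b c t d o2) ≡ s [MOD k]) N]
  rw [e1]
  exact h1

/-- the four sign patterns -/
theorem sgn_law (hf : ∀ t : ℕ, fv a b c t ≠ 0) (hO : OnP a b c h t₀ α β) {κ : ℝ}
    (hκ : Tendsto (fun N : ℕ => (pairCount a b c h t₀ α β (fun _ _ => True) N : ℝ) / N) atTop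
      (𝓝 κ)) (hT : TwNull a b c h t₀ α β) (j l : ℕ) (hjl : j ≠ l) (r s : ℕ) (E : LMean) :
    E.E (fun N : ℕ => |(pairCount a b c h t₀ α β (fun t d => Om a b c (t + j * d) ≡ r [MOD 2] ∧
      Om a b c (t + l * d) ≡ s [MOD 2]) N : ℝ) / N - κ / 4|) = 0 := by
  have h4 : (κ / ((2 : ℕ) : ℝ) ^ 2) = κ / 4 := by norm_num
  have key : ∀ z1 z2 : ℂ, z1 ^ 2 = 1 → z2 ^ 2 = 1 → (z1 ≠ 1 ∨ z2 ≠ 1) →
      E.E (fun M : ℕ => ‖∑ t ∈ (Finset.Icc 1 M).filter (fun t => t ≡ t₀ [MOD h]),
        ∑ d ∈ nearG a b c α β t, z1 ^ Om a b c (t + j * d) * z2 ^ Om a b c (t + l * d)‖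
          / (M : ℝ)) = 0 := by
    intro z1 z2 h1 h2 h3
    have hm1 : ((-1 : ℂ)) ^ 2 = 1 := by norm_num
    have hsq : ∀ z : ℂ, z ^ 2 = 1 → z = 1 ∨ z = -1 := fun z hz => by
      have : (z - 1) * (z + 1) = 0 := by linear_combination hz
      rcases mul_eq_zero.1 this with h | h
      · exact Or.inl (sub_eq_zero.1 h)
      · exact Or.inr (eq_neg_of_add_eq_zero_left h)
    have hm2 : ((-1 : ℂ)) ≠ 1 := by norm_num
    have hT' := fun o1 o2 ho => hT (-1) (-1) 2 two_pos hm1 hm1 (Or.inl hm2) o1 o2 ho E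
    have hone : ∀ n : ℕ, ((-1 : ℂ) ^ n) * ((-1 : ℂ) ^ n) = 1 := by
      intro n
      rw [← mul_pow]
      norm_num
    have hs : ∀ (i : ℕ) (t : ℕ), ∀ d ∈ nearG a b c α β t,
        Om a b c (t + i * d) = Omn d + Omn (eslot a b c t d (some i)) := by
      intro i t d' hd'
      exact om_slot hf (Nat.dvd_of_mem_divisors (Finset.mem_filter.1 hd').1) i
    have hcv : ∀ (F G : ℕ → ℕ → ℂ), (∀ t, ∀ d ∈ nearG a b c α β t, F t d = G t d) →
        E.E (fun M : ℕ => ‖∑ t ∈ (Finset.Icc 1 M).filter (fun t => t ≡ t₀ [MOD h]),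
          ∑ d ∈ nearG a b c α β t, G t d‖ / (M : ℝ)) = 0 →
        E.E (fun M : ℕ => ‖∑ t ∈ (Finset.Icc 1 M).filter (fun t => t ≡ t₀ [MOD h]),
          ∑ d ∈ nearG a b c α β t, F t d‖ / (M : ℝ)) = 0 := by
      intro F G hFG h0
      have e : (fun M : ℕ => ‖∑ t ∈ (Finset.Icc 1 M).filter (fun t => t ≡ t₀ [MOD h]),
          ∑ d ∈ nearG a b c α β t, F t d‖ / (M : ℝ)) =
          fun M : ℕ => ‖∑ t ∈ (Finset.Icc 1 M).filter (fun t => t ≡ t₀ [MOD h]),
          ∑ d ∈ nearG a b c α β t, G t d‖ / (M : ℝ) := by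
        funext M
        rw [Finset.sum_congr rfl fun t _ => Finset.sum_congr rfl (hFG t)]
      rw [e]
      exact h0
    rcases hsq _ h1 with rfl | rfl
    · rcases hsq _ h2 with rfl | rfl
      · exact absurd rfl (h3.resolve_left (fun h => h rfl))
      · refine hcv _ _ (fun t d' hd' => ?_) (hT' none (some l) (by simp))
        rw [hs l t d' hd', one_pow, one_mul, pow_add]
        rfl
    · rcases hsq _ h2 with rfl | rfl
      · refine hcv _ _ (fun t d' hd' => ?_) (hT' none (some j) (by simp))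
        rw [hs j t d' hd', one_pow, mul_one, pow_add]
        rfl
      · refine hcv _ _ (fun t d' hd' => ?_) (hT' (some j) (some l) (by simpa using hjl))
        rw [hs j t d' hd', hs l t d' hd', pow_add, pow_add]
        linear_combination ((-1 : ℂ)) ^ Omn (eslot a b c t d' (some j)) *
          ((-1 : ℂ)) ^ Omn (eslot a b c t d' (some l)) * hone (Omn d')
  have h1 := PairP11.main E 2 two_pos (fun M => (Finset.Icc 1 M).filter (fun t => t ≡ t₀ [MOD h]))
    (nearG a b c α β) (fun t d => Om a b c (t + j * d)) (fun t d => Om a b c (t + l * d))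
    hO κ (lim_card hf hκ) key r s
  rw [h4] at h1
  have e1 : (fun N : ℕ => |(pairCount a b c h t₀ α β (fun t d => Om a b c (t + j * d) ≡ r [MOD 2] ∧
      Om a b c (t + l * d) ≡ s [MOD 2]) N : ℝ) / N - κ / 4|) = fun M : ℕ =>
      |((∑ t ∈ (Finset.Icc 1 M).filter (fun t => t ≡ t₀ [MOD h]), ((nearG a b c α β t).filter
        (fun d => Om a b c (t + j * d) ≡ r [MOD 2] ∧
          Om a b c (t + l * d) ≡ s [MOD 2])).card : ℕ) : ℝ) / M - κ / 4| := by
    funext N
    rw [count_eq hf (fun t d => Om a b c (t + j * d) ≡ r [MOD 2] ∧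
      Om a b c (t + l * d) ≡ s [MOD 2]) N]
  rw [e1]
  exact h1

/-- the second moment -/
theorem sq_law (hf : ∀ t : ℕ, fv a b c t ≠ 0) (hO : OnP a b c h t₀ α β) {κ : ℝ}
    (hκ : Tendsto (fun N : ℕ => (pairCount a b c h t₀ α β (fun _ _ => True) N : ℝ) / N) atTop
      (𝓝 κ)) (hT : TwNull a b c h t₀ α β) {k : ℕ} (hk : 0 < k) (J : ℕ) (E : LMean) :
    E.E (fun N : ℕ => |SqP a b c α β h t₀ J k N / N - κ * (J * (1 - 1 / k))|) = 0 := by
  have h1 := SqP11.main E k hk J (fun M => (Finset.Icc 1 M).filter (fun t => t ≡ t₀ [MOD h]))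
    (nearG a b c α β) (fun j t d => Omn (eslot a b c t d (some j)))
    hO κ (lim_card hf hκ) (by
      intro j l hjl r s
      have h2 := pair_law hf hO hκ hT hk (some j) (some l) (fun h => hjl (Option.some.inj h)) r s E
      have e1 : (fun N : ℕ => |(pairCount a b c h t₀ α β
          (fun t d => Omn (eslot a b c t d (some j)) ≡ r [MOD k] ∧
          Omn (eslot a b c t d (some l)) ≡ s [MOD k]) N : ℝ) / N - κ / k ^ 2|) = fun M : ℕ =>
          |((∑ t ∈ (Finset.Icc 1 M).filter (fun t => t ≡ t₀ [MOD h]),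
            ((nearG a b c α β t).filter
            (fun d => Omn (eslot a b c t d (some j)) ≡ r [MOD k] ∧
              Omn (eslot a b c t d (some l)) ≡ s [MOD k])).card : ℕ) : ℝ) / M - κ / k ^ 2| := by
        funext N
        rw [count_eq hf (fun t d => Omn (eslot a b c t d (some j)) ≡ r [MOD k] ∧
          Omn (eslot a b c t d (some l)) ≡ s [MOD k]) N]
      rw [e1] at h2
      exact h2)
  have e2 : ∀ N : ℕ, SqP a b c α β h t₀ J k N =
      ∑ t ∈ (Finset.Icc 1 N).filter (fun t => t ≡ t₀ [MOD h]), ∑ d ∈ nearG a b c α β t,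
        (∑ p ∈ range J ×ˢ range J, (if Omn (eslot a b c t d (some p.1)) ≡
          Omn (eslot a b c t d (some p.2)) [MOD k] then (1 : ℝ) else 0) - (J : ℝ) ^ 2 / k) := by
    intro N
    refine sum_congr rfl fun t _ => sum_congr rfl fun d hd => ?_
    have hd1 : d ∣ (fv a b c t).natAbs := Nat.dvd_of_mem_divisors (Finset.mem_filter.1 hd).1
    refine (SqP11.sq_id k hk J (fun j => Om a b c (t + j * d))).trans ?_
    congr 1
    refine sum_congr rfl fun p _ => ?_
    rw [om_slot hf hd1, om_slot hf hd1]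
    have h3 : (Omn d + Omn (eslot a b c t d (some p.1)) ≡
        Omn d + Omn (eslot a b c t d (some p.2)) [MOD k]) ↔
        (Omn (eslot a b c t d (some p.1)) ≡ Omn (eslot a b c t d (some p.2)) [MOD k]) :=
      ⟨fun h => Nat.ModEq.add_left_cancel' _ h, fun h => h.add_left _⟩
    exact if_congr h3 rfl rfl
  simp only [e2]
  exact h1

theorem count_bdd (hf : ∀ t : ℕ, fv a b c t ≠ 0) (hO : OnP a b c h t₀ α β)
    (P : ℕ → ℕ → Prop) :
    Bdd (fun N : ℕ => (pairCount a b c h t₀ α β P N : ℝ) / N) := by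
  obtain ⟨B, hB⟩ := hO
  refine ⟨|B|, fun N => ?_⟩
  rw [abs_div, Nat.abs_cast, Nat.abs_cast]
  rcases Nat.eq_zero_or_pos N with h0 | h0
  · subst h0; simp
  · have hN : (0 : ℝ) < N := by exact_mod_cast h0
    rw [div_le_iff₀ hN]
    have h1 : (pairCount a b c h t₀ α β P N : ℝ) ≤
        ((∑ t ∈ (Finset.Icc 1 N).filter (fun t => t ≡ t₀ [MOD h]),
          (nearG a b c α β t).card : ℕ) : ℝ) := by exact_mod_cast count_le hf P N
    refine h1.trans ((hB N).trans ?_)
    exact mul_le_mul_of_nonneg_right (le_abs_self B) hN.le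

/-- from means to rare exceptions, for the number of pairs -/
theorem pair_null (hf : ∀ t : ℕ, fv a b c t ≠ 0) (hO : OnP a b c h t₀ α β)
    (P : ℕ → ℕ → Prop) (l : ℝ)
    (hM : ∀ M : LMean, M.E (fun N : ℕ => |(pairCount a b c h t₀ α β P N : ℝ) / N - l|) = 0)
    {ε : ℝ} (hε : 0 < ε) :
    LogNull {N : ℕ | ε * N < |(pairCount a b c h t₀ α β P N : ℝ) - l * N|} := by
  have h1 := logNull_of stMeanU_70 ((count_bdd hf hO P).sub (Bdd.const l)).abs
    (fun N => abs_nonneg _) hM hε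
  refine logNull_fin h1 1 fun N hN hN1 => ?_
  simp only [Set.mem_ofPred_eq] at hN ⊢
  have hN0 : (0 : ℝ) < N := by exact_mod_cast hN1
  have e1 : (pairCount a b c h t₀ α β P N : ℝ) / N - l =
      ((pairCount a b c h t₀ α β P N : ℝ) - l * N) / N := by
    field_simp
  rw [e1, abs_div, Nat.abs_cast, lt_div_iff₀ hN0]
  exact hN

/-- Chebyshev -/
theorem cheb (hf : ∀ t : ℕ, fv a b c t ≠ 0) {J k : ℕ}
    (hk : 0 < k) {η : ℝ} (hη : 0 < η) (N : ℕ) :
    (η * J) ^ 2 * (pairCount a b c h t₀ α β (BadP a b c J k η) N : ℝ) ≤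
      SqP a b c α β h t₀ J k N := by
  classical
  rw [count_eq hf]
  unfold SqP
  push_cast
  rw [Finset.mul_sum]
  refine Finset.sum_le_sum fun t _ => ?_
  have h0 : ∀ d, 0 ≤ ∑ r ∈ Finset.range k, ((cntJ a b c J k r t d : ℝ) - J / k) ^ 2 :=
    fun d => Finset.sum_nonneg fun _ _ => sq_nonneg _
  calc (η * J) ^ 2 * (((nearG a b c α β t).filter (BadP a b c J k η t)).card : ℝ)
      = ∑ d ∈ (nearG a b c α β t).filter (BadP a b c J k η t), (η * J) ^ 2 := by
        rw [Finset.sum_const, nsmul_eq_mul, mul_comm]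
    _ ≤ ∑ d ∈ (nearG a b c α β t).filter (BadP a b c J k η t),
          ∑ r ∈ Finset.range k, ((cntJ a b c J k r t d : ℝ) - J / k) ^ 2 := by
        refine Finset.sum_le_sum fun d hd => ?_
        obtain ⟨r, hr⟩ := (Finset.mem_filter.1 hd).2
        have h1 : (η * J) ^ 2 ≤ ((cntJ a b c J k (r % k) t d : ℝ) - J / k) ^ 2 := by
          rw [cntJ_mod, ← sq_abs ((cntJ a b c J k r t d : ℝ) - J / k)]
          exact pow_le_pow_left₀ (by positivity) hr.le 2
        refine h1.trans ?_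
        exact Finset.single_le_sum (f := fun r => ((cntJ a b c J k r t d : ℝ) - J / k) ^ 2)
          (fun _ _ => sq_nonneg _) (Finset.mem_range.2 (Nat.mod_lt _ hk))
    _ ≤ ∑ d ∈ nearG a b c α β t, ∑ r ∈ Finset.range k, ((cntJ a b c J k r t d : ℝ) - J / k) ^ 2 :=
        Finset.sum_le_sum_of_subset_of_nonneg (Finset.filter_subset _ _) fun d _ _ => h0 d

theorem sq_bdd (hO : OnP a b c h t₀ α β) (J k : ℕ) (hk : 0 < k) :
    Bdd (fun N : ℕ => SqP a b c α β h t₀ J k N / N) := by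
  obtain ⟨B, hB⟩ := hO
  have hk0 : (0 : ℝ) < k := by exact_mod_cast hk
  have hk1 : (1 : ℝ) ≤ k := by exact_mod_cast hk
  refine ⟨k * J ^ 2 * |B|, fun N => ?_⟩
  have h0 : 0 ≤ SqP a b c α β h t₀ J k N :=
    Finset.sum_nonneg fun _ _ => Finset.sum_nonneg fun _ _ => Finset.sum_nonneg fun _ _ =>
      sq_nonneg _
  rw [abs_of_nonneg (div_nonneg h0 (Nat.cast_nonneg N))]
  rcases Nat.eq_zero_or_pos N with h1 | h1
  · subst h1
    simp only [Nat.cast_zero, div_zero]
    positivity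
  · have hN : (0 : ℝ) < N := by exact_mod_cast h1
    rw [div_le_iff₀ hN]
    have h2 : SqP a b c α β h t₀ J k N ≤ k * J ^ 2 *
        ((∑ t ∈ (Finset.Icc 1 N).filter (fun t => t ≡ t₀ [MOD h]),
          (nearG a b c α β t).card : ℕ) : ℝ) := by
      unfold SqP
      push_cast
      rw [Finset.mul_sum]
      refine Finset.sum_le_sum fun t _ => ?_
      have h3 : ∀ d ∈ nearG a b c α β t,
          ∑ r ∈ Finset.range k, ((cntJ a b c J k r t d : ℝ) - J / k) ^ 2 ≤ k * J ^ 2 := by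
        intro d _
        have h4 : ∀ r ∈ Finset.range k, ((cntJ a b c J k r t d : ℝ) - J / k) ^ 2 ≤ J ^ 2 := by
          intro r _
          have h5 : (cntJ a b c J k r t d : ℝ) ≤ J := by
            have : cntJ a b c J k r t d ≤ J := by
              unfold cntJ
              exact (Finset.card_filter_le _ _).trans (by rw [Finset.card_range])
            exact_mod_cast this
          have h6 : (0 : ℝ) ≤ cntJ a b c J k r t d := Nat.cast_nonneg _
          have h7 : (0 : ℝ) ≤ J / k := by positivity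
          have h8 : (J : ℝ) / k ≤ J := div_le_self (Nat.cast_nonneg _) hk1
          exact sq_le_sq' (by linarith) (by linarith)
        refine (Finset.sum_le_sum h4).trans ?_
        rw [Finset.sum_const, Finset.card_range, nsmul_eq_mul]
      refine (Finset.sum_le_sum h3).trans ?_
      rw [Finset.sum_const, nsmul_eq_mul]
      linarith
    have h9 : B * N ≤ |B| * N := mul_le_mul_of_nonneg_right (le_abs_self B) hN.le
    have h10 : (0 : ℝ) ≤ k * J ^ 2 := by positivity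
    calc SqP a b c α β h t₀ J k N ≤ k * J ^ 2 *
        ((∑ t ∈ (Finset.Icc 1 N).filter (fun t => t ≡ t₀ [MOD h]),
          (nearG a b c α β t).card : ℕ) : ℝ) := h2
      _ ≤ k * J ^ 2 * (|B| * N) := mul_le_mul_of_nonneg_left ((hB N).trans h9) h10
      _ = k * J ^ 2 * |B| * N := by ring

/-- rarely many bad progressions -/
theorem bad_null (hf : ∀ t : ℕ, fv a b c t ≠ 0) (hO : OnP a b c h t₀ α β)
    {J k : ℕ} (hJ : 0 < J) (hk : 0 < k) {η κ : ℝ} (hη : 0 < η) (hκ : 0 < κ)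
    (hM : ∀ M : LMean, M.E (fun N : ℕ => |SqP a b c α β h t₀ J k N / N -
      κ * (J * (1 - 1 / k))|) = 0) {ε : ℝ} (hε : 0 < ε) :
    LogNull {N : ℕ | (1 / (η ^ 2 * J) + ε) * κ * N <
      (pairCount a b c h t₀ α β (BadP a b c J k η) N : ℝ)} := by
  have hJ0 : (0 : ℝ) < J := by exact_mod_cast hJ
  have hk0 : (0 : ℝ) < k := by exact_mod_cast hk
  have hεp : 0 < ε * κ * (η * J) ^ 2 := by positivity
  have h1 := logNull_of stMeanU_70 ((sq_bdd hO J k hk).sub
    (Bdd.const (κ * (J * (1 - 1 / k))))).abs (fun N => abs_nonneg _) hM hεp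
  refine logNull_fin h1 1 fun N hN hN1 => ?_
  simp only [Set.mem_ofPred_eq] at hN ⊢
  have hN0 : (0 : ℝ) < N := by exact_mod_cast hN1
  have h2 := cheb (h := h) (t₀ := t₀) (α := α) (β := β) hf hk hη (J := J) N
  set X : ℝ := (pairCount a b c h t₀ α β (BadP a b c J k η) N : ℝ) with hX
  set Y : ℝ := SqP a b c α β h t₀ J k N with hY
  refine lt_of_lt_of_le ?_ (le_abs_self _)
  have h3 : (η * J) ^ 2 * ((1 / (η ^ 2 * J) + ε) * κ * N) < Y :=
    (mul_lt_mul_of_pos_left hN (by positivity)).trans_le h2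
  have h4 : (η * J) ^ 2 * ((1 / (η ^ 2 * J) + ε) * κ * N) =
      (κ * J + ε * κ * (η * J) ^ 2) * N := by
    field_simp
  rw [h4] at h3
  have h5 : κ * J + ε * κ * (η * J) ^ 2 < Y / N := by
    rw [lt_div_iff₀ hN0]; exact h3
  have h6 : κ * (J * (1 - 1 / k)) ≤ κ * J := by
    refine mul_le_mul_of_nonneg_left ?_ hκ.le
    have : 0 < 1 / (k : ℝ) := by positivity
    exact mul_le_of_le_one_right hJ0.le (by linarith)
  linarith

/-- the pairs split into good and bad ones -/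
theorem count_split (hf : ∀ t : ℕ, fv a b c t ≠ 0)
    (P : ℕ → ℕ → Prop) (N : ℕ) :
    pairCount a b c h t₀ α β (fun _ _ => True) N = pairCount a b c h t₀ α β P N +
      pairCount a b c h t₀ α β (fun t d => ¬ P t d) N := by
  classical
  rw [count_eq hf, count_eq hf, count_eq hf, ← Finset.sum_add_distrib]
  refine Finset.sum_congr rfl fun t _ => ?_
  rw [Finset.filter_true, Finset.card_filter_add_card_filter_not]

/-- many good progressions at all large scales -/
theorem good_lower (hf : ∀ t : ℕ, fv a b c t ≠ 0)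
    {J k : ℕ} (hJ : 0 < J) {η κ : ℝ} (hη : 0 < η) (hκ : 0 < κ)
    (hlim : Tendsto (fun N : ℕ => (pairCount a b c h t₀ α β (fun _ _ => True) N : ℝ) / N) atTop
      (𝓝 κ))
    (hbad : ∀ ε : ℝ, 0 < ε → LogNull {N : ℕ | (1 / (η ^ 2 * J) + ε) * κ * N <
      (pairCount a b c h t₀ α β (BadP a b c J k η) N : ℝ)}) (hη1 : 1 < η ^ 2 * J) :
    ∃ c' : ℝ, 0 < c' ∧ ∀ᶠ N : ℕ in atTop, c' * N ≤
      (pairCount a b c h t₀ α β (fun t d => ¬ BadP a b c J k η t d) N : ℝ) := by
  have hJ0 : (0 : ℝ) < J := by exact_mod_cast hJ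
  have hθ : 0 < 1 - 1 / (η ^ 2 * J) := by
    rw [sub_pos, div_lt_one (by positivity)]
    exact hη1
  set θ := 1 - 1 / (η ^ 2 * J) with hθd
  have hmono : Monotone (fun N : ℕ =>
      (pairCount a b c h t₀ α β (fun t d => ¬ BadP a b c J k η t d) N : ℝ)) := by
    intro m n hmn
    exact Nat.cast_le.2 (EndT.count_mono _ hmn)
  refine lower_all' hmono (κ := κ * θ / 2) (by positivity) ?_
  have h1 : ∀ᶠ N : ℕ in atTop, (1 - θ / 4) * κ <
      (pairCount a b c h t₀ α β (fun _ _ => True) N : ℝ) / N := by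
    apply hlim.eventually_const_lt
    nlinarith
  obtain ⟨N1, hN1⟩ := h1.exists_forall_of_atTop
  refine logNull_fin (hbad (θ / 4) (by positivity)) (max N1 1) fun N hN hN2 => ?_
  simp only [Set.mem_ofPred_eq] at hN ⊢
  have hN0 : (0 : ℝ) < N := by
    have : 0 < N := (le_max_right N1 1).trans hN2
    exact_mod_cast this
  have h2 := hN1 N ((le_max_left _ _).trans hN2)
  rw [lt_div_iff₀ hN0] at h2
  have h3 := count_split (h := h) (t₀ := t₀) (α := α) (β := β) hf (BadP a b c J k η) N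
  have h4 : (pairCount a b c h t₀ α β (fun _ _ => True) N : ℝ) =
      pairCount a b c h t₀ α β (BadP a b c J k η) N +
      pairCount a b c h t₀ α β (fun t d => ¬ BadP a b c J k η t d) N := by
    exact_mod_cast h3
  rw [h4] at h2
  have h5 : 1 / (η ^ 2 * J) = 1 - θ := by rw [hθd]; ring
  rw [h5]
  have h6 : (1 - θ + θ / 4) * κ * N = (1 - θ / 4) * κ * N - κ * θ / 2 * N := by ring
  rw [h6]
  linarith

end FinA11

open FinA11 in
/-- H6 -/
theorem finA_11 : StFinA := by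
  intro a b c hf h hh t₀ α β hα hαβ hO ⟨κ, hκ, hlim0⟩ hT
  have hlim : Tendsto (fun N : ℕ => (pairCount a b c h t₀ α β (fun _ _ => True) N : ℝ) / N)
      atTop (𝓝 κ) := by
    simp only [count_true hf]
    exact hlim0
  refine ⟨κ, hκ, hlim, ?_, ?_, ?_⟩
  · intro j l hjl r s ε hε
    exact pair_null hf hO _ _ (fun M => sgn_law hf hO hlim hT j l hjl r s M) hε
  · intro k hk j l hjl r s ε hε
    exact pair_null hf hO _ _ (fun M => pair_law hf hO hlim hT hk (some j) (some l)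
      (fun h => hjl (Option.some.inj h)) r s M) hε
  · intro k hk J hJ η hη
    have hbad := fun (ε : ℝ) (hε : 0 < ε) => bad_null hf hO hJ hk hη hκ
      (fun M => sq_law hf hO hlim hT hk J M) hε
    refine ⟨fun ε hε => hbad ε hε, fun hη1 => ?_⟩
    obtain ⟨c', hc', hev⟩ := good_lower hf hJ hη hκ hlim hbad hη1
    refine ⟨c', hc', hev.mono fun N hN => hN.trans (le_of_eq ?_)⟩
    have e1 : (fun t d => ¬ BadP a b c J k η t d) = (fun (t d : ℕ) =>
        ∀ r : ℕ, |(((Finset.range J).filter (fun j : ℕ => ArithmeticFunction.cardFactors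
          (vl a b c (t + j * d)) ≡ r [MOD k])).card : ℝ) - J / k| ≤ η * J) := by
      funext t d
      unfold BadP
      apply propext
      push Not
      rfl
    rw [e1]

end Pool.Agent.Lib.MP_a17b09_nt.SPH
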