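import Pool.Agent.Lib.MP_a17b09_nt.SP.StmtsSP99
import Pool.Agent.Lib.MP_a17b09_nt.HY.StmtsR20

/-!
Project SPH (MP_a17b09_nt): short progressions, positive discriminant.  Port of project SP to the
indefinite forms of project HY.  Statements of the modules.
-/

set_option autoImplicit false

open Filter Topology Finset

namespace Pool.Agent.Lib.MP_a17b09_nt.SPH

open Pool.Agent.Lib.MP_a17b09_nt.CH Pool.Agent.Lib.MP_a17b09_nt.HY Pool.Agent.Lib.MP_a17b09_nt.SP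

/-- the input: Theorem A for all systems of discriminants `d m ^ 2` and all pairs of roots of unity
different from `(1, 1)` -/
def InH (d : ℕ) : Prop := ∀ (ι : Type) [Fintype ι] (S : HSystem ι),
  (∃ m : ℕ, 0 < m ∧ S.d = d * m ^ 2) → ∀ (z1 z2 : ℂ) (k : ℕ), 0 < k → z1 ^ k = 1 → z2 ^ k = 1 →
  (z1 ≠ 1 ∨ z2 ≠ 1) → ∀ (K : ℕ), 0 < K → ∀ om : ι → V → V → ℂ, HWt S K om →
  ∀ a : Pell.Solution₁ (S.d : ℤ), PP a → ∀ M : LMean, HNullM M S.Q (per a) (kerH S z1 z2 om)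

/-- the kernel with the values at two vectors of the frame -/
noncomputable def kerHL {ι : Type} (S : HSystem ι) (z1 z2 : ℂ) (e1 e2 : ℕ × ℕ)
    (om : ι → V → V → ℂ) (i : ι) (w w' : V) : ℂ :=
  om i w w' * gz z1 (S.Q i) (lin e1 w w') * gz z2 (S.Q i) (lin e2 w w')

/-- (H1) the system of index `m`.  For a primitive residue `r` modulo `m` up to units let `γ` be a
matrix whose columns are a basis of the lattice of the vectors congruent modulo `m` to a multiple of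
`r`, such that the form `q (γ x)` is `Hyp` and `γ (1, 0)` lies in the cone.  With
`v = lin e1 (w, w')`, `v' = lin e2 (w, w')` the frames `(w, w')` of the form `i` correspond to the
frames `(x, x')` of the forms `(i, r)` with `γ x = γ x' mod m`, where `v = γ x`, `v' = γ x'`.
The correspondence commutes with the automorphs (no hypothesis) -/
def StHSysL : Prop := ∀ (ι : Type) [Fintype ι] (S : HSystem ι) (e1 e2 : ℕ × ℕ), Adm e1 e2 →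
  ∀ m : ℕ, m + e2.1 * e1.2 = e1.1 * e2.2 → ∀ (K : ℕ), 0 < K → ∀ om : ι → V → V → ℂ, HWt S K om →
  ∃ (ι' : Type) (_ : Fintype ι') (S' : HSystem ι') (K' : ℕ) (om' : ι' → V → V → ℂ)
    (P : Set (ι' × V × V)) (T : ι' × V × V → ι × V × V),
    S'.d = S.d * m ^ 2 ∧ 0 < K' ∧ HWt S' K' om' ∧
    (∀ t ∈ P, wd t.2.1 t.2.2 = 1) ∧
    (∀ t, t ∉ P → wd t.2.1 t.2.2 = 1 → om' t.1 t.2.1 t.2.2 = 0) ∧
    Set.BijOn T P {f : ι × V × V | wd f.2.1 f.2.2 = 1} ∧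
    (∀ t ∈ P, om' t.1 t.2.1 t.2.2 = om (T t).1 (T t).2.1 (T t).2.2 ∧
      (S'.Q t.1).q t.2.1 = (S.Q (T t).1).q (lin e1 (T t).2.1 (T t).2.2) ∧
      (S'.Q t.1).q t.2.2 = (S.Q (T t).1).q (lin e2 (T t).2.1 (T t).2.2) ∧
      (Cn (S'.Q t.1) t.2.1 ↔ Cn (S.Q (T t).1) (lin e1 (T t).2.1 (T t).2.2)) ∧
      (Cn (S'.Q t.1) t.2.2 ↔ Cn (S.Q (T t).1) (lin e2 (T t).2.1 (T t).2.2))) ∧
    ∀ a' : Pell.Solution₁ (S'.d : ℤ), ∃ a : Pell.Solution₁ (S.d : ℤ), a.x = a'.x ∧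
      a.y = m * a'.y ∧ ∀ t ∈ P,
      (t.1, act (S'.Q t.1) a' t.2.1, act (S'.Q t.1) a' t.2.2) ∈ P ∧
      T (t.1, act (S'.Q t.1) a' t.2.1, act (S'.Q t.1) a' t.2.2) =
        ((T t).1, act (S.Q (T t).1) a (T t).2.1, act (S.Q (T t).1) a (T t).2.2)

/-- (H2) the change of region.  `4 q(w) q(w') = B ^ 2 - d`, so `B = 2 |w| |w'| + O (1 / n)`
(use `StHcnt` for the number of frames) -/
def StHRegL : Prop := ∀ (d : ℕ) (Q : Form), Hyp d Q → ∀ (e1 e2 : ℕ × ℕ) (m : ℕ), 0 < m →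
  m + e2.1 * e1.2 = e1.1 * e2.2 → ∀ T : ℝ, 0 < T → ∀ (δ : ℝ) (h : ℝ → ℝ → ℝ), 0 < δ → Test δ h →
  (∀ w w' : V, Cn Q w → Cn Q w' → Cn Q (lin e1 w w') ∧ Cn Q (lin e2 w w')) ∧
  ∃ (C : ℝ) (n0 : ℕ), ∀ n : ℕ, n0 ≤ n →
    (∀ w w' : V, wd w w' = 1 → Cn Q (lin e1 w w') → Cn Q (lin e2 w w') →
      hL e1 e2 m h (Q.nr ((kp e1 e2 : ℝ) ^ 2 * n) (lin e1 w w'))
        (Q.nr ((kp e1 e2 : ℝ) ^ 2 * n) (lin e2 w w')) ≠ 0 → Cn Q w ∧ Cn Q w') ∧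
    {f : V × V | wd f.1 f.2 = 1 ∧ Sec Q T f.1 ∧ Cn Q f.2 ∧
      (h (Q.nr n f.1) (Q.nr n f.2) ≠ 0 ∨
        hL e1 e2 m h (Q.nr ((kp e1 e2 : ℝ) ^ 2 * n) (lin e1 f.1 f.2))
          (Q.nr ((kp e1 e2 : ℝ) ^ 2 * n) (lin e2 f.1 f.2)) ≠ 0)}.Finite ∧
    ∀ F : Finset (V × V), (∀ f ∈ F, wd f.1 f.2 = 1 ∧ Sec Q T f.1 ∧ Cn Q f.2) →
      ∑ f ∈ F, |h (Q.nr n f.1) (Q.nr n f.2) -
        hL e1 e2 m h (Q.nr ((kp e1 e2 : ℝ) ^ 2 * n) (lin e1 f.1 f.2))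
          (Q.nr ((kp e1 e2 : ℝ) ^ 2 * n) (lin e2 f.1 f.2))| ≤ C

/-- (H3) two fundamental domains of an infinite cyclic group (abstract; compare `ncard_fund` of
`HY.Sys68`) -/
def StUnfA : Prop := ∀ (X : Type) (τ : Equiv.Perm X) (T : ℝ), 0 < T → ∀ (θ1 θ2 : X → ℝ)
  (F : X → ℂ), (∀ x, F (τ x) = F x) →
  (∀ x, F x ≠ 0 → θ1 (τ x) = θ1 x + T ∧ θ2 (τ x) = θ2 x + T) →
  {x | F x ≠ 0 ∧ 0 ≤ θ1 x ∧ θ1 x < T}.Finite → {x | F x ≠ 0 ∧ 0 ≤ θ2 x ∧ θ2 x < T}.Finite →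
  ∑ᶠ x ∈ {x | 0 ≤ θ1 x ∧ θ1 x < T}, F x = ∑ᶠ x ∈ {x | 0 ≤ θ2 x ∧ θ2 x < T}, F x

/-- (H4) Theorem A for the kernel `kerHL` (from `StHSysL`, `StTestL`, `StHRegL`, `StUnfA`, `StHC0`,
`StMd`, `StHper`, `StHpow`).  Take a power of `a` congruent to `1` modulo `m`, it comes from a
solution `a'` for `d m ^ 2` with the same period; the sums of `S'` over `x` in the sector and of `S`
over `w` in the sector are compared with `StUnfA` on `P` -/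
def StHNullL : Prop := ∀ d : ℕ, ¬ IsSquare d → InH d → ∀ (ι : Type) [Fintype ι] (S : HSystem ι),
  S.d = d → ∀ (z1 z2 : ℂ) (k : ℕ), 0 < k → z1 ^ k = 1 → z2 ^ k = 1 → (z1 ≠ 1 ∨ z2 ≠ 1) →
  ∀ (e1 e2 : ℕ × ℕ), Adm e1 e2 → ∀ (K : ℕ), 0 < K → ∀ om : ι → V → V → ℂ, HWt S K om →
  ∀ a : Pell.Solution₁ (S.d : ℤ), PP a → ∀ M : LMean,
    HNullM M S.Q (per a) (kerHL S z1 z2 e1 e2 om)

/-- the twisted sums of two different slots vanish in mean (both signs of the discriminant) -/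
def TwNull (a b c : ℤ) (h t0 : ℕ) (α β : ℝ) : Prop := ∀ (z1 z2 : ℂ) (k : ℕ), 0 < k →
  z1 ^ k = 1 → z2 ^ k = 1 → (z1 ≠ 1 ∨ z2 ≠ 1) → ∀ o1 o2 : Option ℕ, o1 ≠ o2 →
  ∀ M : LMean, M.E (fun N : ℕ => ‖TwP a b c α β h t0 z1 z2 o1 o2 N‖ / N) = 0

/-- (H5) the twisted theorem (from `StHNullL`, `StHFm`, `StHOn`, `StHSys`, `StHWt`; copy of
`HY.TwM68` with the slots of `SP.TwP27`) -/
def StHTwP : Prop := ∀ (a b c : ℤ), 0 < a → ∀ d : ℕ, b ^ 2 - 4 * a * c = d → ¬ IsSquare d →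
  InH d → ∀ (h : ℕ), 0 < h → ∀ (t0 : ℕ) (α β : ℝ), 0 < α → α < β → TwNull a b c h t0 α β

/-- the absolute value of `f n`, where `f n = a n ^ 2 + b n + c` -/
def vl (a b c : ℤ) (n : ℕ) : ℕ := (a * (n : ℤ) ^ 2 + b * n + c).natAbs

/-- the final statement -/
def Short (a b c : ℤ) (h t₀ : ℕ) (α β : ℝ) : Prop := ∃ κ : ℝ, 0 < κ ∧
  Tendsto (fun N : ℕ => (pairCount a b c h t₀ α β (fun _ _ => True) N : ℝ) / N) atTop (𝓝 κ) ∧
  (∀ j l : ℕ, j ≠ l → ∀ r s : ℕ, ∀ ε : ℝ, 0 < ε → LogNull {N : ℕ | ε * N <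
    |(pairCount a b c h t₀ α β (fun t d =>
      ArithmeticFunction.cardFactors (vl a b c (t + j * d)) ≡ r [MOD 2] ∧
      ArithmeticFunction.cardFactors (vl a b c (t + l * d)) ≡ s [MOD 2]) N : ℝ) - κ / 4 * N|}) ∧
  (∀ k : ℕ, 0 < k → ∀ j l : ℕ, j ≠ l → ∀ r s : ℕ, ∀ ε : ℝ, 0 < ε → LogNull {N : ℕ | ε * N <
    |(pairCount a b c h t₀ α β (fun t d =>
      ArithmeticFunction.cardFactors (vl a b c (t + j * d) / d) ≡ r [MOD k] ∧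
      ArithmeticFunction.cardFactors (vl a b c (t + l * d) / d) ≡ s [MOD k]) N : ℝ)
        - κ / k ^ 2 * N|}) ∧
  ∀ k : ℕ, 0 < k → ∀ J : ℕ, 0 < J → ∀ η : ℝ, 0 < η →
    (∀ ε : ℝ, 0 < ε → LogNull {N : ℕ | (1 / (η ^ 2 * J) + ε) * κ * N <
      (pairCount a b c h t₀ α β (fun t d => ∃ r : ℕ, η * J < |(((Finset.range J).filter
        (fun j : ℕ => ArithmeticFunction.cardFactors (vl a b c (t + j * d)) ≡ r [MOD k])).card
          : ℝ) - J / k|) N : ℝ)}) ∧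
    (1 < η ^ 2 * J → ∃ c' : ℝ, 0 < c' ∧ ∀ᶠ N : ℕ in atTop, c' * N ≤
      (pairCount a b c h t₀ α β (fun t d => ∀ r : ℕ, |(((Finset.range J).filter
        (fun j : ℕ => ArithmeticFunction.cardFactors (vl a b c (t + j * d)) ≡ r [MOD k])).card
          : ℝ) - J / k| ≤ η * J) N : ℝ))

/-- (H6) from the twisted sums to the final statement, for any polynomial without integral zeros
(copy of `PairP11`, `SqP11`, `Sgn99`, `EndP27` with `EndH20.count_eq` etc. in place of the lemmas for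
negative discriminant) -/
def StFinA : Prop := ∀ (a b c : ℤ), (∀ t : ℕ, fv a b c t ≠ 0) → ∀ (h : ℕ), 0 < h →
  ∀ (t0 : ℕ) (α β : ℝ), 0 < α → α < β →
  (∃ C : ℝ, ∀ N : ℕ, ((∑ t ∈ (Finset.Icc 1 N).filter (fun t => t ≡ t0 [MOD h]),
    (nearG a b c α β t).card : ℕ) : ℝ) ≤ C * N) →
  (∃ κ : ℝ, 0 < κ ∧ Tendsto (fun N : ℕ => (CST a b c α β h t0 1 0 0 N : ℝ) / N) atTop (𝓝 κ)) →
  TwNull a b c h t0 α β → Short a b c h t0 α β

end Pool.Agent.Lib.MP_a17b09_nt.SPH
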