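import Pool.Agent.Lib.MP_a17b09_nt.SPH.StmtsH99
import Pool.Agent.Lib.MP_a17b09_nt.SP.Reg19
import Pool.Agent.Lib.MP_a17b09_nt.HY.Cnt84
import Pool.Agent.Lib.MP_a17b09_nt.HY.Sys68

/-!
Project SPH (MP_a17b09_nt), module H2: the change of region, positive discriminant.
-/

set_option autoImplicit false

open Filter Topology Finset

namespace Pool.Agent.Lib.MP_a17b09_nt.SPH

open Pool.Agent.Lib.MP_a17b09_nt.CH Pool.Agent.Lib.MP_a17b09_nt.HY Pool.Agent.Lib.MP_a17b09_nt.SP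

namespace Reg99

open HY.S68 (cn_or cn_not hX_neg hY_neg)
open SP.Reg19 (sq_close nr_scale q_lin B_lin wd_lin prim_of_wd defect)

theorem hX_lin (Q : Form) (e : ℕ × ℕ) (w w' : V) :
    hX Q (lin e w w') = e.1 * hX Q w + e.2 * hX Q w' := by
  unfold hX lin
  push_cast
  ring

theorem hY_lin (Q : Form) (e : ℕ × ℕ) (w w' : V) :
    hY Q (lin e w w') = e.1 * hY Q w + e.2 * hY Q w' := by
  unfold hY lin
  push_cast
  ring

theorem cn_lin {Q : Form} {e : ℕ × ℕ} (he : 0 < e.1 + e.2) {w w' : V} (h : Cn Q w)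
    (h' : Cn Q w') : Cn Q (lin e w w') := by
  rw [cn_iff] at h h' ⊢
  rw [hX_lin, hY_lin]
  have h1 : (0 : ℝ) ≤ e.1 := Nat.cast_nonneg _
  have h2 : (0 : ℝ) ≤ e.2 := Nat.cast_nonneg _
  have h3 : (0 : ℝ) < (e.1 : ℝ) + e.2 := by exact_mod_cast he
  have key : ∀ s t : ℝ, 0 < s → 0 < t → 0 < (e.1 : ℝ) * s + e.2 * t := by
    intro s t hs ht
    rcases h1.eq_or_lt with h4 | h4
    · have h5 : (0 : ℝ) < e.2 := by linarith
      have := mul_pos h5 ht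
      rw [← h4]
      linarith
    · have := mul_pos h4 hs
      have := mul_nonneg h2 ht.le
      linarith
  constructor
  · have := key _ _ h.1 h'.1
    linarith
  · have := key _ _ h.2 h'.2
    linarith

/-- `β - 2 x y` is small -/
theorem rho {x y β D δ : ℝ} (hδ : 0 < δ) (hx : δ ≤ x) (hy : δ ≤ y) (hβ : 0 ≤ β) (hD : 0 ≤ D)
    (h : 4 * x ^ 2 * y ^ 2 = β ^ 2 - D) :
    0 ≤ β - 2 * x * y ∧ β - 2 * x * y ≤ D / (2 * δ ^ 2) := by
  have h1 : (β - 2 * x * y) * (2 * x * y + β) = D := by linarith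
  have h0 : δ * δ ≤ x * y := mul_le_mul hx hy hδ.le (by linarith)
  have h2 : 2 * δ ^ 2 ≤ 2 * x * y + β := by nlinarith
  have h3 : 0 < 2 * x * y + β := lt_of_lt_of_le (by positivity) h2
  have h4 : 0 ≤ β - 2 * x * y := by
    by_contra hc
    push Not at hc
    have := mul_neg_of_neg_of_pos hc h3
    linarith
  refine ⟨h4, ?_⟩
  rw [le_div_iff₀ (by positivity)]
  calc (β - 2 * x * y) * (2 * δ ^ 2) ≤ (β - 2 * x * y) * (2 * x * y + β) :=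
        mul_le_mul_of_nonneg_left h2 h4
    _ = D := h1

/-- the length of `p w + r w'` -/
theorem len {p r κ x y β X ρ δ : ℝ} (hp : 0 ≤ p) (hr : 0 ≤ r) (hpr : 1 ≤ p + r) (hpκ : p ≤ κ)
    (hrκ : r ≤ κ) (hδ : 0 < δ) (hx : δ ≤ x) (hy : δ ≤ y) (hX : 0 ≤ X) (hρ : 0 ≤ ρ)
    (hβ : ρ = β - 2 * x * y) (hXX : X ^ 2 = p ^ 2 * x ^ 2 + p * r * β + r ^ 2 * y ^ 2) :
    |X - (p * x + r * y)| ≤ κ ^ 2 * ρ / δ := by
  have hκ : 0 ≤ κ := hp.trans hpκ
  have h1 : |X ^ 2 - (p * x + r * y) ^ 2| ≤ κ ^ 2 * ρ := by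
    have h2 : X ^ 2 - (p * x + r * y) ^ 2 = p * r * ρ := by
      rw [hXX, hβ]
      ring
    rw [h2, abs_of_nonneg (by positivity)]
    apply mul_le_mul_of_nonneg_right _ hρ
    rw [sq]
    exact mul_le_mul hpκ hrκ hr hκ
  refine sq_close hX hδ ?_ h1
  have h3 := mul_le_mul_of_nonneg_left hx hp
  have h4 := mul_le_mul_of_nonneg_left hy hr
  nlinarith

/-- forward -/
theorem fwd {p1 r1 p2 r2 m κ x y β X Y ρ δ : ℝ} (hp1 : 0 ≤ p1) (hr1 : 0 ≤ r1) (hp2 : 0 ≤ p2)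
    (hr2 : 0 ≤ r2) (h1 : 1 ≤ p1 + r1) (h2 : 1 ≤ p2 + r2) (hp1κ : p1 ≤ κ) (hr1κ : r1 ≤ κ)
    (hp2κ : p2 ≤ κ) (hr2κ : r2 ≤ κ) (hm : 1 ≤ m) (hm' : m = p1 * r2 - p2 * r1)
    (hδ : 0 < δ) (hx : δ ≤ x) (hy : δ ≤ y) (hX : 0 ≤ X) (hY : 0 ≤ Y) (hρ : 0 ≤ ρ)
    (hβ : ρ = β - 2 * x * y) (hXX : X ^ 2 = p1 ^ 2 * x ^ 2 + p1 * r1 * β + r1 ^ 2 * y ^ 2)
    (hYY : Y ^ 2 = p2 ^ 2 * x ^ 2 + p2 * r2 * β + r2 ^ 2 * y ^ 2) :
    |x - (r2 * X - r1 * Y) / m| ≤ 2 * κ ^ 3 * ρ / δ ∧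
    |y - (p1 * Y - p2 * X) / m| ≤ 2 * κ ^ 3 * ρ / δ := by
  have hκ : 0 ≤ κ := hp1.trans hp1κ
  have hm0 : 0 < m := by linarith
  have a1 := len hp1 hr1 h1 hp1κ hr1κ hδ hx hy hX hρ hβ hXX
  have a2 := len hp2 hr2 h2 hp2κ hr2κ hδ hx hy hY hρ hβ hYY
  set u := X - (p1 * x + r1 * y) with hu
  set v := Y - (p2 * x + r2 * y) with hv
  have hT : 0 ≤ κ ^ 2 * ρ / δ := by positivity
  have key : ∀ s t : ℝ, 0 ≤ s → s ≤ κ → 0 ≤ t → t ≤ κ → |s * u - t * v| ≤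
      2 * κ ^ 3 * ρ / δ := by
    intro s t hs hs' ht ht'
    have h5 : |s * u - t * v| ≤ s * |u| + t * |v| := by
      calc |s * u - t * v| ≤ |s * u| + |t * v| := abs_sub _ _
        _ = s * |u| + t * |v| := by
            rw [abs_mul, abs_mul, abs_of_nonneg hs, abs_of_nonneg ht]
    have h6 : s * |u| ≤ κ * (κ ^ 2 * ρ / δ) := mul_le_mul hs' a1 (abs_nonneg _) hκ
    have h7 : t * |v| ≤ κ * (κ ^ 2 * ρ / δ) := mul_le_mul ht' a2 (abs_nonneg _) hκ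
    have h8 : κ * (κ ^ 2 * ρ / δ) + κ * (κ ^ 2 * ρ / δ) = 2 * κ ^ 3 * ρ / δ := by ring
    linarith
  have div : ∀ z : ℝ, |z| / m ≤ |z| := by
    intro z
    rw [div_le_iff₀ hm0]
    nlinarith [abs_nonneg z]
  constructor
  · have h5 : x - (r2 * X - r1 * Y) / m = -((r2 * u - r1 * v) / m) := by
      rw [hu, hv, eq_neg_iff_add_eq_zero]
      field_simp
      rw [hm']
      ring
    rw [h5, abs_neg, abs_div, abs_of_pos hm0]
    exact (div _).trans (key _ _ hr2 hr2κ hr1 hr1κ)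
  · have h5 : y - (p1 * Y - p2 * X) / m = (p2 * u - p1 * v) / m := by
      rw [hu, hv, eq_div_iff hm0.ne', sub_mul, div_mul_cancel₀ _ hm0.ne']
      rw [hm']
      ring
    rw [h5, abs_div, abs_of_pos hm0]
    exact (div _).trans (key _ _ hp2 hp2κ hp1 hp1κ)

/-- backward, one coordinate -/
theorem bwd {r1 r2 κ m ξ X ρ δ : ℝ} (hr1 : 0 ≤ r1) (hr2 : 0 ≤ r2) (hr1κ : r1 ≤ κ) (hr2κ : r2 ≤ κ)
    (hm : 1 ≤ m) (hδ : 0 < δ) (hX : δ ≤ X) (hX1 : X ≤ 1) (hρ : 0 ≤ ρ)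
    (h : m ^ 2 * ξ = m ^ 2 * X ^ 2 - r1 * r2 * ρ) (hκ : κ ^ 2 * ρ ≤ δ ^ 2 / 4) :
    |ξ - X ^ 2| ≤ κ ^ 2 * ρ ∧ (δ / 2) ^ 2 ≤ ξ ∧ ξ ≤ 1 := by
  have hm2 : 1 ≤ m ^ 2 := by nlinarith
  have h0 : 0 ≤ r1 * r2 * ρ := by positivity
  have h1 : r1 * r2 * ρ ≤ κ ^ 2 * ρ := by
    apply mul_le_mul_of_nonneg_right _ hρ
    rw [sq]
    exact mul_le_mul hr1κ hr2κ hr2 (hr1.trans hr1κ)
  have h2 : X ^ 2 - ξ = r1 * r2 * ρ / m ^ 2 := by
    rw [eq_div_iff (by positivity)]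
    linarith
  have h3 : r1 * r2 * ρ / m ^ 2 ≤ r1 * r2 * ρ := div_le_self h0 hm2
  have h4 : 0 ≤ r1 * r2 * ρ / m ^ 2 := by positivity
  have h5 : δ ^ 2 ≤ X ^ 2 := by nlinarith
  have h6 : X ^ 2 ≤ 1 := by nlinarith
  refine ⟨?_, ?_, ?_⟩
  · rw [abs_sub_comm, h2, abs_of_nonneg h4]
    linarith
  · nlinarith
  · linarith

/-- backward, all conclusions -/
theorem bwdAll {p1 r1 p2 r2 m κ ξ η β β' X' Y' X Y ρ δ : ℝ} (hp1 : 0 ≤ p1) (hr1 : 0 ≤ r1)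
    (hp2 : 0 ≤ p2) (hr2 : 0 ≤ r2) (hp1κ : p1 ≤ κ) (hr1κ : r1 ≤ κ) (hp2κ : p2 ≤ κ)
    (hr2κ : r2 ≤ κ) (hm : 1 ≤ m) (hm' : m = p1 * r2 - p2 * r1) (hδ : 0 < δ) (g1 : δ ≤ X)
    (g2 : X ≤ 1) (g3 : δ ≤ Y) (g4 : Y ≤ 1)
    (eX : m * X = r2 * X' - r1 * Y') (eY : m * Y = p1 * Y' - p2 * X')
    (hX2 : X' ^ 2 = p1 ^ 2 * ξ + p1 * r1 * β + r1 ^ 2 * η)
    (hY2 : Y' ^ 2 = p2 ^ 2 * ξ + p2 * r2 * β + r2 ^ 2 * η)
    (hβ2 : β' = 2 * p1 * p2 * ξ + (p1 * r2 + p2 * r1) * β + 2 * r1 * r2 * η)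
    (hρ : 0 ≤ ρ) (hρd : ρ = β' - 2 * X' * Y') (hκρ : κ ^ 2 * ρ ≤ δ ^ 2 / 4) :
    0 < β ∧ (|ξ - X ^ 2| ≤ κ ^ 2 * ρ ∧ (δ / 2) ^ 2 ≤ ξ ∧ ξ ≤ 1) ∧
      (|η - Y ^ 2| ≤ κ ^ 2 * ρ ∧ (δ / 2) ^ 2 ≤ η ∧ η ≤ 1) := by
  have hm0 : 0 < m := by linarith
  have i1 : m ^ 2 * ξ = m ^ 2 * X ^ 2 - r1 * r2 * ρ := by
    have h1 : m ^ 2 * X ^ 2 = (r2 * X' - r1 * Y') ^ 2 := by rw [← eX]; ring
    have h2 : (r2 * X' - r1 * Y') ^ 2 - r1 * r2 * ρ =
        r2 ^ 2 * X' ^ 2 - r1 * r2 * β' + r1 ^ 2 * Y' ^ 2 := by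
      rw [hρd]
      ring
    rw [h1, h2, hX2, hY2, hβ2, hm']
    ring
  have i2 : m ^ 2 * η = m ^ 2 * Y ^ 2 - p1 * p2 * ρ := by
    have h1 : m ^ 2 * Y ^ 2 = (p1 * Y' - p2 * X') ^ 2 := by rw [← eY]; ring
    have h2 : (p1 * Y' - p2 * X') ^ 2 - p1 * p2 * ρ =
        p1 ^ 2 * Y' ^ 2 - p1 * p2 * β' + p2 ^ 2 * X' ^ 2 := by
      rw [hρd]
      ring
    rw [h1, h2, hX2, hY2, hβ2, hm']
    ring
  have i3 : m ^ 2 * β = 2 * (m * X) * (m * Y) + (p1 * r2 + p2 * r1) * ρ := by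
    have h2 : 2 * (r2 * X' - r1 * Y') * (p1 * Y' - p2 * X') + (p1 * r2 + p2 * r1) * ρ =
        (p1 * r2 + p2 * r1) * β' - 2 * r2 * p2 * X' ^ 2 - 2 * r1 * p1 * Y' ^ 2 := by
      rw [hρd]
      ring
    rw [eX, eY, h2, hX2, hY2, hβ2, hm']
    ring
  refine ⟨?_, bwd hr1 hr2 hr1κ hr2κ hm hδ g1 g2 hρ i1 hκρ,
    bwd hp1 hp2 hp1κ hp2κ hm hδ g3 g4 hρ i2 hκρ⟩
  have h5 : 0 < X * Y := mul_pos (by linarith) (by linarith)
  have h8 : 0 < m ^ 2 * β := by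
    rw [i3]
    have h9 : 2 * (m * X) * (m * Y) = 2 * (m ^ 2 * (X * Y)) := by ring
    rw [h9]
    have h10 : 0 ≤ (p1 * r2 + p2 * r1) * ρ := by positivity
    have h11 : 0 < m ^ 2 * (X * Y) := by positivity
    linarith
  exact (pos_iff_pos_of_mul_pos h8).1 (by positivity)

theorem nr_sq {Q : Form} {n : ℝ} (hn : 0 < n) {v : V} (h0 : 0 ≤ Q.q v) :
    Q.nr n v ^ 2 = Q.q v / n := by
  have h0 : (0 : ℝ) ≤ Q.q v := by exact_mod_cast h0
  unfold Form.nr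
  rw [Real.sq_sqrt (by positivity)]

/-- the data of a frame -/
theorem core {d : ℕ} {Q : Form} (hQ : Hyp d Q) {e1 e2 : ℕ × ℕ} {m : ℕ} (hm : 0 < m)
    (hdet : m + e2.1 * e1.2 = e1.1 * e2.2) {δ : ℝ} {h : ℝ → ℝ → ℝ} (hδ : 0 < δ) (hT : Test δ h)
    {n : ℝ} (hn : 1 ≤ n) {R : ℝ} (hR : R = d * (m : ℝ) ^ 2 / (2 * δ ^ 2))
    (hnR : 4 * (kp e1 e2 : ℝ) ^ 2 * R ≤ δ ^ 2 * n) {w w' : V} (hw : wd w w' = 1)
    (hv : Cn Q (lin e1 w w')) (hv' : Cn Q (lin e2 w w'))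
    (hne : (Cn Q w ∧ Cn Q w' ∧ h (Q.nr n w) (Q.nr n w') ≠ 0) ∨
      hL e1 e2 m h (Q.nr ((kp e1 e2 : ℝ) ^ 2 * n) (lin e1 w w'))
          (Q.nr ((kp e1 e2 : ℝ) ^ 2 * n) (lin e2 w w')) ≠ 0) :
    Cn Q w ∧ Cn Q w' ∧ ((δ / 2) ^ 2 * n ≤ Q.q w ∧ (Q.q w : ℝ) ≤ n ∧ (Q.q w' : ℝ) ≤ n) ∧
    ∃ X Y : ℝ, hL e1 e2 m h (Q.nr ((kp e1 e2 : ℝ) ^ 2 * n) (lin e1 w w'))
          (Q.nr ((kp e1 e2 : ℝ) ^ 2 * n) (lin e2 w w')) = h X Y ∧
      |Q.nr n w - X| ≤ 2 * (kp e1 e2 : ℝ) ^ 3 * (R / n) / δ ∧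
      |Q.nr n w' - Y| ≤ 2 * (kp e1 e2 : ℝ) ^ 3 * (R / n) / δ := by
  obtain ⟨p1, r1⟩ := e1
  obtain ⟨p2, r2⟩ := e2
  simp only at hdet
  have hn0 : 0 < n := by linarith
  set κ : ℝ := (kp (p1, r1) (p2, r2) : ℝ) with hκ
  have hκ' : κ = p1 + r1 + p2 + r2 := by
    rw [hκ]
    unfold kp
    push_cast
    ring
  have h10 : (0 : ℝ) ≤ p1 := Nat.cast_nonneg _
  have h20 : (0 : ℝ) ≤ r1 := Nat.cast_nonneg _
  have h30 : (0 : ℝ) ≤ p2 := Nat.cast_nonneg _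
  have h40 : (0 : ℝ) ≤ r2 := Nat.cast_nonneg _
  have hs1 : (1 : ℝ) ≤ (p1 : ℝ) + r1 := by
    have h1 : 1 ≤ p1 + r1 := by
      by_contra hc
      have h2 : p1 = 0 := by omega
      rw [h2] at hdet
      omega
    exact_mod_cast h1
  have hs2 : (1 : ℝ) ≤ (p2 : ℝ) + r2 := by
    have h1 : 1 ≤ p2 + r2 := by
      by_contra hc
      have h2 : r2 = 0 := by omega
      rw [h2] at hdet
      omega
    exact_mod_cast h1
  have hκ1 : 1 ≤ κ := by linarith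
  have hm1 : (1 : ℝ) ≤ m := by exact_mod_cast hm
  have hmd : (m : ℝ) = p1 * r2 - p2 * r1 := by
    have h1 : ((m + p2 * r1 : ℕ) : ℝ) = ((p1 * r2 : ℕ) : ℝ) := by rw [hdet]
    push_cast at h1
    linarith
  have hD : (0 : ℝ) < d := by exact_mod_cast hQ.d_pos
  have hR0 : 0 ≤ R := by
    rw [hR]
    positivity
  -- scaled quantities
  set v := lin (p1, r1) w w' with hvd
  set v' := lin (p2, r2) w w' with hvd'
  set ξ : ℝ := Q.q w / n with hξ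
  set η : ℝ := Q.q w' / n with hη
  set X' := Q.nr n v with hX'
  set Y' := Q.nr n v' with hY'
  set β : ℝ := Q.B w w' / n with hβ
  set β' : ℝ := Q.B v v' / n with hβ'
  have hX0 : 0 ≤ X' := C27.nr_nonneg _ _ _
  have hY0 : 0 ≤ Y' := C27.nr_nonneg _ _ _
  have hqv : 0 < Q.q v := hv.q_pos hQ
  have hqv' : 0 < Q.q v' := hv'.q_pos hQ
  have hX2 : X' ^ 2 = p1 ^ 2 * ξ + p1 * r1 * β + r1 ^ 2 * η := by
    rw [hX', nr_sq hn0 hqv.le, hvd, q_lin, hξ, hη, hβ]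
    push_cast
    ring
  have hY2 : Y' ^ 2 = p2 ^ 2 * ξ + p2 * r2 * β + r2 ^ 2 * η := by
    rw [hY', nr_sq hn0 hqv'.le, hvd', q_lin, hξ, hη, hβ]
    push_cast
    ring
  have hβ2 : β' = 2 * p1 * p2 * ξ + (p1 * r2 + p2 * r1) * β + 2 * r1 * r2 * η := by
    rw [hβ', hvd, hvd', B_lin, hξ, hη, hβ]
    push_cast
    ring
  have hdisc : ((Q.D : ℤ) : ℝ) = -(d : ℝ) := by rw [hQ.disc]; push_cast; ring
  have key1 : 4 * ξ * η = β ^ 2 - d / n ^ 2 := by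
    have h1 : ((4 * Q.q w * Q.q w' : ℤ) : ℝ) = ((Q.B w w' ^ 2 + Q.D * wd w w' ^ 2 : ℤ) : ℝ) := by
      rw [Q.key w w']
    rw [hw] at h1
    push_cast at h1
    rw [hdisc] at h1
    rw [hξ, hη, hβ]
    have h2 : 4 * ((Q.q w : ℝ) / n) * (Q.q w' / n) = (4 * Q.q w * Q.q w') / n ^ 2 := by
      rw [sq]
      field_simp
    rw [h2, h1]
    ring
  have key2 : 4 * X' ^ 2 * Y' ^ 2 = β' ^ 2 - d * m ^ 2 / n ^ 2 := by
    have h1 : ((4 * Q.q v * Q.q v' : ℤ) : ℝ) = ((Q.B v v' ^ 2 + Q.D * wd v v' ^ 2 : ℤ) : ℝ) := by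
      rw [Q.key v v']
    have h3 : ((wd v v' : ℤ) : ℝ) = m := by
      rw [hvd, hvd', wd_lin, hw, hmd]
      push_cast
      ring
    push_cast at h1
    rw [h3, hdisc] at h1
    rw [hX', hY', nr_sq hn0 hqv.le, nr_sq hn0 hqv'.le, hβ']
    have h2 : 4 * ((Q.q v : ℝ) / n) * (Q.q v' / n) = (4 * Q.q v * Q.q v') / n ^ 2 := by
      rw [sq]
      field_simp
    rw [h2, h1]
    ring
  have hb' : 0 < β' := by
    rw [hβ']
    have : (0 : ℝ) < Q.B v v' := by exact_mod_cast hv.B_pos hQ hv'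
    positivity
  -- the transformed function
  have hhL : hL (p1, r1) (p2, r2) m h (Q.nr (κ ^ 2 * n) v) (Q.nr (κ ^ 2 * n) v') =
      h ((r2 * X' - r1 * Y') / m) ((p1 * Y' - p2 * X') / m) := by
    have hk : 0 < κ := by linarith
    have e1 := nr_scale Q (n := n) hk v
    have e2 := nr_scale Q (n := n) hk v'
    unfold hL
    rw [← hκ, hX', hY', ← e1, ← e2]
    congr 1
    · congr 1
      simp only
      ring
    · congr 1
      simp only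
      ring
  set X := ((r2 : ℝ) * X' - r1 * Y') / m with hX
  set Y := ((p1 : ℝ) * Y' - p2 * X') / m with hY
  have hRn : 0 ≤ R / n := by positivity
  rw [hhL] at hne ⊢
  rcases hne with ⟨hcw, hcw', hh⟩ | hh
  · -- forward
    obtain ⟨g1, g2, g3, g4⟩ := hT.2 _ _ hh
    have hx2 : Q.nr n w ^ 2 = ξ := nr_sq hn0 (hcw.q_pos hQ).le
    have hy2 : Q.nr n w' ^ 2 = η := nr_sq hn0 (hcw'.q_pos hQ).le
    set x := Q.nr n w with hx
    set y := Q.nr n w' with hy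
    have hx0 : 0 ≤ x := by linarith
    have hy0 : 0 ≤ y := by linarith
    have hb : 0 < β := by
      rw [hβ]
      have : (0 : ℝ) < Q.B w w' := by exact_mod_cast hcw.B_pos hQ hcw'
      positivity
    rw [← hx2, ← hy2] at key1 hX2 hY2
    have hρ := rho hδ g1 g3 hb.le (by positivity) key1
    set ρ := β - 2 * x * y with hρd
    have hρR : ρ ≤ R / n := by
      refine hρ.2.trans ?_
      rw [hR]
      have h1 := defect (D := (d : ℝ)) (k := 1) (m := (m : ℝ)) hD.le zero_le_one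
        (one_le_pow₀ hm1) hδ hn
      rwa [mul_one] at h1
    have hf := fwd (κ := κ) (m := m) (ρ := ρ) h10 h20 h30 h40 hs1 hs2 (by linarith)
      (by linarith) (by linarith) (by linarith) hm1 hmd hδ g1 g3 hX0 hY0 hρ.1 rfl hX2 hY2
    have hle : 2 * κ ^ 3 * ρ / δ ≤ 2 * κ ^ 3 * (R / n) / δ := by gcongr
    have q1 : δ ^ 2 ≤ x ^ 2 := pow_le_pow_left₀ hδ.le g1 2
    have q2 : x ^ 2 ≤ 1 := pow_le_one₀ hx0 g2
    have q3 : y ^ 2 ≤ 1 := pow_le_one₀ hy0 g4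
    refine ⟨hcw, hcw', ⟨?_, ?_, ?_⟩, X, Y, rfl, hf.1.trans hle, hf.2.trans hle⟩
    · rw [hx2, hξ, le_div_iff₀ hn0] at q1
      have : (δ / 2) ^ 2 * n = δ ^ 2 * n / 4 := by ring
      have h5 : 0 ≤ δ ^ 2 * n := by positivity
      linarith
    · rw [hx2, hξ, div_le_iff₀ hn0] at q2
      linarith
    · rw [hy2, hη, div_le_iff₀ hn0] at q3
      linarith
  · -- backward
    obtain ⟨g1, g2, g3, g4⟩ := hT.2 _ _ hh
    have hm0 : (m : ℝ) ≠ 0 := by positivity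
    have eX : (m : ℝ) * X = r2 * X' - r1 * Y' := by
      rw [hX]
      field_simp
    have eY : (m : ℝ) * Y = p1 * Y' - p2 * X' := by
      rw [hY]
      field_simp
    have eX' : X' = p1 * X + r1 * Y := by
      have h1 : (m : ℝ) * X' = m * (p1 * X + r1 * Y) := by
        have : (m : ℝ) * (p1 * X + r1 * Y) = p1 * (m * X) + r1 * (m * Y) := by ring
        rw [this, eX, eY, hmd]
        ring
      exact mul_left_cancel₀ hm0 h1
    have eY' : Y' = p2 * X + r2 * Y := by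
      have h1 : (m : ℝ) * Y' = m * (p2 * X + r2 * Y) := by
        have : (m : ℝ) * (p2 * X + r2 * Y) = p2 * (m * X) + r2 * (m * Y) := by ring
        rw [this, eX, eY, hmd]
        ring
      exact mul_left_cancel₀ hm0 h1
    have hlen : ∀ p r : ℝ, 0 ≤ p → 0 ≤ r → 1 ≤ p + r → δ ≤ p * X + r * Y := by
      intro p r hp hr hpr
      have h3 := mul_le_mul_of_nonneg_left g1 hp
      have h4 := mul_le_mul_of_nonneg_left g3 hr
      have h5 : 1 * δ ≤ (p + r) * δ := mul_le_mul_of_nonneg_right hpr hδ.le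
      linarith
    have hX1 : δ ≤ X' := by
      rw [eX']
      exact hlen _ _ h10 h20 hs1
    have hY1 : δ ≤ Y' := by
      rw [eY']
      exact hlen _ _ h30 h40 hs2
    have hρ := rho hδ hX1 hY1 hb'.le (by positivity) key2
    set ρ := β' - 2 * X' * Y' with hρd
    have hρR : ρ ≤ R / n := by
      refine hρ.2.trans ?_
      rw [hR]
      exact defect hD.le (by positivity) le_rfl hδ hn
    have hκρ : κ ^ 2 * ρ ≤ δ ^ 2 / 4 := by
      have h1 : κ ^ 2 * ρ ≤ κ ^ 2 * (R / n) := mul_le_mul_of_nonneg_left hρR (by positivity)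
      have h2 : κ ^ 2 * (R / n) = κ ^ 2 * R / n := by ring
      rw [h2] at h1
      refine h1.trans ?_
      rw [div_le_iff₀ hn0]
      linarith
    obtain ⟨hb, ⟨k1, k2, k3⟩, l1, l2, l3⟩ := bwdAll (κ := κ) h10 h20 h30 h40 (by linarith)
      (by linarith) (by linarith) (by linarith) hm1 hmd hδ g1 g2 g3 g4 eX eY hX2 hY2
      hβ2 hρ.1 hρd hκρ
    have hδ2 : 0 < (δ / 2) ^ 2 := by positivity
    have hqw : 0 < Q.q w := by
      have h1 : 0 < ξ := hδ2.trans_le k2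
      rw [hξ, div_pos_iff_of_pos_right hn0] at h1
      exact_mod_cast h1
    have hqw' : 0 < Q.q w' := by
      have h1 : 0 < η := hδ2.trans_le l2
      rw [hη, div_pos_iff_of_pos_right hn0] at h1
      exact_mod_cast h1
    have hBw : 0 < Q.B w w' := by
      rw [hβ, div_pos_iff_of_pos_right hn0] at hb
      exact_mod_cast hb
    have hBneg : ∀ u u' : V, Q.B (-u) u' = -Q.B u u' := by
      intro u u'
      unfold Form.B
      simp only [Prod.fst_neg, Prod.snd_neg]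
      ring
    have hBneg' : ∀ u u' : V, Q.B u (-u') = -Q.B u u' := by
      intro u u'
      unfold Form.B
      simp only [Prod.fst_neg, Prod.snd_neg]
      ring
    have hcc : Cn Q w ∧ Cn Q w' := by
      rcases cn_or hQ hqw with c1 | c1 <;> rcases cn_or hQ hqw' with c2 | c2
      · exact ⟨c1, c2⟩
      · exfalso
        have := c1.B_pos hQ c2
        rw [hBneg'] at this
        linarith
      · exfalso
        have := c1.B_pos hQ c2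
        rw [hBneg] at this
        linarith
      · exfalso
        have h1 : 0 < (p1, r1).1 + (p1, r1).2 := by
          have : (0 : ℝ) < (p1 : ℝ) + r1 := by linarith
          exact_mod_cast this
        have h2 := cn_lin h1 c1 c2
        have h3 : lin (p1, r1) (-w) (-w') = -v := by
          rw [hvd]
          unfold lin
          ext
          · simp only [Prod.fst_neg]; ring
          · simp only [Prod.snd_neg]; ring
        rw [h3] at h2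
        exact cn_not hv h2
    have hx2 : Q.nr n w ^ 2 = ξ := nr_sq hn0 hqw.le
    have hy2 : Q.nr n w' ^ 2 = η := nr_sq hn0 hqw'.le
    have hle : κ ^ 2 * ρ / δ ≤ 2 * κ ^ 3 * (R / n) / δ := by
      have h1 : κ ^ 2 * ρ ≤ 2 * κ ^ 3 * (R / n) := by
        have h2 : κ ^ 2 * ρ ≤ κ ^ 2 * (R / n) := mul_le_mul_of_nonneg_left hρR (by positivity)
        have h3 : κ ^ 2 ≤ κ ^ 3 := pow_le_pow_right₀ hκ1 (by norm_num)
        have h4 := mul_le_mul_of_nonneg_right h3 hRn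
        have h5 : 0 ≤ κ ^ 3 * (R / n) := by positivity
        linarith
      exact div_le_div_of_nonneg_right h1 hδ.le
    refine ⟨hcc.1, hcc.2, ⟨?_, ?_, ?_⟩, X, Y, rfl, ?_, ?_⟩
    · rw [hξ, le_div_iff₀ hn0] at k2
      exact k2
    · rw [hξ, div_le_iff₀ hn0] at k3
      linarith
    · rw [hη, div_le_iff₀ hn0] at l3
      linarith
    · refine (sq_close (C27.nr_nonneg _ _ _) hδ g1 ?_).trans hle
      rw [hx2]
      exact k1
    · refine (sq_close (C27.nr_nonneg _ _ _) hδ g3 ?_).trans hle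
      rw [hy2]
      exact l1

end Reg99

open Reg99 in
/-- (H2) the change of region -/
theorem stHRegL_99 : StHRegL := by
  classical
  intro d Q hQ e1 e2 m hm hdet T hTpos δ h hδ hT
  have he1 : 0 < e1.1 + e1.2 := by
    by_contra hc
    have h2 : e1.1 = 0 := by omega
    rw [h2] at hdet
    omega
  have he2 : 0 < e2.1 + e2.2 := by
    by_contra hc
    have h2 : e2.2 = 0 := by omega
    rw [h2] at hdet
    omega
  refine ⟨fun w w' hw hw' => ⟨cn_lin he1 hw hw', cn_lin he2 hw hw'⟩, ?_⟩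
  obtain ⟨C, hC, hLip, -⟩ := C27.test_bd hδ hT
  obtain ⟨C0, hC0, hcnt1, -, hcnt3⟩ := stHcnt_84 d Q hQ T hTpos (δ / 2) (by positivity)
  have hD : (0 : ℝ) < d := by exact_mod_cast hQ.d_pos
  set R : ℝ := d * (m : ℝ) ^ 2 / (2 * δ ^ 2) with hR
  have hR0 : 0 ≤ R := by positivity
  set κ : ℝ := (kp e1 e2 : ℝ) with hκ
  have hκ0 : 0 ≤ κ := Nat.cast_nonneg _
  refine ⟨C0 * C0 * (C * (4 * κ ^ 3 * R / δ)),
    max 1 ⌈4 * κ ^ 2 * R / δ ^ 2⌉₊, fun n hn => ?_⟩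
  have hn1 : (1 : ℝ) ≤ n := by exact_mod_cast (le_max_left _ _).trans hn
  have hn0 : (0 : ℝ) < n := by linarith
  have hnR : 4 * κ ^ 2 * R ≤ δ ^ 2 * n := by
    have h1 : ⌈4 * κ ^ 2 * R / δ ^ 2⌉₊ ≤ n := (le_max_right _ _).trans hn
    have h2 : 4 * κ ^ 2 * R / δ ^ 2 ≤ n := (Nat.le_ceil _).trans (by exact_mod_cast h1)
    rw [div_le_iff₀ (by positivity)] at h2
    linarith
  -- the frames which count
  set G : Set (V × V) := {f | wd f.1 f.2 = 1 ∧ Sec Q T f.1 ∧ Cn Q f.2 ∧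
    (δ / 2) ^ 2 * n ≤ Q.q f.1 ∧ (Q.q f.1 : ℝ) ≤ n ∧ (Q.q f.2 : ℝ) ≤ n} with hG
  set W : Set V := {v : V | Sec Q T v ∧ (Q.q v : ℝ) ≤ n} with hW
  have hWf : W.Finite := (hcnt1 n hn1).1
  have hWc : (W.ncard : ℝ) ≤ C0 * n := (hcnt1 n hn1).2
  have hline : ∀ v : V, Prim v → Cn Q v → (δ / 2) ^ 2 * n ≤ (Q.q v : ℝ) →
      {v' : V | Cn Q v' ∧ (Q.q v' : ℝ) ≤ n ∧ wd v v' = 1}.Finite ∧
      ({v' : V | Cn Q v' ∧ (Q.q v' : ℝ) ≤ n ∧ wd v v' = 1}.ncard : ℝ) ≤ C0 :=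
    fun v h1 h2 h3 => hcnt3 n v 1 hn0 h1 h2 h3
  have hGf : G.Finite := by
    set Z : Set V := {v | v ∈ W ∧ Prim v ∧ (δ / 2) ^ 2 * n ≤ (Q.q v : ℝ)} with hZ
    have hZf : Z.Finite := hWf.subset fun v hv => hv.1
    have h1 : (⋃ v ∈ Z, (fun v' => ((v, v') : V × V)) ''
        {v' : V | Cn Q v' ∧ (Q.q v' : ℝ) ≤ n ∧ wd v v' = 1}).Finite := by
      refine hZf.biUnion fun v hv => Set.Finite.image _ ?_
      exact (hline v hv.2.1 hv.1.1.1 hv.2.2).1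
    refine h1.subset ?_
    rintro ⟨v, v'⟩ ⟨a1, a2, a3, a4, a5, a6⟩
    rw [Set.mem_iUnion₂]
    exact ⟨v, ⟨⟨a2, a5⟩, SP.Reg19.prim_of_wd a1, a4⟩, v', ⟨a3, a6, a1⟩, rfl⟩
  have hGc : ∀ F : Finset (V × V), (∀ f ∈ F, f ∈ G) → (F.card : ℝ) ≤ C0 * n * C0 := by
    intro F hF
    have h1 : F.card = ∑ v ∈ F.image Prod.fst, (F.filter (fun f => f.1 = v)).card :=
      Finset.card_eq_sum_card_image _ _
    have h2 : ((F.image Prod.fst).card : ℝ) ≤ C0 * n := by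
      refine le_trans ?_ hWc
      have h3 : ((F.image Prod.fst : Finset V) : Set V) ⊆ W := by
        intro v hv
        rw [Finset.mem_coe, Finset.mem_image] at hv
        obtain ⟨f, hf, rfl⟩ := hv
        have := hF f hf
        exact ⟨this.2.1, this.2.2.2.2.1⟩
      have h4 := Set.ncard_le_ncard h3 hWf
      rw [Set.ncard_coe_finset] at h4
      exact_mod_cast h4
    rw [h1]
    push_cast
    calc ∑ v ∈ F.image Prod.fst, ((F.filter (fun f => f.1 = v)).card : ℝ) ≤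
          ∑ v ∈ F.image Prod.fst, C0 := by
          refine Finset.sum_le_sum fun v hv => ?_
          obtain ⟨g, hg, rfl⟩ := Finset.mem_image.1 hv
          have hg' := hF g hg
          obtain ⟨l1, l2⟩ := hline g.1 (SP.Reg19.prim_of_wd hg'.1) hg'.2.1.1 hg'.2.2.2.1
          refine le_trans ?_ l2
          have h5 : Set.InjOn Prod.snd ((F.filter fun f => f.1 = g.1 : Finset (V × V)) :
              Set (V × V)) := by
            intro f hf f' hf' hff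
            rw [Finset.mem_coe, Finset.mem_filter] at hf hf'
            exact Prod.ext (hf.2.trans hf'.2.symm) hff
          rw [← Finset.card_image_of_injOn h5, ← Set.ncard_coe_finset]
          have h6 : (((F.filter fun f => f.1 = g.1).image Prod.snd : Finset V) : Set V) ⊆
              {v' : V | Cn Q v' ∧ (Q.q v' : ℝ) ≤ n ∧ wd g.1 v' = 1} := by
            intro u hu
            rw [Finset.mem_coe, Finset.mem_image] at hu
            obtain ⟨f, hf, rfl⟩ := hu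
            rw [Finset.mem_filter] at hf
            have hf' := hF f hf.1
            refine ⟨hf'.2.2.1, hf'.2.2.2.2.2, ?_⟩
            rw [← hf.2]
            exact hf'.1
          exact_mod_cast Set.ncard_le_ncard h6 l1
      _ = (F.image Prod.fst).card * C0 := by rw [Finset.sum_const, nsmul_eq_mul]
      _ ≤ C0 * n * C0 := mul_le_mul_of_nonneg_right h2 hC0.le
  refine ⟨?_, ?_, ?_⟩
  · intro w w' hw hv hv' hne
    obtain ⟨h1, h2, -⟩ := core hQ hm hdet hδ hT hn1 hR hnR hw hv hv' (Or.inr hne)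
    exact ⟨h1, h2⟩
  · refine hGf.subset ?_
    rintro ⟨w, w'⟩ ⟨a1, a2, a3, a4⟩
    obtain ⟨-, -, ⟨b1, b2, b3⟩, -⟩ := core hQ hm hdet hδ hT hn1 hR hnR a1
      (cn_lin he1 a2.1 a3) (cn_lin he2 a2.1 a3) (by
        rcases a4 with a4 | a4
        · exact Or.inl ⟨a2.1, a3, a4⟩
        · exact Or.inr a4)
    exact ⟨a1, a2, a3, b1, b2, b3⟩
  · intro F hF
    set φ : V × V → ℝ := fun f => h (Q.nr n f.1) (Q.nr n f.2) -
        hL e1 e2 m h (Q.nr (κ ^ 2 * n) (lin e1 f.1 f.2))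
          (Q.nr (κ ^ 2 * n) (lin e2 f.1 f.2)) with hφ
    have hterm : ∀ f ∈ F, φ f ≠ 0 → f ∈ G ∧ |φ f| ≤ C * (4 * κ ^ 3 * R / (δ * n)) := by
      intro f hf hne
      obtain ⟨a1, a2, a3⟩ := hF f hf
      have hor : h (Q.nr n f.1) (Q.nr n f.2) ≠ 0 ∨
          hL e1 e2 m h (Q.nr (κ ^ 2 * n) (lin e1 f.1 f.2))
            (Q.nr (κ ^ 2 * n) (lin e2 f.1 f.2)) ≠ 0 := by
        by_contra hcon
        push Not at hcon
        apply hne
        simp only [hφ]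
        rw [hcon.1, hcon.2, sub_zero]
      obtain ⟨-, -, ⟨b1, b2, b3⟩, X, Y, c1, c2, c3⟩ := core hQ hm hdet hδ hT hn1 hR hnR a1
        (cn_lin he1 a2.1 a3) (cn_lin he2 a2.1 a3) (by
          rcases hor with a4 | a4
          · exact Or.inl ⟨a2.1, a3, a4⟩
          · exact Or.inr a4)
      refine ⟨⟨a1, a2, a3, b1, b2, b3⟩, ?_⟩
      simp only [hφ]
      rw [c1]
      refine (hLip _ _ _ _).trans (mul_le_mul_of_nonneg_left ?_ hC)
      refine (add_le_add c2 c3).trans (le_of_eq ?_)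
      field_simp
      ring
    have hsum : ∑ f ∈ F, |φ f| = ∑ f ∈ F.filter (fun f => φ f ≠ 0), |φ f| := by
      rw [Finset.sum_filter]
      refine Finset.sum_congr rfl fun f _ => ?_
      split_ifs with h1
      · rfl
      · push Not at h1
        rw [h1, abs_zero]
    show ∑ f ∈ F, |φ f| ≤ _
    rw [hsum]
    calc ∑ f ∈ F.filter (fun f => φ f ≠ 0), |φ f| ≤
          ∑ f ∈ F.filter (fun f => φ f ≠ 0), C * (4 * κ ^ 3 * R / (δ * n)) :=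
          Finset.sum_le_sum fun f hf => by
            rw [Finset.mem_filter] at hf
            exact (hterm f hf.1 hf.2).2
      _ = (F.filter (fun f => φ f ≠ 0)).card * (C * (4 * κ ^ 3 * R / (δ * n))) := by
          rw [Finset.sum_const, nsmul_eq_mul]
      _ ≤ C0 * n * C0 * (C * (4 * κ ^ 3 * R / (δ * n))) :=
          mul_le_mul_of_nonneg_right (hGc _ fun f hf => by
            rw [Finset.mem_filter] at hf
            exact (hterm f hf.1 hf.2).1) (by positivity)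
      _ = C0 * C0 * (C * (4 * κ ^ 3 * R / δ)) := by
          field_simp

end Pool.Agent.Lib.MP_a17b09_nt.SPH
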