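import Pool.Agent.Lib.MP_a17b09_nt.SPH.StmtsH99
import Pool.Agent.Lib.MP_a17b09_nt.SP.Sys99
import Pool.Agent.Lib.MP_a17b09_nt.HY.Sys68

/-!
Project SPH (MP_a17b09_nt), module H1: the system of index `m`.
-/

set_option autoImplicit false

open Filter Topology Finset

namespace Pool.Agent.Lib.MP_a17b09_nt.SPH

open Pool.Agent.Lib.MP_a17b09_nt.CH Pool.Agent.Lib.MP_a17b09_nt.HY Pool.Agent.Lib.MP_a17b09_nt.SP
open Pool.Agent.Lib.MP_a17b09_nt.CHI (exists_reducedI a_ne c_ne)

namespace S99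

open CH.PE (cl az az_adj adj_az cl_app)
open CH.Sys86 (mul tr tr_q tr_D app_mul det_mul smul_cancel app_inj)
open SP.S99 (tr_B wd_app act_mem lin_eq)
open HY.S68 (cn_e1 cn_or cn_not hX_neg hY_neg)

/-! ### Cone, two discriminants -/

theorem cone_iff2 {d d' : ℕ} {Q Q' : Form} (hQ : Hyp d Q) (hQ' : Hyp d' Q') {M : Mat} {n : ℤ}
    (hn : 0 < n) (hsim : ∀ u, Q.q (M.app u) = n * Q'.q u) (h : Cn Q (M.app (1, 0))) (u : V) :
    Cn Q (M.app u) ↔ Cn Q' u := by
  have hpol : ∀ u u' : V, Q.B (M.app u) (M.app u') = n * Q'.B u u' := by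
    intro u u'
    have h1 := hsim (u + u')
    have h2 : M.app (u + u') = M.app u + M.app u' := by
      unfold Mat.app; ext <;> simp <;> ring
    rw [h2, Form.q_add, Form.q_add, hsim, hsim] at h1
    linarith
  constructor
  · intro hu
    have h1 : 0 < Q'.q u := by
      have := hu.q_pos hQ
      rw [hsim] at this
      exact (mul_pos_iff_of_pos_left hn).1 this
    have h2 : 0 < Q'.B (1, 0) u := by
      have := h.B_pos hQ hu
      rw [hpol] at this
      exact (mul_pos_iff_of_pos_left hn).1 this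
    exact (cn_e1 hQ').of_pos hQ' h1 h2
  · intro hu
    have h1 : 0 < Q.q (M.app u) := by
      rw [hsim]
      exact mul_pos hn (hu.q_pos hQ')
    have h2 : 0 < Q.B (M.app (1, 0)) (M.app u) := by
      rw [hpol]
      exact mul_pos hn ((cn_e1 hQ').B_pos hQ' hu)
    exact h.of_pos hQ h1 h2

/-- reduction of a form of positive nonsquare discriminant -/
theorem exists_red {d : ℕ} (hns : ¬ IsSquare d) {Q : Form} (hQ : Q.D = -(d : ℤ)) :
    ∃ g : Mat, g.det = 1 ∧ Hyp d (tr Q g) := by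
  obtain ⟨Q', ⟨g, hg, hE⟩, hb, hc⟩ := exists_reducedI hns _ Q hQ rfl
  have htr : ∀ (R : Form) (A : Mat), R.comp A = tr R A := by
    intro R A
    apply Form.ext_q
    intro v
    rw [Form.comp_q, tr_q]
  have hD : Q'.D = -(d : ℤ) := by rw [hE, htr, tr_D, hg, hQ]; ring
  have ha := a_ne hns hD
  have hcc := c_ne hns hD
  have hac : Q'.a * Q'.c < 0 := by
    by_contra hcon
    push Not at hcon
    have h1 : 4 * Q'.a * Q'.c - Q'.b ^ 2 = -(d : ℤ) := hD
    have h2 : Q'.b ^ 2 ≤ |Q'.a| ^ 2 := by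
      rw [← sq_abs Q'.b]; exact pow_le_pow_left₀ (abs_nonneg _) hb 2
    have h3 : |Q'.a| * |Q'.c| = Q'.a * Q'.c := by rw [← abs_mul, abs_of_nonneg hcon]
    have h4 : 0 < |Q'.a| := abs_pos.2 ha
    have h5 : |Q'.a| ^ 2 ≤ |Q'.a| * |Q'.c| := by nlinarith
    have h6 : (0 : ℤ) ≤ d := Int.natCast_nonneg d
    nlinarith
  have hE' : Q' = tr Q g := by rw [hE, htr]
  rcases lt_or_gt_of_ne ha with h1 | h1
  · have h2 : 0 < Q'.c := by
      by_contra hcon
      push Not at hcon
      nlinarith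
    refine ⟨mul g ⟨0, -1, 1, 0⟩, ?_, ?_⟩
    · rw [det_mul, hg]; simp [Mat.det]
    · have e : tr Q (mul g ⟨0, -1, 1, 0⟩) = tr Q' ⟨0, -1, 1, 0⟩ := by
        rw [hE']; exact CH.Sys86.tr_mul _ _ _
      rw [e]
      refine ⟨?_, ?_, ?_, hns⟩
      · simpa [tr, Form.q] using h2
      · simpa [tr, Form.q] using h1
      · rw [tr_D, hD]; simp [Mat.det]
  · have h2 : Q'.c < 0 := by
      by_contra hcon
      push Not at hcon
      nlinarith
    exact ⟨g, hg, by rw [← hE']; exact ⟨h1, h2, hD, hns⟩⟩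

/-! ### Cyclic subgroups -/

/-- the cyclic subgroup of a vector -/
def cyc (m : ℕ) (v : V) : Set (ZMod m × ZMod m) := {y | ∃ l : ZMod m, y = l • cl m v}

/-- the cyclic subgroups of primitive vectors -/
def Lm (m : ℕ) : Type := {L : Set (ZMod m × ZMod m) // ∃ v : V, Prim v ∧ L = cyc m v}

noncomputable instance (m : ℕ) [NeZero m] : Fintype (Lm m) := by
  classical
  unfold Lm
  infer_instance

theorem mem_cyc {m : ℕ} (v : V) : cl m v ∈ cyc m v := ⟨1, by rw [one_smul]⟩

theorem cyc_congr {m : ℕ} {v u : V} (h : cl m u = cl m v) : cyc m u = cyc m v := by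
  unfold cyc
  rw [h]

/-- a primitive vector of the subgroup generates it -/
theorem cyc_eq {m : ℕ} {v u : V} (hu : Prim u) (h : cl m u ∈ cyc m v) : cyc m u = cyc m v := by
  obtain ⟨l, hl⟩ := h
  obtain ⟨w, hw⟩ := exists_partner90 hu
  have hw' : u.1 * w.2 - u.2 * w.1 = 1 := hw
  -- `l` is a unit
  have h1 : l * ((v.1 : ZMod m) * (w.2 : ZMod m) - (v.2 : ZMod m) * (w.1 : ZMod m)) = 1 := by
    have e1 := congrArg Prod.fst hl
    have e2 := congrArg Prod.snd hl
    unfold cl at e1 e2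
    simp only [Prod.smul_fst, Prod.smul_snd, smul_eq_mul] at e1 e2
    have e3 : (((u.1 * w.2 - u.2 * w.1 : ℤ)) : ZMod m) = 1 := by rw [hw']; simp
    push_cast at e3
    rw [e1, e2] at e3
    linear_combination e3
  ext y
  constructor
  · rintro ⟨k, hk⟩
    exact ⟨k * l, by rw [hk, hl, smul_smul]⟩
  · rintro ⟨k, hk⟩
    refine ⟨k * ((v.1 : ZMod m) * (w.2 : ZMod m) - (v.2 : ZMod m) * (w.1 : ZMod m)), ?_⟩
    rw [hk, hl, smul_smul]
    congr 1
    linear_combination (-k) * h1

/-- linearity -/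
theorem az_smul {m : ℕ} (A : Mat) (l : ZMod m) (y : ZMod m × ZMod m) :
    az A (l • y) = l • az A y := by
  unfold az
  ext
  · simp only [Prod.smul_fst, Prod.smul_snd, smul_eq_mul]; ring
  · simp only [Prod.smul_fst, Prod.smul_snd, smul_eq_mul]; ring

theorem az_cyc {m : ℕ} (A : Mat) (v : V) : az A '' cyc m v = cyc m (A.app v) := by
  ext y
  constructor
  · rintro ⟨z, ⟨l, rfl⟩, rfl⟩
    exact ⟨l, by rw [az_smul, cl_app]⟩
  · rintro ⟨l, rfl⟩
    exact ⟨l • cl m v, ⟨l, rfl⟩, by rw [az_smul, cl_app]⟩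

theorem az_mem {m p : ℕ} (hp : p.Prime) (hpm : ((p : ℤ) : ZMod m) = 1) {A : Mat}
    (hA : A.det = p) {L : Set (ZMod m × ZMod m)} (hL : ∃ v : V, Prim v ∧ L = cyc m v) :
    ∃ v : V, Prim v ∧ az A '' L = cyc m v := by
  obtain ⟨v, hv, rfl⟩ := hL
  obtain ⟨u, hu, hu2⟩ := act_mem hp hpm hA hv
  exact ⟨u, hu, by rw [az_cyc, cyc_congr hu2]⟩

/-! ### The matrices of the lattices -/

/-- a matrix of determinant `m` whose image is the lattice of the subgroup -/
def IsG {m : ℕ} (L : Lm m) (G : Mat) : Prop :=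
  G.det = m ∧ ∀ y : V, cl m y ∈ L.1 ↔ ∃ x : V, G.app x = y

theorem exists_g0 {m : ℕ} (hm : 0 < m) (L : Lm m) : ∃ G : Mat, IsG L G := by
  obtain ⟨v, hv, hL⟩ := L.2
  obtain ⟨u, hu⟩ := exists_partner90 hv
  have hu' : v.1 * u.2 - v.2 * u.1 = 1 := hu
  have hm0 : (m : ℤ) ≠ 0 := by exact_mod_cast hm.ne'
  have : NeZero m := ⟨hm.ne'⟩
  refine ⟨⟨v.1, m * u.1, v.2, m * u.2⟩, ?_, fun y => ?_⟩
  · unfold Mat.det
    simp only
    linear_combination (m : ℤ) * hu'
  · rw [hL]
    constructor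
    · rintro ⟨l, hl⟩
      have e1 := congrArg Prod.fst hl
      have e2 := congrArg Prod.snd hl
      unfold cl at e1 e2
      simp only [Prod.smul_fst, Prod.smul_snd, smul_eq_mul] at e1 e2
      have hl' : (((l.val : ℤ)) : ZMod m) = l := by simp
      rw [← hl'] at e1 e2
      have h3 : (m : ℤ) ∣ y.1 - l.val * v.1 := by
        rw [← ZMod.intCast_zmod_eq_zero_iff_dvd]
        push_cast
        push_cast at e1
        exact sub_eq_zero.2 e1
      have h4 : (m : ℤ) ∣ y.2 - l.val * v.2 := by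
        rw [← ZMod.intCast_zmod_eq_zero_iff_dvd]
        push_cast
        push_cast at e2
        exact sub_eq_zero.2 e2
      obtain ⟨a, ha⟩ := h3
      obtain ⟨b, hb⟩ := h4
      refine ⟨(l.val + m * (a * u.2 - b * u.1), v.1 * b - v.2 * a), ?_⟩
      unfold Mat.app
      ext
      · simp only
        have ha' : y.1 = l.val * v.1 + m * a := by linarith
        rw [ha']
        linear_combination (m : ℤ) * a * hu'
      · simp only
        have hb' : y.2 = l.val * v.2 + m * b := by linarith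
        rw [hb']
        linear_combination (m : ℤ) * b * hu'
    · rintro ⟨x, rfl⟩
      refine ⟨(x.1 : ZMod m), ?_⟩
      unfold cl Mat.app
      ext
      · simp only [Prod.smul_fst, smul_eq_mul]
        push_cast
        simp
        ring
      · simp only [Prod.smul_snd, smul_eq_mul]
        push_cast
        simp
        ring

theorem isG_mul {m : ℕ} {L : Lm m} {G g : Mat} (h : IsG L G) (hg : g.det = 1) :
    IsG L (mul G g) := by
  refine ⟨by rw [det_mul, h.1, hg, mul_one], fun y => ?_⟩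
  rw [h.2]
  constructor
  · rintro ⟨x, rfl⟩
    refine ⟨(CH.Sys86.adj g).app x, ?_⟩
    rw [app_mul, CH.Sys86.app_adj, hg, one_smul]
  · rintro ⟨x, rfl⟩
    exact ⟨g.app x, by rw [app_mul]⟩

/-- the matrices of the system -/
theorem exists_g {d m : ℕ} (hm : 0 < m) (L : Lm m) {Q : Form} (hQ : Hyp d Q) :
    ∃ G : Mat, IsG L G ∧ Hyp (d * m ^ 2) (tr Q G) ∧ Cn Q (G.app (1, 0)) := by
  obtain ⟨G, hG⟩ := exists_g0 hm L
  have hns : ¬ IsSquare (d * m ^ 2) := by
    rintro ⟨y, hy⟩
    have h1 : m ^ 2 ∣ y ^ 2 := ⟨d, by rw [sq, ← hy]; ring⟩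
    obtain ⟨z, rfl⟩ := (Nat.pow_dvd_pow_iff two_ne_zero).1 h1
    apply hQ.nsq
    refine ⟨z, ?_⟩
    have h2 : m ^ 2 * d = m ^ 2 * (z * z) := by
      calc m ^ 2 * d = d * m ^ 2 := by ring
        _ = m * z * (m * z) := hy
        _ = m ^ 2 * (z * z) := by ring
    exact Nat.eq_of_mul_eq_mul_left (by positivity) h2
  have hD : (tr Q G).D = -((d * m ^ 2 : ℕ) : ℤ) := by
    rw [tr_D, hG.1, hQ.disc]
    push_cast
    ring
  obtain ⟨g, hg, hR⟩ := exists_red hns hD
  rw [← CH.Sys86.tr_mul] at hR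
  have hG2 := isG_mul hG hg
  have h1 : 0 < Q.q ((mul G g).app (1, 0)) := by
    rw [← tr_q]
    have := hR.apos
    simpa [Form.q] using this
  rcases cn_or hQ h1 with h2 | h2
  · exact ⟨_, hG2, hR, h2⟩
  · refine ⟨mul (mul G g) ⟨-1, 0, 0, -1⟩, isG_mul hG2 (by simp [Mat.det]), ?_, ?_⟩
    · have e : tr Q (mul (mul G g) ⟨-1, 0, 0, -1⟩) = tr Q (mul G g) := by
        rw [CH.Sys86.tr_mul]
        apply Form.ext_q
        intro v
        rw [tr_q]
        unfold Mat.app Form.q
        simp only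
        ring
      rw [e]
      exact hR
    · have e : (mul (mul G g) ⟨-1, 0, 0, -1⟩).app (1, 0) = -(mul G g).app (1, 0) := by
        rw [app_mul]
        unfold Mat.app
        ext <;> simp
      rw [e]
      exact h2

/-- good primes -/
def Good {ι : Type} (S : HSystem ι) (m p : ℕ) : Prop :=
  p.Prime ∧ p ≡ 1 [MOD 4 * S.d] ∧ p ≡ 1 [MOD m]

theorem good_cast {ι : Type} {S : HSystem ι} {m p : ℕ} (h : Good S m p) :
    ((p : ℤ) : ZMod m) = 1 := by
  have := (ZMod.natCast_eq_natCast_iff p 1 m).2 h.2.2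
  push_cast at this ⊢
  exact this

/-- the permutation -/
theorem exists_perm {ι : Type} (S : HSystem ι) (m : ℕ) (p : ℕ) :
    ∃ e : Equiv.Perm (ι × Lm m), Good S m p → ∀ x : ι × Lm m, (e x).1 = S.s p x.1 ∧
      (e x).2.1 = az (CH.PE.adj (S.M p x.1)) '' x.2.1 := by
  classical
  by_cases hg : Good S m p
  · have hc := good_cast hg
    have hdet := S.det p hg.1 hg.2.1
    have hd1 : ∀ i, (((S.M p i).det : ℤ) : ZMod m) = 1 := fun i => by rw [hdet i]; exact hc
    refine ⟨⟨fun x => (S.s p x.1, ⟨az (CH.PE.adj (S.M p x.1)) '' x.2.1,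
        az_mem hg.1 hc (by rw [← hdet x.1]; unfold CH.PE.adj Mat.det; ring) x.2.2⟩),
      fun x => ((S.s p).symm x.1, ⟨az (S.M p ((S.s p).symm x.1)) '' x.2.1,
        az_mem hg.1 hc (hdet _) x.2.2⟩), ?_, ?_⟩, fun _ x => ⟨rfl, rfl⟩⟩
    · rintro ⟨i, L⟩
      simp only [Equiv.symm_apply_apply]
      refine Prod.ext rfl (Subtype.ext ?_)
      simp only
      rw [← Set.image_comp]
      have : (az (S.M p i) ∘ az (CH.PE.adj (S.M p i)) : ZMod m × ZMod m → _) = id := by
        funext y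
        exact az_adj _ (hd1 i) y
      rw [this, Set.image_id]
    · rintro ⟨i, L⟩
      simp only [Equiv.apply_symm_apply]
      refine Prod.ext rfl (Subtype.ext ?_)
      simp only
      rw [← Set.image_comp]
      have : (az (CH.PE.adj (S.M p ((S.s p).symm i))) ∘ az (S.M p ((S.s p).symm i)) :
          ZMod m × ZMod m → _) = id := by
        funext y
        exact adj_az _ (hd1 _) y
      rw [this, Set.image_id]
  · exact ⟨1, fun h => absurd h hg⟩

/-- the matrices of the similitudes -/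
theorem exists_mat {m p : ℕ} (hm : 0 < m) (hpm : ((p : ℤ) : ZMod m) = 1) {M : Mat}
    (hM : M.det = p) {L L' : Lm m} (hL : L'.1 = az (CH.PE.adj M) '' L.1) {G G' : Mat}
    (hG : IsG L G) (hG' : IsG L' G') :
    ∃ A : Mat, A.det = p ∧ ∀ u, G.app (A.app u) = M.app (G'.app u) := by
  have hm0 : (m : ℤ) ≠ 0 := by exact_mod_cast hm.ne'
  have hd1 : ((M.det : ℤ) : ZMod m) = 1 := by rw [hM]; exact hpm
  obtain ⟨A, hA⟩ := CH.Sys86.lift (M := G) (N := mul M G') (by
    intro u
    rw [app_mul]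
    apply (hG.2 _).1
    rw [cl_app]
    have h1 : cl m (G'.app u) ∈ L'.1 := (hG'.2 _).2 ⟨u, rfl⟩
    rw [hL] at h1
    obtain ⟨y, hy, hy2⟩ := h1
    rw [← hy2, az_adj _ hd1]
    exact hy)
  refine ⟨A, ?_, fun u => ?_⟩
  · have h1 : (mul M G').det = (mul G A).det := by rw [hA]
    rw [det_mul, det_mul, hM, hG.1, hG'.1] at h1
    apply mul_left_cancel₀ hm0
    linarith
  · rw [← app_mul, ← app_mul, hA]

/-- the automorphs of the form of a lattice -/
theorem au_comm (Q : Form) (G : Mat) (x y : ℤ) (v : V) :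
    G.app ((au (tr Q G) x y).app v) = (au Q x (G.det * y)).app (G.app v) := by
  unfold au tr Mat.app Mat.det Form.q Form.B
  ext
  · simp only
    ring
  · simp only
    ring

/-- the automorphs modulo `m` -/
theorem cl_act {m : ℕ} (Q : Form) (x y : ℤ) (h : (((x : ℤ) : ZMod m)) ^ 2 = 1) (v w : V) :
    cl m ((au Q x (m * y)).app v) = cl m ((au Q x (m * y)).app w) ↔ cl m v = cl m w := by
  have e : ∀ u : V, cl m ((au Q x (m * y)).app u) = ((x : ℤ) : ZMod m) • cl m u := by
    intro u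
    unfold cl au Mat.app
    ext
    · simp only [Prod.smul_fst, smul_eq_mul]
      push_cast
      simp
    · simp only [Prod.smul_snd, smul_eq_mul]
      push_cast
      simp
  rw [e, e]
  constructor
  · intro h1
    have h2 := congrArg (fun z => ((x : ℤ) : ZMod m) • z) h1
    simp only [smul_smul] at h2
    rw [← sq, h, one_smul, one_smul] at h2
    exact h2
  · intro h1
    rw [h1]

theorem az_inj {m : ℕ} {A : Mat} (h : ((A.det : ℤ) : ZMod m) = 1) {y z : ZMod m × ZMod m} :
    az A y = az A z ↔ y = z := by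
  constructor
  · intro h1
    rw [← adj_az A h y, h1, adj_az A h z]
  · intro h1
    rw [h1]

theorem cl_sub_iff {m : ℕ} (v w : V) : cl m v = cl m w ↔ ∃ δ : V, (m : ℤ) • δ = v - w := by
  unfold cl
  rw [Prod.mk.injEq]
  constructor
  · rintro ⟨h1, h2⟩
    have h3 : (m : ℤ) ∣ v.1 - w.1 := by
      rw [← ZMod.intCast_zmod_eq_zero_iff_dvd]
      push_cast
      exact sub_eq_zero.2 h1
    have h4 : (m : ℤ) ∣ v.2 - w.2 := by
      rw [← ZMod.intCast_zmod_eq_zero_iff_dvd]
      push_cast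
      exact sub_eq_zero.2 h2
    obtain ⟨a, ha⟩ := h3
    obtain ⟨b, hb⟩ := h4
    exact ⟨(a, b), by ext <;> simp [ha, hb]⟩
  · rintro ⟨δ, h⟩
    have h1 := congrArg Prod.fst h
    have h2 := congrArg Prod.snd h
    simp only [Prod.smul_fst, Prod.smul_snd, Prod.fst_sub, Prod.snd_sub, smul_eq_mul] at h1 h2
    have e1 : v.1 = w.1 + m * δ.1 := by linarith
    have e2 : v.2 = w.2 + m * δ.2 := by linarith
    rw [e1, e2]
    push_cast
    simp

/-- the change of coordinates -/
theorem main {ι : Type} [Fintype ι] (S : HSystem ι) {m : ℕ} (hm : 0 < m) (q s X Y : ℤ)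
    (hdet : s * X - q * Y = 1) {K : ℕ} (hK : 0 < K) {om : ι → V → V → ℂ} (hom : HWt S K om) :
    ∃ (ι' : Type) (_ : Fintype ι') (S' : HSystem ι') (K' : ℕ) (om' : ι' → V → V → ℂ)
    (P : Set (ι' × V × V)) (T : ι' × V × V → ι × V × V),
    S'.d = S.d * m ^ 2 ∧ 0 < K' ∧ HWt S' K' om' ∧
    (∀ t ∈ P, wd t.2.1 t.2.2 = 1) ∧
    (∀ t, t ∉ P → wd t.2.1 t.2.2 = 1 → om' t.1 t.2.1 t.2.2 = 0) ∧
    Set.BijOn T P {f : ι × V × V | wd f.2.1 f.2.2 = 1} ∧
    (∀ t ∈ P, om' t.1 t.2.1 t.2.2 = om (T t).1 (T t).2.1 (T t).2.2 ∧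
      (S'.Q t.1).q t.2.1 = (S.Q (T t).1).q ((q + m * X) • (T t).2.1 + (s + m * Y) • (T t).2.2) ∧
      (S'.Q t.1).q t.2.2 = (S.Q (T t).1).q (q • (T t).2.1 + s • (T t).2.2) ∧
      (Cn (S'.Q t.1) t.2.1 ↔
        Cn (S.Q (T t).1) ((q + m * X) • (T t).2.1 + (s + m * Y) • (T t).2.2)) ∧
      (Cn (S'.Q t.1) t.2.2 ↔ Cn (S.Q (T t).1) (q • (T t).2.1 + s • (T t).2.2))) ∧
    ∀ a' : Pell.Solution₁ (S'.d : ℤ), ∃ a : Pell.Solution₁ (S.d : ℤ), a.x = a'.x ∧
      a.y = m * a'.y ∧ ∀ t ∈ P,
      (t.1, act (S'.Q t.1) a' t.2.1, act (S'.Q t.1) a' t.2.2) ∈ P ∧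
      T (t.1, act (S'.Q t.1) a' t.2.1, act (S'.Q t.1) a' t.2.2) =
        ((T t).1, act (S.Q (T t).1) a (T t).2.1, act (S.Q (T t).1) a (T t).2.2) := by
  classical
  have : NeZero m := ⟨hm.ne'⟩
  have hm0 : (m : ℤ) ≠ 0 := by exact_mod_cast hm.ne'
  -- the matrices of the lattices
  have hgex : ∀ x : ι × Lm m, ∃ G : Mat, IsG x.2 G ∧ Hyp (S.d * m ^ 2) (tr (S.Q x.1) G) ∧
      Cn (S.Q x.1) (G.app (1, 0)) := fun x => exists_g hm x.2 (S.hyp x.1)
  choose G hG hGh hGc using hgex
  have hGdet : ∀ x, (G x).det = m := fun x => (hG x).1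
  have hGne : ∀ x, (G x).det ≠ 0 := fun x => by rw [hGdet]; exact hm0
  have hcone : ∀ x (u : V), Cn (S.Q x.1) ((G x).app u) ↔ Cn (tr (S.Q x.1) (G x)) u := by
    intro x u
    refine cone_iff2 (S.hyp x.1) (hGh x) one_pos (fun u => ?_) (hGc x) u
    rw [tr_q, one_mul]
  choose e he using exists_perm S m
  have hmat : ∀ (p : ℕ) (x : ι × Lm m), ∃ A : Mat, Good S m p → A.det = p ∧
      ∀ u, (G x).app (A.app u) = (S.M p x.1).app ((G (e p x)).app u) := by
    intro p x
    by_cases hg : Good S m p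
    · obtain ⟨A, hA⟩ := exists_mat hm (good_cast hg) (S.det p hg.1 hg.2.1 x.1)
        (he p hg x).2 (hG x) (hG (e p x))
      exact ⟨A, fun _ => hA⟩
    · exact ⟨⟨1, 0, 0, 1⟩, fun h => absurd h hg⟩
  choose A hA using hmat
  have hgood : ∀ p : ℕ, p.Prime → p ≡ 1 [MOD 4 * (S.d * m ^ 2)] → Good S m p := by
    intro p hp h
    refine ⟨hp, h.of_dvd ⟨m ^ 2, by ring⟩, h.of_dvd ⟨4 * S.d * m, by ring⟩⟩
  let S' : HSystem (ι × Lm m) :=
    { Q := fun x => tr (S.Q x.1) (G x)
      d := S.d * m ^ 2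
      hyp := hGh
      s := e
      M := A
      det := fun p hp h x => (hA p x (hgood p hp h)).1
      sim := fun p hp h x u => by
        have hg := hgood p hp h
        rw [tr_q, tr_q, (hA p x hg).2 u, S.sim p hp hg.2.1, (he p hg x).1]
      cone := fun p hp h x u => by
        have hg := hgood p hp h
        rw [← hcone, ← hcone, (hA p x hg).2 u, S.cone p hp hg.2.1, (he p hg x).1] }
  -- the difference vector
  let dl : (ι × Lm m) → V → V → V := fun x u u' =>
    if h : cl m ((G x).app u) = cl m ((G x).app u') then ((cl_sub_iff _ _).1 h).choose else 0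
  have hdl : ∀ (x : ι × Lm m) (u u' : V), cl m ((G x).app u) = cl m ((G x).app u') →
      (m : ℤ) • dl x u u' = (G x).app u - (G x).app u' := by
    intro x u u' h
    simp only [dl]
    rw [dif_pos h]
    exact ((cl_sub_iff _ _).1 h).choose_spec
  let T : (ι × Lm m) × V × V → ι × V × V := fun t =>
    (t.1.1, s • dl t.1 t.2.1 t.2.2 - Y • (G t.1).app t.2.2,
      X • (G t.1).app t.2.2 - q • dl t.1 t.2.1 t.2.2)
  let P : Set ((ι × Lm m) × V × V) := {t | wd t.2.1 t.2.2 = 1 ∧
    cl m ((G t.1).app t.2.1) = cl m ((G t.1).app t.2.2)}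
  let om' : ι × Lm m → V → V → ℂ := fun x u u' =>
    if cl m ((G x).app u) = cl m ((G x).app u') then
      om x.1 (T (x, u, u')).2.1 (T (x, u, u')).2.2 else 0
  -- the vectors of the two slots
  have hl2 : ∀ t : (ι × Lm m) × V × V, q • (T t).2.1 + s • (T t).2.2 = (G t.1).app t.2.2 := by
    intro t
    simp only [T]
    ext
    · simp only [Prod.fst_add, Prod.smul_fst, Prod.fst_sub, smul_eq_mul]
      linear_combination ((G t.1).app t.2.2).1 * hdet
    · simp only [Prod.snd_add, Prod.smul_snd, Prod.snd_sub, smul_eq_mul]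
      linear_combination ((G t.1).app t.2.2).2 * hdet
  have hlX : ∀ t : (ι × Lm m) × V × V, X • (T t).2.1 + Y • (T t).2.2 =
      dl t.1 t.2.1 t.2.2 := by
    intro t
    simp only [T]
    ext
    · simp only [Prod.fst_add, Prod.smul_fst, Prod.fst_sub, smul_eq_mul]
      linear_combination (dl t.1 t.2.1 t.2.2).1 * hdet
    · simp only [Prod.snd_add, Prod.smul_snd, Prod.snd_sub, smul_eq_mul]
      linear_combination (dl t.1 t.2.1 t.2.2).2 * hdet
  have hl1 : ∀ t ∈ P, (q + m * X) • (T t).2.1 + (s + m * Y) • (T t).2.2 =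
      (G t.1).app t.2.1 := by
    intro t ht
    have h1 : (q + m * X) • (T t).2.1 + (s + m * Y) • (T t).2.2 =
        (q • (T t).2.1 + s • (T t).2.2) + (m : ℤ) • (X • (T t).2.1 + Y • (T t).2.2) := by
      ext
      · simp only [Prod.fst_add, Prod.smul_fst, smul_eq_mul]
        ring
      · simp only [Prod.snd_add, Prod.smul_snd, smul_eq_mul]
        ring
    rw [h1, hl2, hlX, hdl _ _ _ ht.2]
    abel
  -- uniqueness of the difference vector
  have hdl_eq : ∀ (x : ι × Lm m) (u u' δ : V), (m : ℤ) • δ = (G x).app u - (G x).app u' →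
      dl x u u' = δ := by
    intro x u u' δ h
    apply smul_cancel hm0
    rw [hdl x u u' ((cl_sub_iff _ _).2 ⟨δ, h⟩), h]
  -- the automorphs
  have hact : ∀ (a' : Pell.Solution₁ (S'.d : ℤ)), ∃ a : Pell.Solution₁ (S.d : ℤ), a.x = a'.x ∧
      a.y = m * a'.y ∧ (((a'.x : ℤ) : ZMod m)) ^ 2 = 1 ∧ ∀ (x : ι × Lm m) (u : V),
      (G x).app (act (S'.Q x) a' u) = act (S.Q x.1) a ((G x).app u) := by
    intro a'
    have h1 : a'.x ^ 2 - ((S.d * m ^ 2 : ℕ) : ℤ) * a'.y ^ 2 = 1 := a'.prop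
    push_cast at h1
    refine ⟨Pell.Solution₁.mk a'.x (m * a'.y) (by linear_combination h1),
      Pell.Solution₁.x_mk _ _ _, Pell.Solution₁.y_mk _ _ _, ?_, fun x u => ?_⟩
    · have h2 := congrArg (fun z : ℤ => (z : ZMod m)) h1
      push_cast at h2
      simpa using h2
    · unfold act
      rw [Pell.Solution₁.x_mk, Pell.Solution₁.y_mk]
      have := au_comm (S.Q x.1) (G x) a'.x a'.y u
      rw [hGdet] at this
      exact this
  have hactT : ∀ (a' : Pell.Solution₁ (S'.d : ℤ)) (a : Pell.Solution₁ (S.d : ℤ)), a.x = a'.x →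
      a.y = m * a'.y → (((a'.x : ℤ) : ZMod m)) ^ 2 = 1 → (∀ (x : ι × Lm m) (u : V),
      (G x).app (act (S'.Q x) a' u) = act (S.Q x.1) a ((G x).app u)) →
      ∀ (x : ι × Lm m) (u u' : V),
      (cl m ((G x).app (act (S'.Q x) a' u)) = cl m ((G x).app (act (S'.Q x) a' u')) ↔
        cl m ((G x).app u) = cl m ((G x).app u')) ∧
      (cl m ((G x).app u) = cl m ((G x).app u') →
      (T (x, act (S'.Q x) a' u, act (S'.Q x) a' u')).2.1 = act (S.Q x.1) a (T (x, u, u')).2.1 ∧
      (T (x, act (S'.Q x) a' u, act (S'.Q x) a' u')).2.2 =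
        act (S.Q x.1) a (T (x, u, u')).2.2) := by
    intro a' a hx hy h2 hc x u u'
    refine ⟨?_, fun h3 => ?_⟩
    · rw [hc, hc]
      unfold act
      rw [hx, hy]
      exact cl_act _ _ _ h2 _ _
    · have h4 : dl x (act (S'.Q x) a' u) (act (S'.Q x) a' u') =
          act (S.Q x.1) a (dl x u u') := by
        apply hdl_eq
        rw [hc, hc]
        unfold act
        rw [← Sys86.app_sub, ← hdl _ _ _ h3, Sys86.app_smul]
      simp only [T]
      rw [h4, hc]
      unfold act
      rw [Sys86.app_sub, Sys86.app_sub, Sys86.app_smul, Sys86.app_smul, Sys86.app_smul,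
        Sys86.app_smul]
      exact ⟨rfl, rfl⟩
  refine ⟨ι × Lm m, inferInstance, S', m * K, om', P, T, rfl, Nat.mul_pos hm hK, ?_,
    fun t ht => ht.1, ?_, ?_, ?_, ?_⟩
  · -- the weight
    constructor
    · intro x u u' a b
      simp only [om']
      have c0 : ∀ (u a : V), (G x).app (u + ((m * K : ℕ) : ℤ) • a) = (G x).app u +
          (m : ℤ) • ((K : ℤ) • (G x).app a) := by
        intro u a
        rw [Sys86.app_add, Sys86.app_smul, smul_smul]
        congr 2
      have c1 : ∀ (u a : V), cl m ((G x).app (u + ((m * K : ℕ) : ℤ) • a)) =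
          cl m ((G x).app u) := by
        intro u a
        rw [cl_sub_iff]
        exact ⟨(K : ℤ) • (G x).app a, by rw [c0]; abel⟩
      rw [c1, c1]
      by_cases hc : cl m ((G x).app u) = cl m ((G x).app u')
      · rw [if_pos hc, if_pos hc]
        have c2 : dl x (u + ((m * K : ℕ) : ℤ) • a) (u' + ((m * K : ℕ) : ℤ) • b) =
            dl x u u' + (K : ℤ) • ((G x).app a - (G x).app b) := by
          apply hdl_eq
          rw [c0, c0, smul_add, hdl _ _ _ hc]
          module
        have c3 : (G x).app (u' + ((m * K : ℕ) : ℤ) • b) = (G x).app u' +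
            (K : ℤ) • ((m : ℤ) • (G x).app b) := by
          rw [c0, smul_comm]
        have c4 : (T (x, u + ((m * K : ℕ) : ℤ) • a, u' + ((m * K : ℕ) : ℤ) • b)).2.1 =
            (T (x, u, u')).2.1 + (K : ℤ) • (s • ((G x).app a - (G x).app b) -
              Y • ((m : ℤ) • (G x).app b)) := by
          simp only [T]
          rw [c2, c3]
          module
        have c5 : (T (x, u + ((m * K : ℕ) : ℤ) • a, u' + ((m * K : ℕ) : ℤ) • b)).2.2 =
            (T (x, u, u')).2.2 + (K : ℤ) • (X • ((m : ℤ) • (G x).app b) -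
              q • ((G x).app a - (G x).app b)) := by
          simp only [T]
          rw [c2, c3]
          module
        rw [c4, c5, hom.per]
      · rw [if_neg hc, if_neg hc]
    · intro p hp h1 h2 x u u'
      have hg : Good S m p := hgood p hp h1
      obtain ⟨-, hA2⟩ := hA p x hg
      have hMx : S'.M p x = A p x := rfl
      have hsx : S'.s p x = e p x := rfl
      rw [hMx, hsx]
      simp only [om']
      have hd1 : (((S.M p x.1).det : ℤ) : ZMod m) = 1 := by
        rw [S.det p hp hg.2.1]; exact good_cast hg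
      have c1 : cl m ((G x).app ((A p x).app u)) = cl m ((G x).app ((A p x).app u')) ↔
          cl m ((G (e p x)).app u) = cl m ((G (e p x)).app u') := by
        rw [hA2, hA2, cl_app (S.M p x.1), cl_app (S.M p x.1)]
        exact az_inj hd1
      by_cases hc : cl m ((G (e p x)).app u) = cl m ((G (e p x)).app u')
      · rw [if_pos (c1.2 hc), if_pos hc]
        have c2 : dl x ((A p x).app u) ((A p x).app u') =
            (S.M p x.1).app (dl (e p x) u u') := by
          apply hdl_eq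
          rw [hA2, hA2, ← Sys86.app_sub, ← hdl _ _ _ hc, Sys86.app_smul]
        have c4 : (T (x, (A p x).app u, (A p x).app u')).2.1 =
            (S.M p x.1).app (T (e p x, u, u')).2.1 := by
          simp only [T]
          rw [c2, hA2, Sys86.app_sub, Sys86.app_smul, Sys86.app_smul]
        have c5 : (T (x, (A p x).app u, (A p x).app u')).2.2 =
            (S.M p x.1).app (T (e p x, u, u')).2.2 := by
          simp only [T]
          rw [c2, hA2, Sys86.app_sub, Sys86.app_smul, Sys86.app_smul]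
        have hK2 : p ≡ 1 [MOD K] := h2.of_dvd ⟨m, by ring⟩
        rw [c4, c5, hom.inv p hp hg.2.1 hK2, (he p hg x).1]
      · rw [if_neg (fun h => hc (c1.1 h)), if_neg hc]
    · intro x a' u u'
      obtain ⟨a, hx, hy, h2, hc⟩ := hact a'
      obtain ⟨h3, h4⟩ := hactT a' a hx hy h2 hc x u u'
      simp only [om']
      by_cases hcc : cl m ((G x).app u) = cl m ((G x).app u')
      · obtain ⟨h5, h6⟩ := h4 hcc
        rw [if_pos (h3.2 hcc), if_pos hcc, h5, h6]
        exact hom.aut x.1 a _ _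
      · rw [if_neg (fun h => hcc (h3.1 h)), if_neg hcc]
  · -- off the set
    intro t ht h1
    simp only [om']
    rw [if_neg]
    intro h2
    exact ht ⟨h1, h2⟩
  · -- bijection
    have hwd2 : ∀ t ∈ P, wd (dl t.1 t.2.1 t.2.2) ((G t.1).app t.2.2) = 1 := by
      intro t ht
      have h1 : (m : ℤ) * wd (dl t.1 t.2.1 t.2.2) ((G t.1).app t.2.2) = m * 1 := by
        have e1 : (m : ℤ) * wd (dl t.1 t.2.1 t.2.2) ((G t.1).app t.2.2) =
            wd ((m : ℤ) • dl t.1 t.2.1 t.2.2) ((G t.1).app t.2.2) := by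
          unfold wd
          simp only [Prod.smul_fst, Prod.smul_snd, smul_eq_mul]
          ring
        rw [e1, hdl _ _ _ ht.2]
        have e2 : wd ((G t.1).app t.2.1 - (G t.1).app t.2.2) ((G t.1).app t.2.2) =
            wd ((G t.1).app t.2.1) ((G t.1).app t.2.2) := by
          unfold wd
          simp only [Prod.fst_sub, Prod.snd_sub]
          ring
        rw [e2, wd_app, hGdet, ht.1]
      exact mul_left_cancel₀ hm0 h1
    refine ⟨?_, ?_, ?_⟩
    · intro t ht
      have h2 := hwd2 t ht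
      show wd (T t).2.1 (T t).2.2 = 1
      simp only [T]
      unfold wd at h2 ⊢
      simp only [Prod.fst_sub, Prod.snd_sub, Prod.smul_fst, Prod.smul_snd, smul_eq_mul]
      linear_combination (s * X - q * Y) * h2 + hdet
    · intro t ht t' ht' hT
      have hT2 : T t = T t' := hT
      have hi : (T t).1 = (T t').1 := by rw [hT2]
      have hv' : (G t.1).app t.2.2 = (G t'.1).app t'.2.2 := by
        rw [← hl2 t, ← hl2 t', hT]
      have hv : (G t.1).app t.2.1 = (G t'.1).app t'.2.1 := by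
        rw [← hl1 t ht, ← hl1 t' ht', hT]
      have hprim : Prim ((G t.1).app t.2.2) := by
        have h2 := hwd2 t ht
        apply prim_of_wd90 (w := -dl t.1 t.2.1 t.2.2)
        unfold wd at h2 ⊢
        simp only [Prod.fst_neg, Prod.snd_neg]
        linarith
      have hLL : ∀ x : ι × Lm m, ∀ u : V, Prim ((G x).app u) → x.2.1 = cyc m ((G x).app u) := by
        intro x u hp
        have h1 : cl m ((G x).app u) ∈ x.2.1 := ((hG x).2 _).2 ⟨u, rfl⟩
        obtain ⟨v, hv, hL⟩ := x.2.2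
        rw [hL] at h1 ⊢
        exact (cyc_eq hp h1).symm
      have hr : t.1.2 = t'.1.2 := by
        apply Subtype.ext
        rw [hLL t.1 t.2.2 hprim, hLL t'.1 t'.2.2 (by rw [← hv']; exact hprim), hv']
      obtain ⟨⟨i, r⟩, x, x'⟩ := t
      obtain ⟨⟨i', r'⟩, y, y'⟩ := t'
      simp only at hi hr hv hv'
      subst hi hr
      rw [app_inj (hGne _) hv, app_inj (hGne _) hv']
    · rintro ⟨i, w, w'⟩ hw
      have hw1 : wd w w' = 1 := hw
      have hvd : wd (X • w + Y • w') (q • w + s • w') = 1 := by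
        unfold wd at hw1 ⊢
        simp only [Prod.fst_add, Prod.snd_add, Prod.smul_fst, Prod.smul_snd, smul_eq_mul]
        linear_combination (s * X - q * Y) * hw1 + hdet
      set v' : V := q • w + s • w' with hv'
      set δ : V := X • w + Y • w' with hδ
      set v : V := v' + (m : ℤ) • δ with hv
      have hp' : Prim v' := by
        apply prim_of_wd90 (w := -δ)
        unfold wd at hvd ⊢
        simp only [Prod.fst_neg, Prod.snd_neg]
        linarith
      let L : Lm m := ⟨cyc m v', v', hp', rfl⟩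
      obtain ⟨x', hx2⟩ := ((hG (i, L)).2 v').1 (mem_cyc v')
      have hcl : cl m v = cl m v' := by
        rw [cl_sub_iff]
        exact ⟨δ, by rw [hv]; abel⟩
      obtain ⟨x, hx4⟩ := ((hG (i, L)).2 v).1 (by rw [hcl]; exact mem_cyc v')
      have hP : (((i, L), x, x') : (ι × Lm m) × V × V) ∈ P := by
        refine ⟨?_, ?_⟩
        · have h1 : (m : ℤ) * wd x x' = m * 1 := by
            have := wd_app (G (i, L)) x x'
            rw [hGdet, hx4, hx2] at this
            rw [← this, hv]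
            unfold wd at hvd ⊢
            simp only [Prod.fst_add, Prod.snd_add, Prod.smul_fst, Prod.smul_snd, smul_eq_mul]
            linear_combination (m : ℤ) * hvd
          exact mul_left_cancel₀ hm0 h1
        · show cl m ((G (i, L)).app x) = cl m ((G (i, L)).app x')
          rw [hx4, hx2, hcl]
      refine ⟨_, hP, ?_⟩
      have h1 : dl (i, L) x x' = δ := by
        apply hdl_eq
        rw [hx4, hx2, hv]
        abel
      have h2 : T ((i, L), x, x') = (i, s • δ - Y • v', X • v' - q • δ) := by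
        simp only [T]
        rw [h1, hx2]
      rw [h2, hδ, hv']
      refine Prod.ext rfl (Prod.ext ?_ ?_)
      · ext
        · simp only [Prod.fst_sub, Prod.smul_fst, Prod.fst_add, smul_eq_mul]
          linear_combination w.1 * hdet
        · simp only [Prod.snd_sub, Prod.smul_snd, Prod.snd_add, smul_eq_mul]
          linear_combination w.2 * hdet
      · ext
        · simp only [Prod.fst_sub, Prod.smul_fst, Prod.fst_add, smul_eq_mul]
          linear_combination w'.1 * hdet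
        · simp only [Prod.snd_sub, Prod.smul_snd, Prod.snd_add, smul_eq_mul]
          linear_combination w'.2 * hdet
  · intro t ht
    refine ⟨?_, ?_, ?_, ?_, ?_⟩
    · simp only [om']
      rw [if_pos ht.2]
    · rw [hl1 t ht]
      exact tr_q _ _ _
    · rw [hl2 t]
      exact tr_q _ _ _
    · rw [hl1 t ht]
      exact (hcone t.1 t.2.1).symm
    · rw [hl2 t]
      exact (hcone t.1 t.2.2).symm
  · intro a'
    obtain ⟨a, hx, hy, h2, hc⟩ := hact a'
    refine ⟨a, hx, hy, fun t ht => ?_⟩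
    obtain ⟨h3, h4⟩ := hactT a' a hx hy h2 hc t.1 t.2.1 t.2.2
    obtain ⟨h5, h6⟩ := h4 ht.2
    refine ⟨⟨?_, h3.2 ht.2⟩, ?_⟩
    · show wd (act (S'.Q t.1) a' t.2.1) (act (S'.Q t.1) a' t.2.2) = 1
      have h7 : Hyp S'.d (S'.Q t.1) := S'.hyp t.1
      rw [wd_act h7]
      exact ht.1
    · refine Prod.ext rfl (Prod.ext h5 h6)

end S99

open S99 SP.S99 in
/-- (H1) -/
theorem stHSysL_99 : StHSysL := by
  intro ι _ S e1 e2 hAdm m hm K hK om hom
  rcases hAdm with ⟨h1, h2, h3⟩ | ⟨h1, h2⟩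
  · have hm' : m + e2.1 = e1.1 := by rw [h1, h2] at hm; omega
    have hm0 : 0 < m := by omega
    have key := S99.main S hm0 e2.1 1 1 0 (by ring) hK hom
    have c1 : (e1.1 : ℤ) = e2.1 + m * 1 := by
      have : (e1.1 : ℤ) = ((m + e2.1 : ℕ) : ℤ) := by rw [hm']
      rw [this]; push_cast; ring
    have c2 : (e1.2 : ℤ) = 1 + m * 0 := by rw [h1]; simp
    have c3 : (e2.2 : ℤ) = 1 := by rw [h2]; simp
    simp only [SP.S99.lin_eq]
    rw [c1, c2, c3]
    exact key
  · have hm' : m = 1 := by rw [h1, h2] at hm; omega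
    subst hm'
    have key := S99.main S (Nat.one_pos) e2.1 1 (1 - e2.1) (-1) (by ring) hK hom
    have c1 : (e1.1 : ℤ) = e2.1 + ((1 : ℕ) : ℤ) * (1 - e2.1) := by rw [h1]; push_cast; ring
    have c2 : (e1.2 : ℤ) = 1 + ((1 : ℕ) : ℤ) * (-1) := by rw [h1]; simp
    have c3 : (e2.2 : ℤ) = 1 := by rw [h2]; simp
    simp only [SP.S99.lin_eq]
    rw [c1, c2, c3]
    exact key

end Pool.Agent.Lib.MP_a17b09_nt.SPH
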