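import Pool.Agent.Lib.MP_a17b09_nt.SPH.StmtsH99
import Pool.Agent.Lib.MP_a17b09_nt.HY.TwM68
import Pool.Agent.Lib.MP_a17b09_nt.SP.TwP27

/-!
Project SPH, row H5: the twisted theorem for two slots, positive discriminant (copy of
`HY.TwM68` with the slots of `SP.TwP27`).
-/

set_option autoImplicit false

open Filter Topology Finset

namespace Pool.Agent.Lib.MP_a17b09_nt.SPH

open Pool.Agent.Lib.MP_a17b09_nt.CH Pool.Agent.Lib.MP_a17b09_nt.HY Pool.Agent.Lib.MP_a17b09_nt.SP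
open Pool.Agent.Lib.MP_a17b09_nt.CH.G68 (cnd phi norm_phi phi_per fm fm_D)
open Pool.Agent.Lib.MP_a17b09_nt.SP.TwP27 (q_lin wo valP TwP_swap adm)

namespace TwH27

theorem slot {a b c : ℤ} (ha : 0 < a) {Q : Form} {T : ℝ} (z : ℂ)
    {t d : ℕ} (ht : |b| + |c| < t) (hd0 : d ≠ 0) (hdv : (d : ℤ) ∣ fv a b c t) {f : V × V}
    (hf : f ∈ H68.PH Q T d (2 * a * t + b) (a * (fv a b c t / d))) (o : Option ℕ) :
    gz z Q (lin (vslot a o) f.1 f.2) = z ^ (wo a o + Omn (eslot a b c t d o)) := by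
  obtain ⟨hw, -, -, h1, h2, h3⟩ := hf
  cases o with
  | none =>
    have e1 : Q.q (lin (vslot a none) f.1 f.2) = d := by
      rw [q_lin]
      show ((1 : ℕ) : ℤ) ^ 2 * Q.q f.1 + ((1 : ℕ) : ℤ) * ((0 : ℕ) : ℤ) * Q.B f.1 f.2 +
        ((0 : ℕ) : ℤ) ^ 2 * Q.q f.2 = d
      rw [h1]
      push_cast
      ring
    unfold gz
    rw [e1, Int.natAbs_natCast]
    show z ^ _ = z ^ (0 + Omn d)
    rw [zero_add]
    rfl
  | some j =>
    have hdc : (d : ℤ) ≠ 0 := by exact_mod_cast hd0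
    obtain ⟨e, he⟩ := hdv
    have hE : fv a b c t / d = e := by
      rw [he]; exact Int.mul_ediv_cancel_left e hdc
    rw [hE] at h3
    have hA : ((a.natAbs : ℕ) : ℤ) = a := by
      rw [Int.natCast_natAbs]; exact abs_of_pos ha
    have hfj : fv a b c (t + j * d) = d * (e + j * (2 * a * t + b) + a * j ^ 2 * d) := by
      have : fv a b c (t + j * d) = fv a b c t + d * (j * (2 * a * t + b) + a * j ^ 2 * d) := by
        unfold fv
        push_cast
        ring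
      rw [this, he]
      ring
    have hfd : fv a b c (t + j * d) / d = e + j * (2 * a * t + b) + a * j ^ 2 * d := by
      rw [hfj]; exact Int.mul_ediv_cancel_left _ hdc
    have e1 : Q.q (lin (vslot a (some j)) f.1 f.2) = a * (fv a b c (t + j * d) / d) := by
      rw [q_lin, hfd]
      show ((j * a.natAbs : ℕ) : ℤ) ^ 2 * Q.q f.1 + ((j * a.natAbs : ℕ) : ℤ) * ((1 : ℕ) : ℤ) *
        Q.B f.1 f.2 + ((1 : ℕ) : ℤ) ^ 2 * Q.q f.2 = _
      rw [h1, h2, h3]
      push_cast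
      rw [← Int.natCast_natAbs, hA]
      ring
    have hdvj : (d : ℤ) ∣ fv a b c (t + j * d) := ⟨_, hfj⟩
    have htj : |b| + |c| < ((t + j * d : ℕ) : ℤ) := by
      refine ht.trans_le ?_
      push_cast
      have : (0 : ℤ) ≤ (j : ℤ) * d := by positivity
      linarith
    have hfv := (H68.fv_pos ha htj).1
    have hna : (a * (fv a b c (t + j * d) / d)).natAbs =
        a.natAbs * ((fv a b c (t + j * d)).natAbs / d) := by
      rw [Int.natAbs_mul, Int.natAbs_ediv_of_dvd hdvj]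
      simp
    have hne : (fv a b c (t + j * d)).natAbs / d ≠ 0 := by
      have h4 : d ∣ (fv a b c (t + j * d)).natAbs := Int.natCast_dvd.1 hdvj
      have h5 : 0 < (fv a b c (t + j * d)).natAbs := Int.natAbs_pos.2 hfv.ne'
      exact (Nat.div_pos (Nat.le_of_dvd h5 h4) (Nat.pos_of_ne_zero hd0)).ne'
    have hcf : ArithmeticFunction.cardFactors (a.natAbs * ((fv a b c (t + j * d)).natAbs / d)) =
        Omn a.natAbs + Omn ((fv a b c (t + j * d)).natAbs / d) := by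
      unfold Omn
      exact ArithmeticFunction.cardFactors_mul (Int.natAbs_pos.2 ha.ne').ne' hne
    unfold gz
    rw [e1, hna, hcf]
    rfl

open Classical in
theorem sum_i {a b c : ℤ} (ha : 0 < a) {ι : Type} (S : HSystem ι)
    (hSd : (S.d : ℤ) = b ^ 2 - 4 * a * c)
    (w : ι → ℕ) (U : ι → V → V → ℂ) (X : ℕ → ℕ → ℂ) {T : ℝ} {h t0 : ℕ} {α β : ℝ}
    {T0 N : ℕ} (hT0 : |b| + |c| < T0) (i : ι) (hfin : (HFG (S.Q i) T a b α β T0 N).Finite)
    (hfinP : ∀ t ∈ Finset.Icc T0 N, ∀ d ∈ nearG a b c α β t,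
      (H68.PH (S.Q i) T d (2 * a * t + b) (a * (fv a b c t / d))).Finite)
    (hU0 : ∀ f : V × V, ¬ cnd a b h t0 ((S.Q i).B f.1 f.2) ((S.Q i).q f.2) → U i f.1 f.2 = 0)
    (hU : ∀ t ∈ Finset.Icc T0 N, t ≡ t0 [MOD h] → ∀ d ∈ nearG a b c α β t,
      ∀ f ∈ H68.PH (S.Q i) T d (2 * a * t + b) (a * (fv a b c t / d)),
      U i f.1 f.2 = (1 / (w i : ℂ)) * X t d) :
    ∑ f ∈ hfin.toFinset, U i f.1 f.2 =
    ∑ p ∈ ((Finset.Icc T0 N).filter (fun t => t ≡ t0 [MOD h])).sigma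
      (fun t => nearG a b c α β t),
      (((H68.PH (S.Q i) T p.2 (2 * a * p.1 + b) (a * (fv a b c p.1 / p.2))).ncard : ℂ) / w i) *
        X p.1 p.2 := by
  have hQD : (S.Q i).D = 4 * a * c - b ^ 2 := by rw [(S.hyp i).disc, hSd]; ring
  have e1 : ∑ f ∈ hfin.toFinset, U i f.1 f.2 =
      ∑ f ∈ hfin.toFinset.filter
        (fun f => cnd a b h t0 ((S.Q i).B f.1 f.2) ((S.Q i).q f.2)), U i f.1 f.2 := by
    symm
    apply Finset.sum_subset (Finset.filter_subset _ _)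
    intro f hf1 hf2
    exact hU0 f fun hc => hf2 (Finset.mem_filter.2 ⟨hf1, hc⟩)
  rw [e1]
  let g : V × V → (Σ _ : ℕ, ℕ) := fun f =>
    ⟨(((S.Q i).B f.1 f.2 - b) / (2 * a)).toNat, ((S.Q i).q f.1).toNat⟩
  have hgv : ∀ (t d : ℕ) (f : V × V), (S.Q i).q f.1 = d → (S.Q i).B f.1 f.2 = 2 * a * t + b →
      g f = ⟨t, d⟩ := by
    intro t d f h1 h2
    simp only [g]
    rw [h1, h2]
    have h3 : (2 * a * (t : ℤ) + b - b) / (2 * a) = t := by
      have : 2 * a * (t : ℤ) + b - b = (2 * a) * t := by ring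
      rw [this]
      exact Int.mul_ediv_cancel_left _ (by positivity)
    rw [h3]
    simp
  rw [← Finset.sum_fiberwise_of_maps_to (g := g) (t := ((Finset.Icc T0 N).filter
    (fun t => t ≡ t0 [MOD h])).sigma (fun t => nearG a b c α β t))]
  · apply Finset.sum_congr rfl
    rintro ⟨t, d⟩ hp
    rw [Finset.mem_sigma, Finset.mem_filter] at hp
    obtain ⟨⟨ht, hth⟩, hd⟩ := hp
    have hP := hfinP t ht d hd
    have hset : (hfin.toFinset.filter
        (fun f => cnd a b h t0 ((S.Q i).B f.1 f.2) ((S.Q i).q f.2))).filter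
        (fun f => g f = ⟨t, d⟩) = hP.toFinset := by
      ext f
      rw [Finset.mem_filter, Finset.mem_filter, Set.Finite.mem_toFinset,
        Set.Finite.mem_toFinset]
      constructor
      · rintro ⟨⟨hf1, hf2⟩, hf3⟩
        obtain ⟨t', d', h1, h2, h3, h4⟩ := H68.forward ha (S.hyp i) hQD hT0 hf1 hf2
        have h6 := hgv t' d' f h4.2.2.2.1 h4.2.2.2.2.1
        rw [hf3] at h6
        simp only [Sigma.mk.injEq, heq_eq_eq] at h6
        obtain ⟨rfl, rfl⟩ := h6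
        exact h4
      · intro hf
        have hb := H68.backward ha hT0 ht hth hd hf
        exact ⟨⟨hb.1, hb.2⟩, hgv t d f hf.2.2.2.1 hf.2.2.2.2.1⟩
    rw [hset, Finset.sum_congr rfl (g := fun _ => (1 / (w i : ℂ)) * X t d)]
    · rw [Finset.sum_const, nsmul_eq_mul, Set.ncard_eq_toFinset_card _ hP]
      ring
    · intro f hf
      rw [Set.Finite.mem_toFinset] at hf
      exact hU t ht hth d hd f hf
  · intro f hf
    rw [Finset.mem_filter, Set.Finite.mem_toFinset] at hf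
    obtain ⟨t, d, h1, h2, h3, h4⟩ := H68.forward ha (S.hyp i) hQD hT0 hf.1 hf.2
    rw [hgv t d f h4.2.2.2.1 h4.2.2.2.2.1, Finset.mem_sigma, Finset.mem_filter]
    exact ⟨⟨h1, h2⟩, h3⟩

theorem main_id {a b c : ℤ} (ha : 0 < a) {ι : Type} [Fintype ι]
    (S : HSystem ι) (hSd : (S.d : ℤ) = b ^ 2 - 4 * a * c) (w : ι → ℕ) {T : ℝ}
    (hF : ∀ F : Form, 0 < F.a → 0 < F.b → 0 < F.c → F.D = -(S.d : ℤ) →
      (∀ i, (H68.PH (S.Q i) T F.a F.b F.c).Finite) ∧
      ∑ i, (((H68.PH (S.Q i) T F.a F.b F.c).ncard : ℂ) / w i) = 1)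
    (U : ι → V → V → ℂ) (X : ℕ → ℕ → ℂ) {h t0 : ℕ} {α β : ℝ} {T0 N : ℕ}
    (hT0 : |b| + |c| < T0)
    (hfin : ∀ i, (HFG (S.Q i) T a b α β T0 N).Finite)
    (hU0 : ∀ i, ∀ f : V × V, ¬ cnd a b h t0 ((S.Q i).B f.1 f.2) ((S.Q i).q f.2) →
      U i f.1 f.2 = 0)
    (hU : ∀ i, ∀ t ∈ Finset.Icc T0 N, t ≡ t0 [MOD h] → ∀ d ∈ nearG a b c α β t,
      ∀ f ∈ H68.PH (S.Q i) T d (2 * a * t + b) (a * (fv a b c t / d)),
      U i f.1 f.2 = (1 / (w i : ℂ)) * X t d) :
    ∑ i, ∑ᶠ f ∈ HFG (S.Q i) T a b α β T0 N, U i f.1 f.2 =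
    ∑ t ∈ (Finset.Icc T0 N).filter (fun t => t ≡ t0 [MOD h]),
      ∑ d ∈ nearG a b c α β t, X t d := by
  -- the forms of the pairs
  have hform : ∀ t ∈ Finset.Icc T0 N, ∀ d ∈ nearG a b c α β t,
      0 < (fm a b c t d).a ∧ 0 < (fm a b c t d).b ∧ 0 < (fm a b c t d).c ∧
        (fm a b c t d).D = -(S.d : ℤ) := by
    intro t ht d hd
    rw [Finset.mem_Icc] at ht
    have htZ : |b| + |c| < (t : ℤ) := hT0.trans_le (by exact_mod_cast ht.1)
    obtain ⟨h1, h2⟩ := H68.fv_pos ha htZ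
    have hdv := ((H68.mem_near h1).1 hd).1
    have hd0 : 0 < d := by
      rcases Nat.eq_zero_or_pos d with h0 | h0
      · exfalso
        rw [h0, Nat.cast_zero, zero_dvd_iff] at hdv
        omega
      · exact h0
    have hd0' : (0 : ℤ) < d := by exact_mod_cast hd0
    refine ⟨hd0', h2, ?_, by rw [fm_D hdv, hSd]; ring⟩
    obtain ⟨e, he⟩ := hdv
    have h3 : fv a b c t / d = e := by rw [he]; exact Int.mul_ediv_cancel_left e hd0'.ne'
    have h4 : 0 < e := by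
      rw [he] at h1
      exact (mul_pos_iff_of_pos_left hd0').1 h1
    change 0 < a * (fv a b c t / d)
    rw [h3]
    exact mul_pos ha h4
  have e0 : ∀ i, ∑ᶠ f ∈ HFG (S.Q i) T a b α β T0 N, U i f.1 f.2 =
      ∑ p ∈ ((Finset.Icc T0 N).filter (fun t => t ≡ t0 [MOD h])).sigma
      (fun t => nearG a b c α β t),
      (((H68.PH (S.Q i) T p.2 (2 * a * p.1 + b) (a * (fv a b c p.1 / p.2))).ncard : ℂ) / w i) *
        X p.1 p.2 := by
    intro i
    rw [finsum_mem_eq_finite_toFinset_sum _ (hfin i)]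
    refine sum_i ha S hSd w U X hT0 i (hfin i) (fun t ht d hd => ?_) (hU0 i) (hU i)
    obtain ⟨h1, h2, h3, h4⟩ := hform t ht d hd
    exact (hF _ h1 h2 h3 h4).1 i
  rw [Finset.sum_congr rfl (fun i _ => e0 i), Finset.sum_comm]
  have e1 : ∀ p ∈ ((Finset.Icc T0 N).filter (fun t => t ≡ t0 [MOD h])).sigma
      (fun t => nearG a b c α β t),
      ∑ i, (((H68.PH (S.Q i) T p.2 (2 * a * p.1 + b) (a * (fv a b c p.1 / p.2))).ncard : ℂ) / w i) *
        X p.1 p.2 = X p.1 p.2 := by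
    rintro ⟨t, d⟩ hp
    rw [Finset.mem_sigma, Finset.mem_filter] at hp
    obtain ⟨⟨ht, hth⟩, hd⟩ := hp
    simp only at hd ⊢
    obtain ⟨h1, h2, h3, h4⟩ := hform t ht d hd
    have h5 := (hF _ h1 h2 h3 h4).2
    rw [← Finset.sum_mul]
    have h6 : ∑ i, (((H68.PH (S.Q i) T d (2 * a * t + b) (a * (fv a b c t / d))).ncard : ℂ) /
      w i) = 1 := h5
    rw [h6, one_mul]
  rw [Finset.sum_congr rfl e1, Finset.sum_sigma]

theorem core (hN : StHNullL) (hFm : StHFm) (a b c : ℤ) (ha : 0 < a) (d : ℕ)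
    (hd : b ^ 2 - 4 * a * c = d) (hns : ¬ IsSquare d) (hIn : InH d) (h : ℕ) (hh : 0 < h) (t0 : ℕ)
    (α β : ℝ) (hα : 0 < α) (hβ : α < β) (z1 z2 : ℂ) (k : ℕ) (hk : 0 < k) (hz1 : z1 ^ k = 1)
    (hz2 : z2 ^ k = 1) (hz : z1 ≠ 1 ∨ z2 ≠ 1) (o1 o2 : Option ℕ)
    (ho : Adm (vslot a o1) (vslot a o2)) (M : LMean) :
    M.E (fun N : ℕ => ‖TwP a b c α β h t0 z1 z2 o1 o2 N‖ / N) = 0 := by
  obtain ⟨ι, hι, S, w, e, hSd, he, hw0, hws, hF⟩ := stHSys_68 d hns
  have hSd' : (S.d : ℤ) = b ^ 2 - 4 * a * c := by rw [hSd, hd]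
  -- the weight
  obtain ⟨K, hK⟩ : ∃ K : ℕ, 2 * a * h = (K : ℤ) :=
    ⟨_, (Int.toNat_of_nonneg (by positivity)).symm⟩
  have hK0 : 0 < K := by
    have hh' : (0 : ℤ) < h := by exact_mod_cast hh
    have : (0 : ℤ) < K := by rw [← hK]; positivity
    exact_mod_cast this
  have hWt : HWt S K (H68.omH S w a b h t0) := by
    apply stHWt_68 ι S w
    · intro p hp h4 i
      rw [hSd] at h4
      exact hws p hp h4 i
    · exact hK0
    · intro x y z u v t
      rw [← hK]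
      exact phi_per a b h t0 x y z u v t
  have hNull := hN d hns hIn ι S hSd z1 z2 k hk hz1 hz2 hz _ _ ho K hK0 _ hWt e he M
  have hn1 : ‖z1‖ = 1 := Complex.norm_eq_one_of_pow_eq_one hz1 hk.ne'
  have hn2 : ‖z2‖ = 1 := Complex.norm_eq_one_of_pow_eq_one hz2 hk.ne'
  set U := kerHL S z1 z2 (vslot a o1) (vslot a o2) (H68.omH S w a b h t0) with hUd
  have hbd : ∃ C : ℝ, ∀ i v v', ‖U i v v'‖ ≤ C := by
    refine ⟨1, fun i v v' => ?_⟩
    rw [hUd]
    unfold kerHL gz H68.omH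
    rw [norm_mul, norm_mul, norm_mul, norm_pow, norm_pow, hn1, hn2, one_pow, one_pow, mul_one,
      mul_one]
    have h1 : ‖(1 / (w i : ℂ))‖ ≤ 1 := by
      rw [norm_div, norm_one, Complex.norm_natCast]
      have : (1 : ℝ) ≤ w i := by exact_mod_cast hw0 i
      rw [div_le_one (by linarith)]
      exact this
    have h2 := norm_phi a b h t0 ((S.Q i).q v) ((S.Q i).B v v') ((S.Q i).q v')
    calc _ ≤ (1 : ℝ) * 1 := mul_le_mul h1 h2 (norm_nonneg _) zero_le_one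
      _ = 1 := one_mul 1
  let T0 : ℕ := b.natAbs + c.natAbs + 1
  have hT1 : 0 < T0 := Nat.succ_pos _
  have hT0 : |b| + |c| < T0 := by
    simp only [T0]
    push_cast
    linarith
  obtain ⟨hfin, hB, hE⟩ := hFm M ι S.d S.Q S.hyp (per e) (per_pos he) _ hbd hNull a b α β ha hα
    hβ T0 hT1
  have hid : ∀ N : ℕ, ∑ i, ∑ᶠ f ∈ HFG (S.Q i) (per e) a b α β T0 N, U i f.1 f.2 =
      ∑ t ∈ (Finset.Icc T0 N).filter (fun t => t ≡ t0 [MOD h]),
        ∑ d ∈ nearG a b c α β t, valP a b c z1 z2 o1 o2 t d := by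
    intro N
    refine main_id ha S hSd' w (T := per e) (fun F h1 h2 h3 h4 => hF F h1 h2 h3 (by
      rw [h4, hSd])) U _ hT0 (fun i => hfin i N) ?_ ?_
    · intro i f hn
      rw [hUd]
      unfold kerHL H68.omH phi
      rw [if_neg hn]
      ring
    · intro i t ht hth d' hd' f hf
      have hb := H68.backward ha hT0 ht hth hd' hf
      have htZ : |b| + |c| < (t : ℤ) :=
        hT0.trans_le (by exact_mod_cast (Finset.mem_Icc.1 ht).1)
      have hfv := (H68.fv_pos ha htZ).1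
      have hdv := ((H68.mem_near hfv).1 hd').1
      have hd'0 : d' ≠ 0 := by
        rintro rfl
        have h4 := hf.2.1.1.q_pos (S.hyp i)
        rw [hf.2.2.2.1] at h4
        simp at h4
      have hphi : phi a b h t0 ((S.Q i).q f.1) ((S.Q i).B f.1 f.2) ((S.Q i).q f.2) = 1 := by
        unfold phi
        rw [if_pos hb.2]
      rw [hUd]
      unfold kerHL H68.omH
      rw [hphi, slot ha z1 htZ hd'0 hdv hf, slot ha z2 htZ hd'0 hdv hf]
      unfold valP
      ring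
  have hval : ∀ t d' : ℕ, valP a b c z1 z2 o1 o2 t d' = (z1 ^ wo a o1 * z2 ^ wo a o2) *
      (z1 ^ Omn (eslot a b c t d' o1) * z2 ^ Omn (eslot a b c t d' o2)) := by
    intro t d'
    unfold valP
    rw [pow_add, pow_add]
    ring
  have hnw : ‖z1 ^ wo a o1 * z2 ^ wo a o2‖ = 1 := by
    rw [norm_mul, norm_pow, norm_pow, hn1, hn2, one_pow, one_pow, mul_one]
  -- comparison
  let G : ℕ → ℂ := fun t => ∑ d ∈ nearG a b c α β t,
    z1 ^ Omn (eslot a b c t d o1) * z2 ^ Omn (eslot a b c t d o2)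
  let C1 : ℝ := ∑ t ∈ Finset.Icc 1 (T0 - 1), ‖G t‖
  have hC1 : 0 ≤ C1 := Finset.sum_nonneg (fun _ _ => norm_nonneg _)
  have hcmp : ∀ N : ℕ, ‖TwP a b c α β h t0 z1 z2 o1 o2 N‖ ≤ C1 +
      ‖∑ i, ∑ᶠ f ∈ HFG (S.Q i) (per e) a b α β T0 N, U i f.1 f.2‖ := by
    intro N
    have hid2 : ∑ i, ∑ᶠ f ∈ HFG (S.Q i) (per e) a b α β T0 N, U i f.1 f.2 =
        (z1 ^ wo a o1 * z2 ^ wo a o2) *
          ∑ t ∈ (Finset.Icc T0 N).filter (fun t => t ≡ t0 [MOD h]), G t := by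
      rw [hid N, Finset.mul_sum]
      refine Finset.sum_congr rfl fun t _ => ?_
      simp only [G]
      rw [Finset.mul_sum]
      exact Finset.sum_congr rfl fun d' _ => hval t d'
    rw [hid2, norm_mul, hnw, one_mul]
    have hsub : (Finset.Icc 1 N).filter (fun t => t ≡ t0 [MOD h]) =
        ((Finset.Icc 1 N).filter (fun t => t ≡ t0 [MOD h])).filter (fun t => t < T0) ∪
        (Finset.Icc T0 N).filter (fun t => t ≡ t0 [MOD h]) := by
      ext t
      rw [Finset.mem_union, Finset.mem_filter, Finset.mem_filter, Finset.mem_filter,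
        Finset.mem_filter, Finset.mem_Icc, Finset.mem_Icc]
      constructor
      · rintro ⟨h1, h2⟩
        by_cases h3 : t < T0
        · exact Or.inl ⟨⟨h1, h2⟩, h3⟩
        · exact Or.inr ⟨⟨by omega, h1.2⟩, h2⟩
      · rintro (h1 | h1)
        · exact h1.1
        · exact ⟨⟨by omega, h1.1.2⟩, h1.2⟩
    have hdis : Disjoint
        (((Finset.Icc 1 N).filter (fun t => t ≡ t0 [MOD h])).filter (fun t => t < T0))
        ((Finset.Icc T0 N).filter (fun t => t ≡ t0 [MOD h])) := by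
      rw [Finset.disjoint_left]
      intro t h1 h2
      rw [Finset.mem_filter] at h1
      rw [Finset.mem_filter, Finset.mem_Icc] at h2
      omega
    have e1 : TwP a b c α β h t0 z1 z2 o1 o2 N =
        ∑ t ∈ ((Finset.Icc 1 N).filter (fun t => t ≡ t0 [MOD h])).filter (fun t => t < T0), G t +
        ∑ t ∈ (Finset.Icc T0 N).filter (fun t => t ≡ t0 [MOD h]), G t := by
      rw [← Finset.sum_union hdis, ← hsub]
      rfl
    rw [e1]
    refine (norm_add_le _ _).trans (add_le_add ?_ le_rfl)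
    refine (norm_sum_le _ _).trans ?_
    apply Finset.sum_le_sum_of_subset_of_nonneg
    · intro t ht
      rw [Finset.mem_filter, Finset.mem_filter, Finset.mem_Icc] at ht
      rw [Finset.mem_Icc]
      omega
    · intro t _ _
      exact norm_nonneg _
  have hle : ∀ N : ℕ, ‖TwP a b c α β h t0 z1 z2 o1 o2 N‖ / N ≤ C1 / N +
      ‖∑ i, ∑ᶠ f ∈ HFG (S.Q i) (per e) a b α β T0 N, U i f.1 f.2‖ / N := by
    intro N
    rw [← add_div]
    exact div_le_div_of_nonneg_right (hcmp N) (Nat.cast_nonneg N)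
  have hr0 : Tendsto (fun N : ℕ => C1 / (N : ℝ)) atTop (𝓝 0) :=
    tendsto_const_div_atTop_nhds_zero_nat C1
  have hrB : Bdd (fun N : ℕ => C1 / (N : ℝ)) := by
    refine ⟨C1, fun N => ?_⟩
    rw [abs_of_nonneg (by positivity)]
    rcases Nat.eq_zero_or_pos N with h0 | h0
    · rw [h0]; simpa using hC1
    · apply div_le_self hC1
      exact_mod_cast h0
  have hfB : Bdd (fun N : ℕ => ‖TwP a b c α β h t0 z1 z2 o1 o2 N‖ / N) := by
    obtain ⟨C, hC⟩ := hB
    obtain ⟨C', hC'⟩ := hrB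
    refine ⟨C' + C, fun N => ?_⟩
    rw [abs_of_nonneg (by positivity)]
    exact (hle N).trans (add_le_add ((le_abs_self _).trans (hC' N))
      ((le_abs_self _).trans (hC N)))
  apply le_antisymm
  · calc M.E (fun N : ℕ => ‖TwP a b c α β h t0 z1 z2 o1 o2 N‖ / N)
        ≤ M.E (fun N : ℕ => C1 / (N : ℝ) +
          ‖∑ i, ∑ᶠ f ∈ HFG (S.Q i) (per e) a b α β T0 N, U i f.1 f.2‖ / N) :=
          LMean.mono M hfB (Bdd.add hrB hB) hle
      _ = 0 := by
          rw [M.add _ _ hrB hB, M.null _ hrB hr0, hE, add_zero]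
  · exact M.nonneg _ hfB (fun N => by positivity)

end TwH27

/-- (H5) -/
theorem stHTwP_27 (hN : StHNullL) (hFm : StHFm) : StHTwP := by
  intro a b c ha d hd hns hIn h hh t0 α β hα hβ z1 z2 k hk hz1 hz2 hz o1 o2 ho M
  rcases adm ha ho with hA | hA
  · exact TwH27.core hN hFm a b c ha d hd hns hIn h hh t0 α β hα hβ z1 z2 k hk hz1 hz2 hz o1 o2
      hA M
  · have h1 := TwH27.core hN hFm a b c ha d hd hns hIn h hh t0 α β hα hβ z2 z1 k hk hz2 hz1
      hz.symm o2 o1 hA M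
    have h2 : (fun N : ℕ => ‖TwP a b c α β h t0 z1 z2 o1 o2 N‖ / N) =
        fun N : ℕ => ‖TwP a b c α β h t0 z2 z1 o2 o1 N‖ / N := by
      funext N
      rw [TwP_swap]
    rw [h2]
    exact h1

end Pool.Agent.Lib.MP_a17b09_nt.SPH
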