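import Pool.Agent.Lib.MP_a17b09_nt.SPH.StmtsH99

/-!
SPH (H3): two fundamental domains of an infinite cyclic group give the same sum (helper22).
-/

set_option autoImplicit false

open Finset

namespace Pool.Agent.Lib.MP_a17b09_nt.SPH

namespace UnfA22

variable {X : Type} {τ : Equiv.Perm X} {T : ℝ} {θ : X → ℝ} {F : X → ℂ}

theorem inv_zpow (hF : ∀ x, F (τ x) = F x) (n : ℤ) (x : X) : F ((τ ^ n) x) = F x := by
  induction n using Int.induction_on with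
  | zero => simp
  | succ n ih =>
    rw [zpow_add, zpow_one, Equiv.Perm.mul_apply, ← ih]
    have h : (τ ^ (n : ℤ)) (τ x) = τ ((τ ^ (n : ℤ)) x) := by
      rw [← Equiv.Perm.mul_apply, ← Equiv.Perm.mul_apply, (Commute.zpow_self τ (n : ℤ)).eq]
    rw [h, hF]
  | pred n ih =>
    have h : τ ((τ ^ (-(n : ℤ) - 1)) x) = (τ ^ (-(n : ℤ))) x := by
      rw [← Equiv.Perm.mul_apply, ← zpow_one_add]
      congr 2
      ring
    rw [← ih, ← h, hF]

theorem th_zpow (hF : ∀ x, F (τ x) = F x) (hθ : ∀ x, F x ≠ 0 → θ (τ x) = θ x + T) (n : ℤ) (x : X)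
    (hx : F x ≠ 0) : θ ((τ ^ n) x) = θ x + n * T := by
  induction n using Int.induction_on with
  | zero => simp
  | succ n ih =>
    have h : (τ ^ ((n : ℤ) + 1)) x = τ ((τ ^ (n : ℤ)) x) := by
      rw [← Equiv.Perm.mul_apply, ← zpow_one_add]
      congr 2
      ring
    have h1 : F ((τ ^ (n : ℤ)) x) ≠ 0 := by rwa [inv_zpow hF]
    rw [h, hθ _ h1, ih]
    push_cast
    ring
  | pred n ih =>
    have h : τ ((τ ^ (-(n : ℤ) - 1)) x) = (τ ^ (-(n : ℤ))) x := by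
      rw [← Equiv.Perm.mul_apply, ← zpow_one_add]
      congr 2
      ring
    have h1 : F ((τ ^ (-(n : ℤ) - 1)) x) ≠ 0 := by rwa [inv_zpow hF]
    have h2 := hθ _ h1
    rw [h, ih] at h2
    have h3 : θ ((τ ^ (-(n : ℤ) - 1)) x) = θ x + ((-(n : ℤ) : ℤ) : ℝ) * T - T := by
      rw [h2]; ring
    rw [h3]
    push_cast
    ring

theorem fl {T t : ℝ} (hT : 0 < T) : 0 ≤ t + ((-⌊t / T⌋ : ℤ) : ℝ) * T ∧
    t + ((-⌊t / T⌋ : ℤ) : ℝ) * T < T := by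
  have h1 := Int.floor_le (t / T)
  have h2 := Int.lt_floor_add_one (t / T)
  rw [le_div_iff₀ hT] at h1
  rw [div_lt_iff₀ hT] at h2
  push_cast
  constructor <;> nlinarith

theorem uniq {T s t : ℝ} (hT : 0 < T) {k : ℤ} (hs : 0 ≤ s) (hs' : s < T) (ht : 0 ≤ t) (ht' : t < T)
    (h : s = t + k * T) : k = 0 := by
  have h1 : (k : ℝ) < 1 := by
    by_contra hc
    push Not at hc
    nlinarith
  have h2 : (-1 : ℝ) < k := by
    by_contra hc
    push Not at hc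
    nlinarith
  have h3 : k < 1 := by exact_mod_cast h1
  have h4 : -1 < k := by exact_mod_cast h2
  omega

end UnfA22

open UnfA22

theorem unfA_22 : StUnfA := by
  intro X τ T hT θ1 θ2 F hF hθ _ _
  have hθ1 : ∀ x, F x ≠ 0 → θ1 (τ x) = θ1 x + T := fun x hx => (hθ x hx).1
  have hθ2 : ∀ x, F x ≠ 0 → θ2 (τ x) = θ2 x + T := fun x hx => (hθ x hx).2
  rw [← finsum_mem_inter_support F {x | 0 ≤ θ1 x ∧ θ1 x < T},
    ← finsum_mem_inter_support F {x | 0 ≤ θ2 x ∧ θ2 x < T}]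
  apply finsum_mem_eq_of_bijOn (fun x => (τ ^ (-⌊θ2 x / T⌋)) x)
  · refine ⟨?_, ?_, ?_⟩
    · rintro x ⟨-, hx⟩
      have hx' : F x ≠ 0 := hx
      have h1 := th_zpow hF hθ2 (-⌊θ2 x / T⌋) x hx'
      have h2 := fl (t := θ2 x) hT
      refine ⟨⟨?_, ?_⟩, ?_⟩
      · show 0 ≤ θ2 _
        rw [h1]; exact h2.1
      · show θ2 _ < T
        rw [h1]; exact h2.2
      · show F _ ≠ 0
        rwa [inv_zpow hF]
    · rintro x ⟨hx1, hx⟩ y ⟨hy1, hy⟩ hxy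
      have hx' : F x ≠ 0 := hx
      have h1 : y = (τ ^ (⌊θ2 y / T⌋ + -⌊θ2 x / T⌋)) x := by
        rw [zpow_add, Equiv.Perm.mul_apply]
        have h2 : (τ ^ (-⌊θ2 x / T⌋)) x = (τ ^ (-⌊θ2 y / T⌋)) y := hxy
        rw [h2, ← Equiv.Perm.mul_apply, ← zpow_add]
        simp
      have h3 := th_zpow hF hθ1 (⌊θ2 y / T⌋ + -⌊θ2 x / T⌋) x hx'
      rw [← h1] at h3
      have h4 := uniq hT hy1.1 hy1.2 hx1.1 hx1.2 h3
      rw [h4, zpow_zero] at h1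
      exact h1.symm
    · rintro y ⟨hy1, hy⟩
      have hy' : F y ≠ 0 := hy
      have h1 := th_zpow hF hθ1 (-⌊θ1 y / T⌋) y hy'
      have h2 := fl (t := θ1 y) hT
      have hFx : F ((τ ^ (-⌊θ1 y / T⌋)) y) ≠ 0 := by rwa [inv_zpow hF]
      refine ⟨(τ ^ (-⌊θ1 y / T⌋)) y, ⟨⟨?_, ?_⟩, hFx⟩, ?_⟩
      · show 0 ≤ θ1 _
        rw [h1]; exact h2.1
      · show θ1 _ < T
        rw [h1]; exact h2.2
      · set x := (τ ^ (-⌊θ1 y / T⌋)) y with hx
        have h3 : (τ ^ (-⌊θ2 x / T⌋)) x = (τ ^ (-⌊θ2 x / T⌋ + -⌊θ1 y / T⌋)) y := by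
          rw [zpow_add, Equiv.Perm.mul_apply]
        have h4 := th_zpow hF hθ2 (-⌊θ2 x / T⌋) x hFx
        have h5 := fl (t := θ2 x) hT
        rw [← h4, h3] at h5
        have h6 := th_zpow hF hθ2 (-⌊θ2 x / T⌋ + -⌊θ1 y / T⌋) y hy'
        have h7 := uniq hT h5.1 h5.2 hy1.1 hy1.2 h6
        show (τ ^ (-⌊θ2 x / T⌋)) x = y
        rw [h3, h7]
        simp
  · rintro x ⟨-, hx⟩
    show F x = F ((τ ^ (-⌊θ2 x / T⌋)) x)
    rw [inv_zpow hF]

end Pool.Agent.Lib.MP_a17b09_nt.SPH
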