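import Pool.Agent.Lib.MP_a17b09_nt.SPH.In99
import Pool.Agent.Lib.MP_a17b09_nt.SPH.Sys99
import Pool.Agent.Lib.MP_a17b09_nt.SPH.Reg99
import Pool.Agent.Lib.MP_a17b09_nt.SPH.UnfA22
import Pool.Agent.Lib.MP_a17b09_nt.SPH.NullL57
import Pool.Agent.Lib.MP_a17b09_nt.SPH.TwP27
import Pool.Agent.Lib.MP_a17b09_nt.SPH.FinA11
import Pool.Agent.Lib.MP_a17b09_nt.HY.TopH20
import Pool.Agent.Lib.MP_a17b09_nt.HY.GlueH20
import Pool.Agent.Lib.MP_a17b09_nt.MRSG.TopM90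
import Pool.Agent.Lib.MP_a17b09_nt.MRH.TopM90

/-!
Project SPH (MP_a17b09_nt): the final statement for every nonsquare discriminant.
-/

set_option autoImplicit false

open Filter Topology Finset

namespace Pool.Agent.Lib.MP_a17b09_nt.SPH

open Pool.Agent.Lib.MP_a17b09_nt.CH Pool.Agent.Lib.MP_a17b09_nt.HY Pool.Agent.Lib.MP_a17b09_nt.SP
open Pool.Agent.Lib.MP_a17b09_nt.MRSG (StMrsG)
open Pool.Agent.Lib.MP_a17b09_nt.MRH (HEsAll)

theorem stHNullL_all : StHNullL :=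
  stHNullL_57 stHSysL_99 stTestL_72 stHRegL_99 unfA_22 TopH20.hC0 stMd_18 (stHper_54 TopH20.hC0)
    stHpow_20

theorem stHTwP_all : StHTwP := stHTwP_27 stHNullL_all TopH20.hFm

theorem mrsG_all : ∀ e : ℕ, 0 < e → StMrsG e := fun _ he => MRSG.stMrsG_all90 he

theorem hEsAll_all : ∀ e : ℕ, HEsAll e := fun e =>
  HY.stHGlue_20 TopH20.hRedS TopH20.hC0 e (MRH.stMrsH_top90 e)

/-- every nonsquare discriminant -/
theorem short_all {a b c : ℤ} (ha : 0 < a) (hns : ¬ IsSquare (b ^ 2 - 4 * a * c))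
    {h : ℕ} (hh : 0 < h) (t₀ : ℕ) {α β : ℝ} (hα : 0 < α) (hαβ : α < β) :
    Short a b c h t₀ α β :=
  shortAll_99 finA_11 stHTwP_all TopH20.hOn TopH20.hMainS TopH20.hAm mrsG_all hEsAll_all
    ha hns hh t₀ hα hαβ

end Pool.Agent.Lib.MP_a17b09_nt.SPH
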