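import Pool.Agent.Lib.MP_a17b09_nt.SPH.StmtsH99
import Pool.Agent.Lib.MP_a17b09_nt.SP.Fin99
import Pool.Agent.Lib.MP_a17b09_nt.SP.InG99
import Pool.Agent.Lib.MP_a17b09_nt.MRH.Stmts79
import Pool.Agent.Lib.MP_a17b09_nt.HY.EndH20

/-!
Project SPH (MP_a17b09_nt), module H7 and the assembly: the final statement for every nonsquare
discriminant from the rows, `StMrsG` (negative discriminants) and `HEsAll` (positive discriminants).
-/

set_option autoImplicit false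

open Filter Topology Finset

namespace Pool.Agent.Lib.MP_a17b09_nt.SPH

open Pool.Agent.Lib.MP_a17b09_nt.CH Pool.Agent.Lib.MP_a17b09_nt.HY Pool.Agent.Lib.MP_a17b09_nt.SP
open Pool.Agent.Lib.MP_a17b09_nt.MRSG (StMrsG)
open Pool.Agent.Lib.MP_a17b09_nt.MRH (HEsAll)

/-- (H7) the input from Theorem E -/
theorem inH_99 (hAm : StHAm) (h : ∀ e : ℕ, HEsAll e) (d : ℕ) : InH d := by
  rintro ι _ S ⟨m, hm, hS⟩ z1 z2 k hk hz1 hz2 hz K hK om hom a ha M
  exact hAm ι S z1 z2 k hk hz1 hz2 (h _ ι S rfl z1 z2 k hk hz1 hz2 hz) K hK om hom a ha M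

/-- negative discriminant -/
theorem shortNeg_99 {a b c : ℤ} (ha : 0 < a) {d : ℕ} (hd0 : 0 < d) (hd : 4 * a * c - b ^ 2 = d)
    (hA : InA d) {h : ℕ} (hh : 0 < h) (t₀ : ℕ) {α β : ℝ} (hα : 0 < α) (hαβ : α < β) :
    Short a b c h t₀ α β :=
  fin_99 a b c d ha hd0 hd hA h t₀ hh α β hα hαβ

/-- positive discriminant -/
theorem shortPos_99 (hFin : StFinA) (hTwP : StHTwP) (hOn : StHOn) (hMain : StHMainS)
    {a b c : ℤ} (ha : 0 < a) {d : ℕ} (hd : b ^ 2 - 4 * a * c = d) (hns : ¬ IsSquare d)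
    (hIn : InH d) {h : ℕ} (hh : 0 < h) (t₀ : ℕ) {α β : ℝ} (hα : 0 < α) (hαβ : α < β) :
    Short a b c h t₀ α β := by
  have hf : ∀ t : ℕ, fv a b c t ≠ 0 := by
    intro t h0
    apply hns
    unfold fv at h0
    have h1 : (d : ℤ) = (2 * a * t + b) * (2 * a * t + b) := by
      linear_combination (-1 : ℤ) * hd - 4 * a * h0
    refine ⟨(2 * a * t + b).natAbs, ?_⟩
    have h4 : (d : ℤ) = (((2 * a * t + b).natAbs * (2 * a * t + b).natAbs : ℕ) : ℤ) := by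
      rw [h1]
      push_cast
      rw [abs_mul_abs_self]
    exact_mod_cast h4
  exact hFin a b c hf h hh t₀ α β hα hαβ (hOn a b c ha d hd hns h hh t₀ α β hα hαβ)
    (hMain a b c ha d hd hns h hh t₀ α β hα hαβ) (hTwP a b c ha d hd hns hIn h hh t₀ α β hα hαβ)

/-- every nonsquare discriminant -/
theorem shortAll_99 (hFin : StFinA) (hTwP : StHTwP) (hOn : StHOn) (hMain : StHMainS)
    (hAm : StHAm) (hG : ∀ e : ℕ, 0 < e → StMrsG e) (hH : ∀ e : ℕ, HEsAll e)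
    {a b c : ℤ} (ha : 0 < a) (hns : ¬ IsSquare (b ^ 2 - 4 * a * c))
    {h : ℕ} (hh : 0 < h) (t₀ : ℕ) {α β : ℝ} (hα : 0 < α) (hαβ : α < β) :
    Short a b c h t₀ α β := by
  rcases lt_trichotomy (b ^ 2 - 4 * a * c) 0 with hD | hD | hD
  · obtain ⟨d, hd⟩ := Int.eq_ofNat_of_zero_le (a := 4 * a * c - b ^ 2) (by linarith)
    have hd0 : 0 < d := by
      have : (0 : ℤ) < d := by rw [← hd]; linarith
      exact_mod_cast this
    exact shortNeg_99 ha hd0 hd (inA_G hd0 hG) hh t₀ hα hαβ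
  · exact absurd (hD ▸ (⟨0, by ring⟩ : IsSquare (0 : ℤ))) hns
  · obtain ⟨d, hd⟩ := Int.eq_ofNat_of_zero_le hD.le
    have hd' : b ^ 2 - 4 * a * c = (d : ℤ) := hd
    have hns' : ¬ IsSquare d := by
      rintro ⟨y, hy⟩
      apply hns
      rw [hd', hy]
      exact ⟨(y : ℤ), by push_cast; ring⟩
    exact shortPos_99 hFin hTwP hOn hMain ha hd' hns' (inH_99 hAm hH d) hh t₀ hα hαβ

end Pool.Agent.Lib.MP_a17b09_nt.SPH
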