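import Pool.Agent.Lib.MP_a17b09_nt.SPH.StmtsH99
import Pool.Agent.Lib.MP_a17b09_nt.SP.Reg19
import Pool.Agent.Lib.MP_a17b09_nt.HY.Cnt84

/-!
Project SPH (MP_a17b09_nt): (H2) the change of region, positive discriminant.
-/

set_option autoImplicit false

open Filter Topology Finset

namespace Pool.Agent.Lib.MP_a17b09_nt.SPH

open Pool.Agent.Lib.MP_a17b09_nt.CH Pool.Agent.Lib.MP_a17b09_nt.HY Pool.Agent.Lib.MP_a17b09_nt.SP

namespace RegL22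

/-- `β - 2 x y` is small -/
theorem rho {x y β D δ : ℝ} (hδ : 0 < δ) (hx : δ ≤ x) (hy : δ ≤ y) (hβ : 0 ≤ β) (hD : 0 ≤ D)
    (h : 4 * x ^ 2 * y ^ 2 + D = β ^ 2) :
    0 ≤ β - 2 * x * y ∧ β - 2 * x * y ≤ D / (2 * δ ^ 2) := by
  have h1 : (β - 2 * x * y) * (β + 2 * x * y) = D := by linear_combination -h
  have h0 : δ * δ ≤ x * y := mul_le_mul hx hy hδ.le (by linarith)
  have h2 : 2 * δ ^ 2 ≤ β + 2 * x * y := by nlinarith
  have h3 : 0 < β + 2 * x * y := lt_of_lt_of_le (by positivity) h2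
  have h4 : 0 ≤ β - 2 * x * y := by
    by_contra hc
    push Not at hc
    have := mul_neg_of_neg_of_pos hc h3
    linarith
  refine ⟨h4, ?_⟩
  rw [le_div_iff₀ (by positivity)]
  calc (β - 2 * x * y) * (2 * δ ^ 2) ≤ (β - 2 * x * y) * (β + 2 * x * y) :=
        mul_le_mul_of_nonneg_left h2 h4
    _ = D := h1

/-- the length of `p w + r w'` -/
theorem len {p r κ x y β X ρ δ : ℝ} (hp : 0 ≤ p) (hr : 0 ≤ r) (hpr : 1 ≤ p + r) (hpκ : p ≤ κ)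
    (hrκ : r ≤ κ) (hδ : 0 < δ) (hx : δ ≤ x) (hy : δ ≤ y) (hX : 0 ≤ X) (hρ : 0 ≤ ρ)
    (hβ : ρ = β - 2 * x * y) (hXX : X ^ 2 = p ^ 2 * x ^ 2 + p * r * β + r ^ 2 * y ^ 2) :
    |X - (p * x + r * y)| ≤ κ ^ 2 * ρ / δ := by
  have hκ : 0 ≤ κ := hp.trans hpκ
  have h1 : |X ^ 2 - (p * x + r * y) ^ 2| ≤ κ ^ 2 * ρ := by
    have h2 : X ^ 2 - (p * x + r * y) ^ 2 = p * r * ρ := by
      rw [hXX, hβ]
      ring
    rw [h2, abs_of_nonneg (by positivity)]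
    apply mul_le_mul_of_nonneg_right _ hρ
    rw [sq]
    exact mul_le_mul hpκ hrκ hr hκ
  refine Reg19.sq_close hX hδ ?_ h1
  have h3 := mul_le_mul_of_nonneg_left hx hp
  have h4 := mul_le_mul_of_nonneg_left hy hr
  nlinarith

/-- forward -/
theorem fwd {p1 r1 p2 r2 m κ x y β X Y ρ δ : ℝ} (hp1 : 0 ≤ p1) (hr1 : 0 ≤ r1) (hp2 : 0 ≤ p2)
    (hr2 : 0 ≤ r2) (h1 : 1 ≤ p1 + r1) (h2 : 1 ≤ p2 + r2) (hp1κ : p1 ≤ κ) (hr1κ : r1 ≤ κ)
    (hp2κ : p2 ≤ κ) (hr2κ : r2 ≤ κ) (hm : 1 ≤ m) (hm' : m = p1 * r2 - p2 * r1)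
    (hδ : 0 < δ) (hx : δ ≤ x) (hy : δ ≤ y) (hX : 0 ≤ X) (hY : 0 ≤ Y) (hρ : 0 ≤ ρ)
    (hβ : ρ = β - 2 * x * y) (hXX : X ^ 2 = p1 ^ 2 * x ^ 2 + p1 * r1 * β + r1 ^ 2 * y ^ 2)
    (hYY : Y ^ 2 = p2 ^ 2 * x ^ 2 + p2 * r2 * β + r2 ^ 2 * y ^ 2) :
    |x - (r2 * X - r1 * Y) / m| ≤ 2 * κ ^ 3 * ρ / δ ∧
    |y - (p1 * Y - p2 * X) / m| ≤ 2 * κ ^ 3 * ρ / δ := by
  have hκ : 0 ≤ κ := hp1.trans hp1κ
  have hm0 : 0 < m := by linarith
  have a1 := len hp1 hr1 h1 hp1κ hr1κ hδ hx hy hX hρ hβ hXX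
  have a2 := len hp2 hr2 h2 hp2κ hr2κ hδ hx hy hY hρ hβ hYY
  set u := X - (p1 * x + r1 * y) with hu
  set v := Y - (p2 * x + r2 * y) with hv
  have hT : 0 ≤ κ ^ 2 * ρ / δ := by positivity
  have key : ∀ s t : ℝ, 0 ≤ s → s ≤ κ → 0 ≤ t → t ≤ κ → |s * u - t * v| ≤
      2 * κ ^ 3 * ρ / δ := by
    intro s t hs hs' ht ht'
    have h5 : |s * u - t * v| ≤ s * |u| + t * |v| := by
      calc |s * u - t * v| ≤ |s * u| + |t * v| := abs_sub _ _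
        _ = s * |u| + t * |v| := by
            rw [abs_mul, abs_mul, abs_of_nonneg hs, abs_of_nonneg ht]
    have h6 : s * |u| ≤ κ * (κ ^ 2 * ρ / δ) := mul_le_mul hs' a1 (abs_nonneg _) hκ
    have h7 : t * |v| ≤ κ * (κ ^ 2 * ρ / δ) := mul_le_mul ht' a2 (abs_nonneg _) hκ
    have h8 : κ * (κ ^ 2 * ρ / δ) + κ * (κ ^ 2 * ρ / δ) = 2 * κ ^ 3 * ρ / δ := by ring
    linarith
  have div : ∀ z : ℝ, |z| / m ≤ |z| := by
    intro z
    rw [div_le_iff₀ hm0]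
    nlinarith [abs_nonneg z]
  constructor
  · have h5 : x - (r2 * X - r1 * Y) / m = -((r2 * u - r1 * v) / m) := by
      rw [hu, hv, eq_neg_iff_add_eq_zero]
      field_simp
      rw [hm']
      ring
    rw [h5, abs_neg, abs_div, abs_of_pos hm0]
    exact (div _).trans (key _ _ hr2 hr2κ hr1 hr1κ)
  · have h5 : y - (p1 * Y - p2 * X) / m = (p2 * u - p1 * v) / m := by
      rw [hu, hv, eq_div_iff hm0.ne', sub_mul, div_mul_cancel₀ _ hm0.ne']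
      rw [hm']
      ring
    rw [h5, abs_div, abs_of_pos hm0]
    exact (div _).trans (key _ _ hp2 hp2κ hp1 hp1κ)

/-- backward -/
theorem bwd {r1 r2 κ m a X ρ δ : ℝ} (hr1 : 0 ≤ r1) (hr2 : 0 ≤ r2) (hr1κ : r1 ≤ κ) (hr2κ : r2 ≤ κ)
    (hm : 1 ≤ m) (hδ : 0 < δ) (hX : δ ≤ X) (hX1 : X ≤ 1) (hρ : 0 ≤ ρ)
    (h : m ^ 2 * a = m ^ 2 * X ^ 2 - r1 * r2 * ρ) (hκ : κ ^ 2 * ρ ≤ δ ^ 2 / 4) :
    |√a - X| ≤ κ ^ 2 * ρ / δ ∧ δ ^ 2 / 2 ≤ a ∧ a ≤ 1 := by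
  have hm2 : 1 ≤ m ^ 2 := one_le_pow₀ hm
  have h0 : 0 ≤ r1 * r2 * ρ := by positivity
  have h1 : r1 * r2 * ρ ≤ κ ^ 2 * ρ := by
    apply mul_le_mul_of_nonneg_right _ hρ
    rw [sq]
    exact mul_le_mul hr1κ hr2κ hr2 (hr1.trans hr1κ)
  have h2 : X ^ 2 - a = r1 * r2 * ρ / m ^ 2 := by
    rw [eq_div_iff (by positivity)]
    linarith
  have h3 : r1 * r2 * ρ / m ^ 2 ≤ r1 * r2 * ρ := div_le_self h0 hm2
  have h4 : 0 ≤ r1 * r2 * ρ / m ^ 2 := by positivity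
  have hX2 : δ ^ 2 ≤ X ^ 2 := pow_le_pow_left₀ hδ.le hX 2
  have hX3 : X ^ 2 ≤ 1 := pow_le_one₀ (hδ.le.trans hX) hX1
  have h5 : δ ^ 2 / 2 ≤ a := by
    have : 0 < δ ^ 2 := by positivity
    linarith
  have ha : 0 ≤ a := by
    have : 0 < δ ^ 2 := by positivity
    linarith
  refine ⟨Reg19.sq_close (Real.sqrt_nonneg _) hδ hX ?_, h5, by linarith⟩
  rw [Real.sq_sqrt ha, abs_sub_comm, h2, abs_of_nonneg h4]
  linarith

/-- backward, all conclusions -/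
theorem bwdAll {p1 r1 p2 r2 m κ a b β β' X' Y' X Y ρ δ : ℝ} (hp1 : 0 ≤ p1) (hr1 : 0 ≤ r1)
    (hp2 : 0 ≤ p2) (hr2 : 0 ≤ r2) (hp1κ : p1 ≤ κ) (hr1κ : r1 ≤ κ) (hp2κ : p2 ≤ κ)
    (hr2κ : r2 ≤ κ) (hm : 1 ≤ m) (hm' : m = p1 * r2 - p2 * r1) (hδ : 0 < δ) (g1 : δ ≤ X)
    (g2 : X ≤ 1) (g3 : δ ≤ Y) (g4 : Y ≤ 1)
    (eX : m * X = r2 * X' - r1 * Y') (eY : m * Y = p1 * Y' - p2 * X')
    (hX2 : X' ^ 2 = p1 ^ 2 * a + p1 * r1 * β + r1 ^ 2 * b)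
    (hY2 : Y' ^ 2 = p2 ^ 2 * a + p2 * r2 * β + r2 ^ 2 * b)
    (hβ2 : β' = 2 * p1 * p2 * a + (p1 * r2 + p2 * r1) * β + 2 * r1 * r2 * b)
    (hρ : 0 ≤ ρ) (hρd : ρ = β' - 2 * X' * Y') (hκρ : κ ^ 2 * ρ ≤ δ ^ 2 / 4) :
    0 < β ∧ |√a - X| ≤ κ ^ 2 * ρ / δ ∧ |√b - Y| ≤ κ ^ 2 * ρ / δ ∧ δ ^ 2 / 2 ≤ a ∧ a ≤ 1 ∧
      δ ^ 2 / 2 ≤ b ∧ b ≤ 1 := by
  have hm0 : 0 < m := by linarith
  have i1 : m ^ 2 * a = m ^ 2 * X ^ 2 - r1 * r2 * ρ := by
    have h1 : m ^ 2 * X ^ 2 = (r2 * X' - r1 * Y') ^ 2 := by rw [← eX]; ring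
    have h2 : (r2 * X' - r1 * Y') ^ 2 - r1 * r2 * ρ =
        r2 ^ 2 * X' ^ 2 - r1 * r2 * β' + r1 ^ 2 * Y' ^ 2 := by
      rw [hρd]
      ring
    rw [h1, h2, hX2, hY2, hβ2, hm']
    ring
  have i2 : m ^ 2 * b = m ^ 2 * Y ^ 2 - p1 * p2 * ρ := by
    have h1 : m ^ 2 * Y ^ 2 = (p1 * Y' - p2 * X') ^ 2 := by rw [← eY]; ring
    have h2 : (p1 * Y' - p2 * X') ^ 2 - p1 * p2 * ρ =
        p1 ^ 2 * Y' ^ 2 - p1 * p2 * β' + p2 ^ 2 * X' ^ 2 := by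
      rw [hρd]
      ring
    rw [h1, h2, hX2, hY2, hβ2, hm']
    ring
  have i3 : m ^ 2 * β = 2 * (m * X) * (m * Y) + (p1 * r2 + p2 * r1) * ρ := by
    have h2 : 2 * (r2 * X' - r1 * Y') * (p1 * Y' - p2 * X') + (p1 * r2 + p2 * r1) * ρ =
        (p1 * r2 + p2 * r1) * β' - 2 * r2 * p2 * X' ^ 2 - 2 * r1 * p1 * Y' ^ 2 := by
      rw [hρd]
      ring
    rw [eX, eY, h2, hX2, hY2, hβ2, hm']
    ring
  have j1 := bwd hr1 hr2 hr1κ hr2κ hm hδ g1 g2 hρ i1 hκρ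
  have j2 := bwd hp1 hp2 hp1κ hp2κ hm hδ g3 g4 hρ i2 hκρ
  refine ⟨?_, j1.1, j2.1, j1.2.1, j1.2.2, j2.2.1, j2.2.2⟩
  have hX0 : 0 < X := by linarith
  have hY0 : 0 < Y := by linarith
  have h8 : 0 < m ^ 2 * β := by
    rw [i3]
    positivity
  exact (pos_iff_pos_of_mul_pos h8).1 (by positivity)

theorem nr_sqH {Q : Form} {n : ℝ} (hn : 0 < n) {v : V} (h0 : (0 : ℝ) ≤ Q.q v) :
    Q.nr n v ^ 2 = Q.q v / n := by
  unfold Form.nr
  rw [Real.sq_sqrt (by positivity)]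

theorem consts {p1 r1 p2 r2 m : ℕ} (hm : 0 < m) (hdet : m + p2 * r1 = p1 * r2) :
    (1 : ℝ) ≤ (p1 : ℝ) + r1 ∧ (1 : ℝ) ≤ (p2 : ℝ) + r2 ∧ (1 : ℝ) ≤ m ∧
      (m : ℝ) = p1 * r2 - p2 * r1 := by
  refine ⟨?_, ?_, by exact_mod_cast hm, ?_⟩
  · have h1 : 1 ≤ p1 + r1 := by
      by_contra hc
      have h2 : p1 = 0 := by omega
      rw [h2] at hdet
      omega
    exact_mod_cast h1
  · have h1 : 1 ≤ p2 + r2 := by
      by_contra hc
      have h2 : r2 = 0 := by omega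
      rw [h2] at hdet
      omega
    exact_mod_cast h1
  · have h1 : ((m + p2 * r1 : ℕ) : ℝ) = ((p1 * r2 : ℕ) : ℝ) := by rw [hdet]
    push_cast at h1
    linarith

/-- the cone is closed under `lin` -/
theorem cn_lin {Q : Form} {e : ℕ × ℕ} (he : 1 ≤ e.1 + e.2) {w w' : V} (h : Cn Q w)
    (h' : Cn Q w') : Cn Q (lin e w w') := by
  rw [cn_iff] at h h' ⊢
  have hx : hX Q (lin e w w') = e.1 * hX Q w + e.2 * hX Q w' := by
    unfold hX lin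
    push_cast
    ring
  have hy : hY Q (lin e w w') = e.1 * hY Q w + e.2 * hY Q w' := by
    unfold hY lin
    push_cast
    ring
  rw [hx, hy]
  have h10 : (0 : ℝ) ≤ e.1 := Nat.cast_nonneg _
  have h20 : (0 : ℝ) ≤ e.2 := Nat.cast_nonneg _
  have key : ∀ s t : ℝ, 0 < s → 0 < t → 0 < e.1 * s + e.2 * t := by
    intro s t hs ht
    rcases Nat.eq_zero_or_pos e.1 with h1 | h1
    · have h2 : 0 < e.2 := by omega
      have h3 : (0 : ℝ) < e.2 := by exact_mod_cast h2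
      rw [h1]
      push_cast
      have := mul_pos h3 ht
      linarith
    · have h3 : (0 : ℝ) < e.1 := by exact_mod_cast h1
      have := mul_pos h3 hs
      have := mul_nonneg h20 ht.le
      linarith
  constructor
  · have := key _ _ h.1 h'.1
    linarith
  · have := key _ _ h.2 h'.2
    linarith

theorem hL_eq (Q : Form) (e1 e2 : ℕ × ℕ) (m : ℕ) (h : ℝ → ℝ → ℝ) (n : ℝ)
    (hk : (0 : ℝ) < kp e1 e2) (v v' : V) :
    hL e1 e2 m h (Q.nr ((kp e1 e2 : ℝ) ^ 2 * n) v) (Q.nr ((kp e1 e2 : ℝ) ^ 2 * n) v') =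
      h ((e2.2 * Q.nr n v - e1.2 * Q.nr n v') / m) ((e1.1 * Q.nr n v' - e2.1 * Q.nr n v) / m) := by
  have f1 := Reg19.nr_scale Q (n := n) hk v
  have f2 := Reg19.nr_scale Q (n := n) hk v'
  unfold hL
  rw [← f1, ← f2]
  congr 1
  · congr 1
    ring
  · congr 1
    ring

/-- the identities in the scaled quantities -/
theorem ids {d : ℕ} {Q : Form} (hQ : Hyp d Q) {p1 r1 p2 r2 m : ℕ}
    (hmd : (m : ℝ) = p1 * r2 - p2 * r1) {n : ℝ} (hn : 0 < n) {w w' : V} (hw : wd w w' = 1)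
    (q1 : (0 : ℝ) ≤ Q.q (lin (p1, r1) w w')) (q2 : (0 : ℝ) ≤ Q.q (lin (p2, r2) w w')) :
    Q.nr n (lin (p1, r1) w w') ^ 2 = (p1 : ℝ) ^ 2 * (Q.q w / n) + p1 * r1 * (Q.B w w' / n) +
      (r1 : ℝ) ^ 2 * (Q.q w' / n) ∧
    Q.nr n (lin (p2, r2) w w') ^ 2 = (p2 : ℝ) ^ 2 * (Q.q w / n) + p2 * r2 * (Q.B w w' / n) +
      (r2 : ℝ) ^ 2 * (Q.q w' / n) ∧
    (Q.B (lin (p1, r1) w w') (lin (p2, r2) w w') : ℝ) / n =
      2 * p1 * p2 * (Q.q w / n) + (p1 * r2 + p2 * r1) * (Q.B w w' / n) +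
        2 * r1 * r2 * (Q.q w' / n) ∧
    4 * ((Q.q w : ℝ) / n) * (Q.q w' / n) + d / n ^ 2 = ((Q.B w w' : ℝ) / n) ^ 2 ∧
    4 * Q.nr n (lin (p1, r1) w w') ^ 2 * Q.nr n (lin (p2, r2) w w') ^ 2 +
      d * m ^ 2 / n ^ 2 = ((Q.B (lin (p1, r1) w w') (lin (p2, r2) w w') : ℝ) / n) ^ 2 := by
  have hD : (Q.D : ℝ) = -d := by
    rw [hQ.disc]
    push_cast
    ring
  refine ⟨?_, ?_, ?_, ?_, ?_⟩
  · rw [nr_sqH hn q1, Reg19.q_lin]
    push_cast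
    ring
  · rw [nr_sqH hn q2, Reg19.q_lin]
    push_cast
    ring
  · rw [Reg19.B_lin]
    push_cast
    ring
  · have h1 : ((4 * Q.q w * Q.q w' : ℤ) : ℝ) = ((Q.B w w' ^ 2 + Q.D * wd w w' ^ 2 : ℤ) : ℝ) := by
      rw [Q.key w w']
    rw [hw] at h1
    push_cast at h1
    rw [hD] at h1
    have h2 : 4 * ((Q.q w : ℝ) / n) * (Q.q w' / n) = (4 * Q.q w * Q.q w') / n ^ 2 := by
      rw [sq]
      field_simp
    rw [h2, h1]
    ring
  · set v := lin (p1, r1) w w' with hv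
    set v' := lin (p2, r2) w w' with hv'
    have h1 : ((4 * Q.q v * Q.q v' : ℤ) : ℝ) = ((Q.B v v' ^ 2 + Q.D * wd v v' ^ 2 : ℤ) : ℝ) := by
      rw [Q.key v v']
    have h3 : ((wd v v' : ℤ) : ℝ) = m := by
      rw [hv, hv', Reg19.wd_lin, hw, hmd]
      push_cast
      ring
    push_cast at h1
    rw [h3, hD] at h1
    rw [nr_sqH hn q1, nr_sqH hn q2]
    have h2 : 4 * ((Q.q v : ℝ) / n) * (Q.q v' / n) = (4 * Q.q v * Q.q v') / n ^ 2 := by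
      rw [sq]
      field_simp
    rw [h2, h1]
    ring

/-- backward -/
theorem back {d : ℕ} {Q : Form} (hQ : Hyp d Q) {e1 e2 : ℕ × ℕ} {m : ℕ} (hm : 0 < m)
    (hdet : m + e2.1 * e1.2 = e1.1 * e2.2) {δ : ℝ} {h : ℝ → ℝ → ℝ} (hδ : 0 < δ) (hT : Test δ h)
    {n : ℝ} (hn : 1 ≤ n) {R : ℝ} (hR : R = d * (m : ℝ) ^ 2 / (2 * δ ^ 2))
    (hnR : 4 * (kp e1 e2 : ℝ) ^ 2 * R ≤ δ ^ 2 * n) {w w' : V} (hw : wd w w' = 1)
    (c1 : Cn Q (lin e1 w w')) (c2 : Cn Q (lin e2 w w'))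
    (hne : hL e1 e2 m h (Q.nr ((kp e1 e2 : ℝ) ^ 2 * n) (lin e1 w w'))
      (Q.nr ((kp e1 e2 : ℝ) ^ 2 * n) (lin e2 w w')) ≠ 0) :
    (Cn Q w ∧ Cn Q w') ∧ (δ ^ 2 / 2 * n ≤ Q.q w ∧ (Q.q w : ℝ) ≤ n ∧ (Q.q w' : ℝ) ≤ n) ∧
    |Q.nr n w - (e2.2 * Q.nr n (lin e1 w w') - e1.2 * Q.nr n (lin e2 w w')) / m| ≤
      2 * (kp e1 e2 : ℝ) ^ 3 * (R / n) / δ ∧
    |Q.nr n w' - (e1.1 * Q.nr n (lin e2 w w') - e2.1 * Q.nr n (lin e1 w w')) / m| ≤
      2 * (kp e1 e2 : ℝ) ^ 3 * (R / n) / δ := by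
  obtain ⟨p1, r1⟩ := e1
  obtain ⟨p2, r2⟩ := e2
  simp only at hdet
  obtain ⟨hs1, hs2, hm1, hmd⟩ := consts hm hdet
  have hn0 : 0 < n := by linarith
  set κ : ℝ := (kp (p1, r1) (p2, r2) : ℝ) with hκ
  have hκ' : κ = p1 + r1 + p2 + r2 := by
    rw [hκ]
    unfold kp
    push_cast
    ring
  have h10 : (0 : ℝ) ≤ p1 := Nat.cast_nonneg _
  have h20 : (0 : ℝ) ≤ r1 := Nat.cast_nonneg _
  have h30 : (0 : ℝ) ≤ p2 := Nat.cast_nonneg _
  have h40 : (0 : ℝ) ≤ r2 := Nat.cast_nonneg _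
  have hκ1 : 1 ≤ κ := by linarith
  have hD : (0 : ℝ) < d := by exact_mod_cast hQ.d_pos
  have hR0 : 0 ≤ R := by
    rw [hR]
    positivity
  have q1 : (0 : ℝ) < Q.q (lin (p1, r1) w w') := by exact_mod_cast c1.q_pos hQ
  have q2 : (0 : ℝ) < Q.q (lin (p2, r2) w w') := by exact_mod_cast c2.q_pos hQ
  obtain ⟨hX2, hY2, hβ2, key1, key2⟩ := ids hQ hmd hn0 hw q1.le q2.le
  rw [hL_eq Q _ _ m h n (by rw [← hκ]; linarith)] at hne
  simp only at hne ⊢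
  have hX0 := C27.nr_nonneg Q n (lin (p1, r1) w w')
  have hY0 := C27.nr_nonneg Q n (lin (p2, r2) w w')
  have hb' : (0 : ℝ) < Q.B (lin (p1, r1) w w') (lin (p2, r2) w w') / n :=
    div_pos (by exact_mod_cast c1.B_pos hQ c2) hn0
  have cq : (0 : ℝ) < Q.q w → (0 : ℝ) < Q.q w' → (0 : ℝ) < Q.B w w' → Cn Q w ∧ Cn Q w' := by
    intro a1 a2 a3
    constructor
    · refine Cn.of_pos hQ c1 (by exact_mod_cast a1) ?_
      have e : Q.B (lin (p1, r1) w w') w = 2 * p1 * Q.q w + r1 * Q.B w w' := by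
        unfold lin Form.q Form.B
        push_cast
        ring
      have e' : (0 : ℝ) < Q.B (lin (p1, r1) w w') w := by
        rw [e]
        push_cast
        rcases h10.eq_or_lt with h1 | h1
        · rw [← h1] at hs1 ⊢
          have : (0 : ℝ) < r1 := by linarith
          have := mul_pos this a3
          linarith
        · have := mul_pos h1 a1
          have := mul_nonneg h20 a3.le
          linarith
      exact_mod_cast e'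
    · refine Cn.of_pos hQ c1 (by exact_mod_cast a2) ?_
      have e : Q.B (lin (p1, r1) w w') w' = p1 * Q.B w w' + 2 * r1 * Q.q w' := by
        unfold lin Form.q Form.B
        push_cast
        ring
      have e' : (0 : ℝ) < Q.B (lin (p1, r1) w w') w' := by
        rw [e]
        push_cast
        rcases h10.eq_or_lt with h1 | h1
        · rw [← h1] at hs1 ⊢
          have : (0 : ℝ) < r1 := by linarith
          have := mul_pos this a2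
          linarith
        · have := mul_pos h1 a3
          have := mul_nonneg h20 a2.le
          linarith
      exact_mod_cast e'
  set X' := Q.nr n (lin (p1, r1) w w') with hX'
  set Y' := Q.nr n (lin (p2, r2) w w') with hY'
  set β' : ℝ := (Q.B (lin (p1, r1) w w') (lin (p2, r2) w w') : ℝ) / n with hβ'
  set β : ℝ := (Q.B w w' : ℝ) / n with hβ
  set a : ℝ := (Q.q w : ℝ) / n with ha
  set b : ℝ := (Q.q w' : ℝ) / n with hb
  set X := ((r2 : ℝ) * X' - r1 * Y') / m with hX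
  set Y := ((p1 : ℝ) * Y' - p2 * X') / m with hY
  obtain ⟨g1, g2, g3, g4⟩ := hT.2 _ _ hne
  have hm0 : (m : ℝ) ≠ 0 := by positivity
  have eX : (m : ℝ) * X = r2 * X' - r1 * Y' := by
    rw [hX]
    field_simp
  have eY : (m : ℝ) * Y = p1 * Y' - p2 * X' := by
    rw [hY]
    field_simp
  have eX' : X' = p1 * X + r1 * Y := by
    have h1 : (m : ℝ) * X' = m * (p1 * X + r1 * Y) := by
      have : (m : ℝ) * (p1 * X + r1 * Y) = p1 * (m * X) + r1 * (m * Y) := by ring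
      rw [this, eX, eY, hmd]
      ring
    exact mul_left_cancel₀ hm0 h1
  have eY' : Y' = p2 * X + r2 * Y := by
    have h1 : (m : ℝ) * Y' = m * (p2 * X + r2 * Y) := by
      have : (m : ℝ) * (p2 * X + r2 * Y) = p2 * (m * X) + r2 * (m * Y) := by ring
      rw [this, eX, eY, hmd]
      ring
    exact mul_left_cancel₀ hm0 h1
  have hlen : ∀ p r : ℝ, 0 ≤ p → 0 ≤ r → 1 ≤ p + r → δ ≤ p * X + r * Y := by
    intro p r hp hr hpr
    have h3 := mul_le_mul_of_nonneg_left g1 hp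
    have h4 := mul_le_mul_of_nonneg_left g3 hr
    have h5 : 1 * δ ≤ (p + r) * δ := mul_le_mul_of_nonneg_right hpr hδ.le
    linarith
  have hX1 : δ ≤ X' := by
    rw [eX']
    exact hlen _ _ h10 h20 hs1
  have hY1 : δ ≤ Y' := by
    rw [eY']
    exact hlen _ _ h30 h40 hs2
  have hρ := rho hδ hX1 hY1 hb'.le (by positivity) key2
  set ρ := β' - 2 * X' * Y' with hρd
  have hρR : ρ ≤ R / n := by
    refine hρ.2.trans ?_
    rw [hR]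
    exact Reg19.defect hD.le (by positivity) le_rfl hδ hn
  have hκρ : κ ^ 2 * ρ ≤ δ ^ 2 / 4 := by
    have h1 : κ ^ 2 * ρ ≤ κ ^ 2 * (R / n) := mul_le_mul_of_nonneg_left hρR (by positivity)
    have h2 : κ ^ 2 * (R / n) = κ ^ 2 * R / n := by ring
    rw [h2] at h1
    refine h1.trans ?_
    rw [div_le_iff₀ hn0]
    linarith
  obtain ⟨hb0, k1, k2, k3, k4, k5, k6⟩ := bwdAll (κ := κ) h10 h20 h30 h40 (by linarith)
    (by linarith) (by linarith) (by linarith) hm1 hmd hδ g1 g2 g3 g4 eX eY hX2 hY2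
    hβ2 hρ.1 hρd hκρ
  have hδ2 : 0 < δ ^ 2 := by positivity
  have a0 : 0 < a := by linarith
  have b0 : 0 < b := by linarith
  have qa : (0 : ℝ) < Q.q w := (div_pos_iff_of_pos_right hn0).1 a0
  have qb : (0 : ℝ) < Q.q w' := (div_pos_iff_of_pos_right hn0).1 b0
  have qB : (0 : ℝ) < Q.B w w' := (div_pos_iff_of_pos_right hn0).1 hb0
  have hle : κ ^ 2 * ρ / δ ≤ 2 * κ ^ 3 * (R / n) / δ := by
    have h1 : κ ^ 2 * ρ ≤ 2 * κ ^ 3 * (R / n) := by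
      have hRn : 0 ≤ R / n := by positivity
      have h2 : κ ^ 2 * ρ ≤ κ ^ 2 * (R / n) := mul_le_mul_of_nonneg_left hρR (by positivity)
      have h3 : κ ^ 2 ≤ κ ^ 3 := pow_le_pow_right₀ hκ1 (by norm_num)
      have h4 := mul_le_mul_of_nonneg_right h3 hRn
      have h5 : 0 ≤ κ ^ 3 * (R / n) := by positivity
      linarith
    exact div_le_div_of_nonneg_right h1 hδ.le
  refine ⟨cq qa qb qB, ⟨?_, ?_, ?_⟩, k1.trans hle, k2.trans hle⟩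
  · rwa [ha, le_div_iff₀ hn0] at k3
  · rwa [ha, div_le_iff₀ hn0, one_mul] at k4
  · rwa [hb, div_le_iff₀ hn0, one_mul] at k6

/-- forward -/
theorem forw {d : ℕ} {Q : Form} (hQ : Hyp d Q) {e1 e2 : ℕ × ℕ} {m : ℕ} (hm : 0 < m)
    (hdet : m + e2.1 * e1.2 = e1.1 * e2.2) {δ : ℝ} {h : ℝ → ℝ → ℝ} (hδ : 0 < δ) (hT : Test δ h)
    {n : ℝ} (hn : 1 ≤ n) {R : ℝ} (hR : R = d * (m : ℝ) ^ 2 / (2 * δ ^ 2)) {w w' : V}
    (hw : wd w w' = 1) (c1 : Cn Q w) (c2 : Cn Q w') (hne : h (Q.nr n w) (Q.nr n w') ≠ 0) :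
    (δ ^ 2 / 2 * n ≤ Q.q w ∧ (Q.q w : ℝ) ≤ n ∧ (Q.q w' : ℝ) ≤ n) ∧
    |Q.nr n w - (e2.2 * Q.nr n (lin e1 w w') - e1.2 * Q.nr n (lin e2 w w')) / m| ≤
      2 * (kp e1 e2 : ℝ) ^ 3 * (R / n) / δ ∧
    |Q.nr n w' - (e1.1 * Q.nr n (lin e2 w w') - e2.1 * Q.nr n (lin e1 w w')) / m| ≤
      2 * (kp e1 e2 : ℝ) ^ 3 * (R / n) / δ := by
  obtain ⟨p1, r1⟩ := e1
  obtain ⟨p2, r2⟩ := e2
  simp only at hdet
  obtain ⟨hs1, hs2, hm1, hmd⟩ := consts hm hdet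
  have hn0 : 0 < n := by linarith
  set κ : ℝ := (kp (p1, r1) (p2, r2) : ℝ) with hκ
  have hκ' : κ = p1 + r1 + p2 + r2 := by
    rw [hκ]
    unfold kp
    push_cast
    ring
  have h10 : (0 : ℝ) ≤ p1 := Nat.cast_nonneg _
  have h20 : (0 : ℝ) ≤ r1 := Nat.cast_nonneg _
  have h30 : (0 : ℝ) ≤ p2 := Nat.cast_nonneg _
  have h40 : (0 : ℝ) ≤ r2 := Nat.cast_nonneg _
  have hκ1 : 1 ≤ κ := by linarith
  have hD : (0 : ℝ) < d := by exact_mod_cast hQ.d_pos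
  have q1 : (0 : ℝ) < Q.q (lin (p1, r1) w w') := by
    have hh : 1 ≤ (p1, r1).1 + (p1, r1).2 := by exact_mod_cast hs1
    exact_mod_cast (cn_lin hh c1 c2).q_pos hQ
  have q2 : (0 : ℝ) < Q.q (lin (p2, r2) w w') := by
    have hh : 1 ≤ (p2, r2).1 + (p2, r2).2 := by exact_mod_cast hs2
    exact_mod_cast (cn_lin hh c1 c2).q_pos hQ
  have qa : (0 : ℝ) < Q.q w := by exact_mod_cast c1.q_pos hQ
  have qb : (0 : ℝ) < Q.q w' := by exact_mod_cast c2.q_pos hQ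
  obtain ⟨hX2, hY2, hβ2, key1, key2⟩ := ids hQ hmd hn0 hw q1.le q2.le
  have hX0 := C27.nr_nonneg Q n (lin (p1, r1) w w')
  have hY0 := C27.nr_nonneg Q n (lin (p2, r2) w w')
  have hb : (0 : ℝ) < Q.B w w' / n := div_pos (by exact_mod_cast c1.B_pos hQ c2) hn0
  rw [← nr_sqH hn0 qa.le, ← nr_sqH hn0 qb.le] at hX2 hY2 key1
  obtain ⟨g1, g2, g3, g4⟩ := hT.2 _ _ hne
  have hρ := rho hδ g1 g3 hb.le (by positivity) key1
  have hx2 := nr_sqH hn0 qa.le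
  have hy2 := nr_sqH hn0 qb.le
  set x := Q.nr n w with hx
  set y := Q.nr n w' with hy
  set β : ℝ := (Q.B w w' : ℝ) / n with hβ
  set ρ := β - 2 * x * y with hρd
  have hρR : ρ ≤ R / n := by
    refine hρ.2.trans ?_
    rw [hR]
    have h1 := Reg19.defect (D := (d : ℝ)) (k := 1) (m := (m : ℝ)) hD.le zero_le_one
      (one_le_pow₀ hm1) hδ hn
    rwa [mul_one] at h1
  have hf := fwd (κ := κ) (m := m) (ρ := ρ) h10 h20 h30 h40 hs1 hs2 (by linarith)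
    (by linarith) (by linarith) (by linarith) hm1 hmd hδ g1 g3 hX0 hY0 hρ.1 rfl hX2 hY2
  have hle : 2 * κ ^ 3 * ρ / δ ≤ 2 * κ ^ 3 * (R / n) / δ := by gcongr
  have q1 : δ ^ 2 ≤ x ^ 2 := pow_le_pow_left₀ hδ.le g1 2
  have q2 : x ^ 2 ≤ 1 := pow_le_one₀ (C27.nr_nonneg _ _ _) g2
  have q3 : y ^ 2 ≤ 1 := pow_le_one₀ (C27.nr_nonneg _ _ _) g4
  have hδ2 : 0 < δ ^ 2 := by positivity
  refine ⟨⟨?_, ?_, ?_⟩, hf.1.trans hle, hf.2.trans hle⟩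
  · rw [hx2, le_div_iff₀ hn0] at q1
    have : 0 < δ ^ 2 * n := by positivity
    linarith
  · rwa [hx2, div_le_iff₀ hn0, one_mul] at q2
  · rwa [hy2, div_le_iff₀ hn0, one_mul] at q3

end RegL22

/-- (H2) the change of region -/
theorem stHRegL_22 : StHRegL := by
  classical
  intro d Q hQ e1 e2 m hm hdet T hT0 δ h hδ hT
  obtain ⟨C, hC, hLip, -⟩ := C27.test_bd hδ hT
  have hc := RegL22.consts hm hdet
  have he1 : 1 ≤ e1.1 + e1.2 := by exact_mod_cast hc.1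
  have he2 : 1 ≤ e2.1 + e2.2 := by exact_mod_cast hc.2.1
  have hcl : ∀ w w' : V, Cn Q w → Cn Q w' → Cn Q (lin e1 w w') ∧ Cn Q (lin e2 w w') :=
    fun w w' h1 h2 => ⟨RegL22.cn_lin he1 h1 h2, RegL22.cn_lin he2 h1 h2⟩
  refine ⟨hcl, ?_⟩
  obtain ⟨A, hA, hA1, -, hA3⟩ := stHcnt_84 d Q hQ T hT0 (δ / 2) (by positivity)
  have hD : (0 : ℝ) < d := by exact_mod_cast hQ.d_pos
  set R : ℝ := d * (m : ℝ) ^ 2 / (2 * δ ^ 2) with hR
  have hR0 : 0 ≤ R := by positivity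
  set κ : ℝ := (kp e1 e2 : ℝ) with hκ
  have hκ0 : 0 ≤ κ := Nat.cast_nonneg _
  have hκp : 0 < κ := by
    have h1 : κ = e1.1 + e1.2 + e2.1 + e2.2 := by
      rw [hκ]
      unfold kp
      push_cast
      ring
    have h2 : (0 : ℝ) ≤ e2.1 := Nat.cast_nonneg _
    have h3 : (0 : ℝ) ≤ e2.2 := Nat.cast_nonneg _
    linarith [hc.1]
  refine ⟨A * A * (C * (4 * κ ^ 3 * R / δ)), max 1 ⌈4 * κ ^ 2 * R / δ ^ 2⌉₊, fun n hn => ?_⟩
  have hn1 : (1 : ℝ) ≤ n := by exact_mod_cast (le_max_left _ _).trans hn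
  have hn0 : (0 : ℝ) < n := by linarith
  have hnR : 4 * κ ^ 2 * R ≤ δ ^ 2 * n := by
    have h1 : ⌈4 * κ ^ 2 * R / δ ^ 2⌉₊ ≤ n := (le_max_right _ _).trans hn
    have h2 : 4 * κ ^ 2 * R / δ ^ 2 ≤ n := (Nat.le_ceil _).trans (by exact_mod_cast h1)
    rw [div_le_iff₀ (by positivity)] at h2
    linarith
  -- one frame
  have hone : ∀ w w' : V, wd w w' = 1 → Cn Q w → Cn Q w' →
      (h (Q.nr n w) (Q.nr n w') ≠ 0 ∨
        hL e1 e2 m h (Q.nr (κ ^ 2 * n) (lin e1 w w')) (Q.nr (κ ^ 2 * n) (lin e2 w w')) ≠ 0) →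
      (δ ^ 2 / 2 * n ≤ Q.q w ∧ (Q.q w : ℝ) ≤ n ∧ (Q.q w' : ℝ) ≤ n) ∧
      |Q.nr n w - (e2.2 * Q.nr n (lin e1 w w') - e1.2 * Q.nr n (lin e2 w w')) / m| ≤
        2 * κ ^ 3 * (R / n) / δ ∧
      |Q.nr n w' - (e1.1 * Q.nr n (lin e2 w w') - e2.1 * Q.nr n (lin e1 w w')) / m| ≤
        2 * κ ^ 3 * (R / n) / δ := by
    intro w w' hw c1 c2 hne
    rcases hne with hne | hne
    · exact RegL22.forw hQ hm hdet hδ hT hn1 hR hw c1 c2 hne
    · exact (RegL22.back hQ hm hdet hδ hT hn1 hR hnR hw (hcl w w' c1 c2).1 (hcl w w' c1 c2).2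
        hne).2
  -- the frames which occur
  have hsub : ∀ f : V × V, wd f.1 f.2 = 1 → Sec Q T f.1 → Cn Q f.2 →
      (δ ^ 2 / 2 * n ≤ Q.q f.1 ∧ (Q.q f.1 : ℝ) ≤ n ∧ (Q.q f.2 : ℝ) ≤ n) →
      f.1 ∈ {v : V | Sec Q T v ∧ (Q.q v : ℝ) ≤ n} ∧
      f.2 ∈ {v' : V | Cn Q v' ∧ (Q.q v' : ℝ) ≤ n ∧ wd f.1 v' = 1} ∧
      {v' : V | Cn Q v' ∧ (Q.q v' : ℝ) ≤ n ∧ wd f.1 v' = 1}.Finite ∧
      ({v' : V | Cn Q v' ∧ (Q.q v' : ℝ) ≤ n ∧ wd f.1 v' = 1}.ncard : ℝ) ≤ A := by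
    intro f h1 h2 h3 h4
    have h5 : (δ / 2) ^ 2 * (n : ℝ) ≤ Q.q f.1 := by
      refine le_trans ?_ h4.1
      have : 0 < δ ^ 2 * (n : ℝ) := by positivity
      nlinarith
    obtain ⟨h6, h7⟩ := hA3 n f.1 1 hn0 (Reg19.prim_of_wd h1) h2.1 h5
    exact ⟨⟨h2, h4.2.1⟩, ⟨h3, h4.2.2, h1⟩, h6, h7⟩
  refine ⟨fun w w' hw c1 c2 hne => (RegL22.back hQ hm hdet hδ hT hn1 hR hnR hw c1 c2 hne).1,
    ?_, ?_⟩
  · -- finiteness
    refine ((hA1 n hn1).1.biUnion (t := fun v => if δ ^ 2 / 2 * n ≤ Q.q v ∧ Prim v ∧ Sec Q T v then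
      (fun v' => (v, v')) '' {v' : V | Cn Q v' ∧ (Q.q v' : ℝ) ≤ n ∧ wd v v' = 1} else ∅)
      ?_).subset ?_
    · intro v hv
      show (if _ then _ else _ : Set (V × V)).Finite
      split_ifs with h1
      · refine (hA3 n v 1 hn0 h1.2.1 h1.2.2.1 ?_).1.image _
        refine le_trans ?_ h1.1
        have : 0 < δ ^ 2 * (n : ℝ) := by positivity
        nlinarith
      · exact Set.finite_empty
    · rintro ⟨w, w'⟩ ⟨h1, h2, h3, h4⟩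
      have h5 := (hone w w' h1 h2.1 h3 h4).1
      obtain ⟨h6, h7, -, -⟩ := hsub (w, w') h1 h2 h3 h5
      refine Set.mem_biUnion h6 ?_
      show (w, w') ∈ (if _ then _ else _ : Set (V × V))
      rw [if_pos ⟨h5.1, Reg19.prim_of_wd h1, h2⟩]
      exact ⟨w', h7, rfl⟩
  · -- the sum
    intro F hF
    set φ : V × V → ℝ := fun f => h (Q.nr n f.1) (Q.nr n f.2) -
        hL e1 e2 m h (Q.nr (κ ^ 2 * n) (lin e1 f.1 f.2))
          (Q.nr (κ ^ 2 * n) (lin e2 f.1 f.2)) with hφ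
    have hterm : ∀ f ∈ F, φ f ≠ 0 → (δ ^ 2 / 2 * n ≤ Q.q f.1 ∧ (Q.q f.1 : ℝ) ≤ n ∧
        (Q.q f.2 : ℝ) ≤ n) ∧ |φ f| ≤ C * (4 * κ ^ 3 * R / (δ * n)) := by
      intro f hf hne
      obtain ⟨h1, h2, h3⟩ := hF f hf
      have h4 : h (Q.nr n f.1) (Q.nr n f.2) ≠ 0 ∨
          hL e1 e2 m h (Q.nr (κ ^ 2 * n) (lin e1 f.1 f.2))
            (Q.nr (κ ^ 2 * n) (lin e2 f.1 f.2)) ≠ 0 := by
        by_contra hc
        push Not at hc
        exact hne (by rw [hφ]; simp only; rw [hc.1, hc.2, sub_zero])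
      obtain ⟨h5, h6, h7⟩ := hone f.1 f.2 h1 h2.1 h3 h4
      refine ⟨h5, ?_⟩
      rw [hφ]
      simp only
      rw [hκ, RegL22.hL_eq Q e1 e2 m h n hκp, ← hκ]
      refine (hLip _ _ _ _).trans (mul_le_mul_of_nonneg_left ?_ hC)
      refine (add_le_add h6 h7).trans (le_of_eq ?_)
      field_simp
      ring
    have hsum : ∑ f ∈ F, |φ f| = ∑ f ∈ F.filter (fun f => φ f ≠ 0), |φ f| := by
      rw [Finset.sum_filter]
      refine Finset.sum_congr rfl fun f _ => ?_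
      split_ifs with h1
      · rfl
      · push Not at h1
        rw [h1, abs_zero]
    have hcard : ((F.filter (fun f => φ f ≠ 0)).card : ℝ) ≤ A * (A * n) := by
      set G := F.filter (fun f => φ f ≠ 0) with hG
      have hGm : ∀ f ∈ G, wd f.1 f.2 = 1 ∧ Sec Q T f.1 ∧ Cn Q f.2 ∧
          (δ ^ 2 / 2 * n ≤ Q.q f.1 ∧ (Q.q f.1 : ℝ) ≤ n ∧ (Q.q f.2 : ℝ) ≤ n) := by
        intro f hf
        rw [hG, Finset.mem_filter] at hf
        obtain ⟨h1, h2, h3⟩ := hF f hf.1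
        exact ⟨h1, h2, h3, (hterm f hf.1 hf.2).1⟩
      have h1 : G.card ≤ ⌊A⌋₊ * (G.image Prod.fst).card := by
        refine Finset.card_le_mul_card_image G _ fun v hv => ?_
        obtain ⟨g, hg, hgv⟩ := Finset.mem_image.1 hv
        obtain ⟨a1, a2, a3, a4⟩ := hGm g hg
        obtain ⟨-, -, b3, b4⟩ := hsub g a1 a2 a3 a4
        rw [hgv] at b3 b4
        refine Nat.le_floor (le_trans ?_ b4)
        have hinj : Set.InjOn Prod.snd ((G.filter fun f => f.1 = v : Finset (V × V)) :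
            Set (V × V)) := by
          intro f hf g hg hfg
          rw [Finset.mem_coe, Finset.mem_filter] at hf hg
          exact Prod.ext (hf.2.trans hg.2.symm) hfg
        rw [← Finset.card_image_of_injOn hinj]
        rw [← Set.ncard_coe_finset]
        have h5 := Set.ncard_le_ncard (s := (((G.filter fun f => f.1 = v).image Prod.snd :
          Finset V) : Set V)) (t := {v' : V | Cn Q v' ∧ (Q.q v' : ℝ) ≤ n ∧ wd v v' = 1})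
          (fun w hw => by
            rw [Finset.mem_coe, Finset.mem_image] at hw
            obtain ⟨f, hf, hfw⟩ := hw
            rw [Finset.mem_filter] at hf
            obtain ⟨c1, c2, c3, c4⟩ := hGm f hf.1
            rw [hfw] at c1 c3 c4
            rw [hf.2] at c1
            exact ⟨c3, c4.2.2, c1⟩) b3
        exact_mod_cast h5
      have h2 : ((G.image Prod.fst).card : ℝ) ≤ A * n := by
        refine le_trans ?_ (hA1 n hn1).2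
        rw [← Set.ncard_coe_finset]
        have h5 := Set.ncard_le_ncard (s := ((G.image Prod.fst : Finset V) : Set V))
          (t := {v : V | Sec Q T v ∧ (Q.q v : ℝ) ≤ n})
          (fun w hw => by
            rw [Finset.mem_coe, Finset.mem_image] at hw
            obtain ⟨f, hf, hfw⟩ := hw
            obtain ⟨c1, c2, c3, c4⟩ := hGm f hf
            rw [hfw] at c2 c4
            exact ⟨c2, c4.2.1⟩) (hA1 n hn1).1
        exact_mod_cast h5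
      calc (G.card : ℝ) ≤ ((⌊A⌋₊ * (G.image Prod.fst).card : ℕ) : ℝ) := by exact_mod_cast h1
        _ = (⌊A⌋₊ : ℝ) * ((G.image Prod.fst).card : ℝ) := by push_cast; ring
        _ ≤ A * (A * n) := mul_le_mul (Nat.floor_le hA.le) h2 (Nat.cast_nonneg _) hA.le
    show ∑ f ∈ F, |φ f| ≤ _
    rw [hsum]
    calc ∑ f ∈ F.filter (fun f => φ f ≠ 0), |φ f| ≤
          ∑ f ∈ F.filter (fun f => φ f ≠ 0), C * (4 * κ ^ 3 * R / (δ * n)) :=
          Finset.sum_le_sum fun f hf => by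
            rw [Finset.mem_filter] at hf
            exact (hterm f hf.1 hf.2).2
      _ = (F.filter (fun f => φ f ≠ 0)).card * (C * (4 * κ ^ 3 * R / (δ * n))) := by
          rw [Finset.sum_const, nsmul_eq_mul]
      _ ≤ A * (A * n) * (C * (4 * κ ^ 3 * R / (δ * n))) :=
          mul_le_mul_of_nonneg_right hcard (by positivity)
      _ = A * A * (C * (4 * κ ^ 3 * R / δ)) := by
          field_simp

end Pool.Agent.Lib.MP_a17b09_nt.SPH
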